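import Pool.Agent.H595R2.PTF.Mix

set_option autoImplicit false
set_option linter.unusedSectionVars false

namespace Pool.Agent.H595R2.PTF

open Pool.Agent.Helper497.HS

section mixvars

/-- the mixed variable -/
noncomputable def mixv (α β : ℝ) (s : ℤˣ × ℤˣ) : ℝ := α * sv s.1 + β * sv s.2

lemma good_mixv (α β : ℝ) (h : α ^ 2 + β ^ 2 = 1) : Good (mixv α β) where
  m1 := by
    rw [Ex_prod, Ex_units, Ex_units, Ex_units]
    simp [mixv]; ring
  m2 := by
    rw [Ex_prod, Ex_units, Ex_units, Ex_units]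
    simp only [mixv, sv_one, sv_neg_one]
    linear_combination h
  m3 := by
    rw [Ex_prod, Ex_units, Ex_units, Ex_units]
    simp only [mixv, sv_one, sv_neg_one]
    ring
  m4 := by
    rw [Ex_prod, Ex_units, Ex_units, Ex_units]
    simp only [mixv, sv_one, sv_neg_one]
    have e : (((α * 1 + β * 1) ^ 4 + (α * 1 + β * -1) ^ 4) / 2
      + ((α * -1 + β * 1) ^ 4 + (α * -1 + β * -1) ^ 4) / 2) / 2
      = (α ^ 2 + β ^ 2) ^ 2 + 4 * α ^ 2 * β ^ 2 := by ring
    rw [e, h]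
    nlinarith [sq_nonneg (α ^ 2 - β ^ 2), sq_nonneg α, sq_nonneg β]

variable {ι : Type} [Fintype ι] [DecidableEq ι]

lemma Ex_pairs (G : (ι → ℤˣ) → (ι → ℤˣ) → ℝ) :
    Ex (fun ω : ι → ℤˣ × ℤˣ => G (fun i => (ω i).1) (fun i => (ω i).2))
      = Ex (fun x => Ex (fun y => G x y)) := by
  rw [← Ex_prod (fun p : (ι → ℤˣ) × (ι → ℤˣ) => G p.1 p.2)]
  exact Ex_equiv (Equiv.arrowProdEquivProdArrow ι (fun _ => ℤˣ) (fun _ => ℤˣ))
    (fun p : (ι → ℤˣ) × (ι → ℤˣ) => G p.1 p.2)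

end mixvars

/-- anti-concentration statement for regular polynomials -/
def AC (d : ℕ) (p : ℝ) : Prop := ∃ τ : ℝ, 0 < τ ∧ ∃ u : ℝ, 0 < u ∧
  ∀ (ι : Type) [Fintype ι] [DecidableEq ι] (P : (ι → ℤˣ) → ℝ), LD d P → nsq P = 1 →
    (∀ i, infl i P ≤ τ) → Pr (fun x => |P x| ≤ u) ≤ p

lemma ac_mono {d : ℕ} {p q : ℝ} (h : p ≤ q) (hp : AC d p) : AC d q := by
  obtain ⟨τ, hτ, u, hu, H⟩ := hp
  exact ⟨τ, hτ, u, hu, fun ι _ _ P h1 h2 h3 => (H ι P h1 h2 h3).trans h⟩

lemma ac_base (d : ℕ) : AC d (1 - cd d) := by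
  refine ⟨1, one_pos, 1 / 2, by norm_num, fun ι _ _ P hP h1 _ => ?_⟩
  have := small_ball hP (by rw [h1]; norm_num)
  refine le_trans (Pr_mono fun x hx => ?_) this
  rw [h1]
  rw [← sq_abs]
  have h0 := abs_nonneg (P x)
  nlinarith

lemma sq2_pd_fc {ι : Type} [Fintype ι] [DecidableEq ι] (P : (ι → ℤˣ) → ℝ) (i : ι) :
    sq2 (pd i (fc P)) = infl i P := by
  rw [sq2_pd, infl_eq]

theorem ac_step (d : ℕ) (p : ℝ) (hp1 : p ≤ 1) (h : AC d p) (γ : ℝ) (hγ : 0 < γ)
    (hγ1 : γ ≤ 1) : AC d (p ^ 2 + γ) := by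
  classical
  obtain ⟨τ0, hτ0, u0, hu0, H⟩ := h
  -- number of nodes
  obtain ⟨N, hN⟩ := exists_nat_gt (16 * d / γ)
  have hNpos : 0 < (N:ℝ) := lt_of_le_of_lt (by positivity) hN
  have hNd : 2 * (d:ℝ) ≤ γ / 8 * N := by
    rw [div_lt_iff₀ hγ] at hN
    linarith
  set T : Finset ℝ := (Finset.range N).image (fun n : ℕ => (n : ℝ)) with hT
  have hTc : T.card = N := by
    rw [hT, Finset.card_image_of_injective _ Nat.cast_injective, Finset.card_range]
  obtain ⟨Λ0, hΛ0, hI0⟩ := interp (2 * d) T 0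
  obtain ⟨Λ1, hΛ1, hI1⟩ := interp (2 * d) T 1
  set Λ := Λ0 + Λ1 with hΛ
  have hΛpos : 0 < Λ := by positivity
  set B : ℝ := (1 + (N:ℝ) ^ 2) ^ d with hB
  have hBpos : 0 < B := by positivity
  set u2 : ℝ := u0 / (Λ * B) with hu2
  have hu2pos : 0 < u2 := by positivity
  set k : ℝ := γ / 16 with hk
  have hkpos : 0 < k := by positivity
  have hk1 : k ≤ 1 / 16 := by rw [hk]; linarith
  set μ : ℝ := 1 / (k * u2) with hμ
  have hμpos : 0 < μ := by positivity
  set Kc : ℝ := 6 * μ ^ 3 * 3 ^ d * (d + 1) with hKc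
  have hKcpos : 0 < Kc := by positivity
  set τ1 : ℝ := min (min 1 τ0) (k / Kc) with hτ1
  have hτ1pos : 0 < τ1 := by
    rw [hτ1]; exact lt_min (lt_min one_pos hτ0) (by positivity)
  have hτ1a : τ1 ≤ 1 := (min_le_left _ _).trans (min_le_left _ _)
  have hτ1b : τ1 ≤ τ0 := (min_le_left _ _).trans (min_le_right _ _)
  have hτ1c : τ1 ≤ k / Kc := min_le_right _ _
  refine ⟨τ1 ^ 2, by positivity, k ^ 2 * u2, by positivity, fun ι _ _ P hP hn hinf => ?_⟩
  have hpP : Pr (fun x => |P x| ≤ u0) ≤ p := H ι P hP hn fun i => (hinf i).trans (by nlinarith)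
  set Ψ : ℝ → ℝ := fun v => gb (μ * v) with hΨ
  have hΨ0 : ∀ v, 0 ≤ Ψ v := fun v => gb_nonneg _
  have hΨ1 : ∀ v, Ψ v ≤ 1 := fun v => gb_le_one _
  -- large at small values
  have hΨlow : ∀ v, |v| ≤ k ^ 2 * u2 → 1 ≤ (1 + k ^ 2) * Ψ v := by
    intro v hv
    have h1 : (μ * v) ^ 2 ≤ k ^ 2 := by
      have : |μ * v| ≤ k := by
        rw [abs_mul, abs_of_pos hμpos]
        calc μ * |v| ≤ μ * (k ^ 2 * u2) := mul_le_mul_of_nonneg_left hv hμpos.le
          _ = k := by rw [hμ]; field_simp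
      rw [← sq_abs]
      exact pow_le_pow_left₀ (abs_nonneg _) this 2
    simp only [hΨ, gb]
    rw [mul_one_div, le_div_iff₀ (by positivity)]
    linarith
  -- small at large values
  have hΨhigh : ∀ v, u2 < |v| → Ψ v ≤ k ^ 2 := by
    intro v hv
    have h1 : 1 / k ^ 2 ≤ (μ * v) ^ 2 := by
      have h2 : 1 / k ≤ |μ * v| := by
        rw [abs_mul, abs_of_pos hμpos]
        calc 1 / k = μ * u2 := by rw [hμ]; field_simp
          _ ≤ μ * |v| := mul_le_mul_of_nonneg_left hv.le hμpos.le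
      rw [← sq_abs (μ * v)]
      calc 1 / k ^ 2 = (1 / k) ^ 2 := by rw [one_div_pow]
        _ ≤ _ := pow_le_pow_left₀ (by positivity) h2 2
    simp only [hΨ, gb]
    rw [div_le_iff₀ (by positivity)]
    have h3 : k ^ 2 * (1 / k ^ 2) = 1 := by field_simp
    nlinarith [mul_le_mul_of_nonneg_left h1 (by positivity : (0:ℝ) ≤ k ^ 2), sq_nonneg k]
  set V1 : ι → ℤˣ × ℤˣ → ℝ := fun _ => mixv 1 0 with hV1
  set Vt : ℝ → ι → ℤˣ × ℤˣ → ℝ := fun t _ =>
    mixv ((1 - t ^ 2) / (1 + t ^ 2)) (2 * t / (1 + t ^ 2)) with hVt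
  have gV1 : ∀ i, Good (V1 i) := fun i => good_mixv _ _ (by norm_num)
  have gVt : ∀ t i, Good (Vt t i) := fun t i => good_mixv _ _ (by
    have : (1 + t ^ 2) ≠ 0 := by positivity
    field_simp; ring)
  have err : ∀ t, Ex (fun ω => Ψ (ev (fc P) V1 ω)) ≤ Ex (fun ω => Ψ (ev (fc P) (Vt t) ω)) + k := by
    intro t
    have hl := lindeberg_ml (gb_scaled μ hμpos.le) d (fc P) hP V1 (Vt t) gV1 (gVt t) τ1 hτ1pos
      (fun i => by rw [sq2_pd_fc]; exact hinf i)
    have hs : sq2 (fc P) = 1 := by rw [← hn, nsq_eq]; rfl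
    rw [hs] at hl
    have h5 : 6 * μ ^ 3 * (3 ^ d * τ1) * (d * 1) ≤ k := by
      calc 6 * μ ^ 3 * (3 ^ d * τ1) * (d * 1) = 6 * μ ^ 3 * 3 ^ d * d * τ1 := by ring
        _ ≤ Kc * τ1 := by
            apply mul_le_mul_of_nonneg_right _ hτ1pos.le
            rw [hKc]
            have : (0:ℝ) ≤ 6 * μ ^ 3 * 3 ^ d := by positivity
            nlinarith
        _ ≤ Kc * (k / Kc) := mul_le_mul_of_nonneg_left hτ1c hKcpos.le
        _ = k := by field_simp
    have := (abs_le.mp (hl.trans h5)).2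
    linarith
  have e1 : Ex (fun ω => Ψ (ev (fc P) V1 ω)) = Ex (fun x => Ψ (P x)) := by
    have h1 : ∀ ω : ι → ℤˣ × ℤˣ, ev (fc P) V1 ω = P (fun i => (ω i).1) := by
      intro ω
      rw [← ev_cube P]
      unfold ev
      congr 1
      funext i
      simp [hV1, mixv]
    simp only [h1]
    rw [Ex_pairs (fun x _ => Ψ (P x))]
    simp only [Ex_const]
  -- pointwise bound
  have hpt : ∀ ω : ι → ℤˣ × ℤˣ, ∑ t ∈ T, Ψ (ev (fc P) (Vt t) ω)
      ≤ N * (if |P (fun i => (ω i).1)| ≤ u0 ∧ |P (fun i => (ω i).2)| ≤ u0 then (1:ℝ) else 0)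
        + 2 * d + N * k ^ 2 := by
    intro ω
    split_ifs with hc
    · have : ∑ t ∈ T, Ψ (ev (fc P) (Vt t) ω) ≤ ∑ _t ∈ T, (1:ℝ) :=
        Finset.sum_le_sum fun t _ => hΨ1 _
      rw [Finset.sum_const, hTc, nsmul_eq_mul, mul_one] at this
      have h2 : 0 ≤ (N:ℝ) * k ^ 2 := by positivity
      have h3 : 0 ≤ 2 * (d:ℝ) := by positivity
      linarith
    · set T0 := T.filter (fun t => |ev (fc P) (Vt t) ω| ≤ u2) with hT0
      have hcard : T0.card ≤ 2 * d := by
        by_contra hcon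
        push Not at hcon
        obtain ⟨T', hT'sub, hT'card⟩ := Finset.exists_subset_card_eq (n := 2 * d + 1) (by omega : 2 * d + 1 ≤ T0.card)
        obtain ⟨r, hr, hev⟩ := curve_poly d (fc P) hP (fun i => sv (ω i).1) (fun i => sv (ω i).2)
        have hsm : ∀ t ∈ T', |r.eval t| ≤ B * u2 := by
          intro t ht
          have ht0 := Finset.mem_filter.mp (hT'sub ht)
          rw [hev t, abs_mul, abs_of_pos (by positivity : (0:ℝ) < (1 + t ^ 2) ^ d)]
          have htN : t ^ 2 ≤ (N:ℝ) ^ 2 := by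
            obtain ⟨n, hn, rfl⟩ := Finset.mem_image.mp ht0.1
            have : (n:ℝ) ≤ N := by exact_mod_cast (Finset.mem_range.mp hn).le
            exact pow_le_pow_left₀ (Nat.cast_nonneg _) this 2
          have h6 : (1 + t ^ 2) ^ d ≤ B := pow_le_pow_left₀ (by positivity) (by linarith) d
          exact mul_le_mul h6 ht0.2 (abs_nonneg _) hBpos.le
        have hsub : T' ⊆ T := hT'sub.trans (Finset.filter_subset _ _)
        have r0 := hI0 r hr (B * u2) (by positivity) T' hsub hT'card hsm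
        have r1 := hI1 r hr (B * u2) (by positivity) T' hsub hT'card hsm
        have v0 : r.eval 0 = P (fun i => (ω i).1) := by
          rw [hev 0, ← ev_cube P]
          unfold ev
          simp
        have v1 : r.eval 1 = 2 ^ d * P (fun i => (ω i).2) := by
          rw [hev 1, ← ev_cube P]
          unfold ev
          norm_num
        have hLB : Λ * (B * u2) = u0 := by rw [hu2]; field_simp
        have hBu : 0 ≤ B * u2 := by positivity
        apply hc
        constructor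
        · rw [← v0]
          refine r0.trans ?_
          rw [← hLB, hΛ]
          exact mul_le_mul_of_nonneg_right (by linarith) hBu
        · have h7 : |P (fun i => (ω i).2)| ≤ |r.eval 1| := by
            rw [v1, abs_mul, abs_of_pos (by positivity : (0:ℝ) < 2 ^ d)]
            have : (1:ℝ) ≤ 2 ^ d := one_le_pow₀ (by norm_num)
            nlinarith [abs_nonneg (P (fun i => (ω i).2))]
          refine h7.trans (r1.trans ?_)
          rw [← hLB, hΛ]
          exact mul_le_mul_of_nonneg_right (by linarith) hBu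
      have h8 : ∀ t ∈ T, Ψ (ev (fc P) (Vt t) ω)
          ≤ (if |ev (fc P) (Vt t) ω| ≤ u2 then (1:ℝ) else 0) + k ^ 2 := by
        intro t _
        split_ifs with hcc
        · have := hΨ1 (ev (fc P) (Vt t) ω)
          have h2 : 0 ≤ k ^ 2 := by positivity
          linarith
        · have := hΨhigh _ (not_le.mp hcc)
          linarith
      refine (Finset.sum_le_sum h8).trans ?_
      rw [Finset.sum_add_distrib, ← Finset.sum_filter, Finset.sum_const, Finset.sum_const, hTc,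
        nsmul_eq_mul, nsmul_eq_mul]
      have : (T0.card : ℝ) ≤ 2 * d := by exact_mod_cast hcard
      rw [hT0] at this
      linarith
  -- averaging
  have havg : (N:ℝ) * Ex (fun x => Ψ (P x)) ≤ N * (p ^ 2) + 2 * d + N * k ^ 2 + N * k := by
    have h1 : (N:ℝ) * Ex (fun x => Ψ (P x)) ≤ Ex (fun ω => ∑ t ∈ T, Ψ (ev (fc P) (Vt t) ω)) + N * k := by
      rw [Ex_sum, ← e1]
      have : ∑ _t ∈ T, Ex (fun ω => Ψ (ev (fc P) V1 ω))
          ≤ ∑ t ∈ T, (Ex (fun ω => Ψ (ev (fc P) (Vt t) ω)) + k) :=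
        Finset.sum_le_sum fun t _ => err t
      rw [Finset.sum_const, hTc, nsmul_eq_mul, Finset.sum_add_distrib, Finset.sum_const, hTc,
        nsmul_eq_mul] at this
      exact this
    have h2 := Ex_mono hpt
    rw [Ex_add, Ex_add, Ex_const, Ex_const, Ex_const_mul] at h2
    have h3 : Ex (fun ω : ι → ℤˣ × ℤˣ =>
        if |P (fun i => (ω i).1)| ≤ u0 ∧ |P (fun i => (ω i).2)| ≤ u0 then (1:ℝ) else 0)
        ≤ p ^ 2 := by
      rw [Ex_pairs (fun x y => if |P x| ≤ u0 ∧ |P y| ≤ u0 then (1:ℝ) else 0)]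
      have h4 := Pr_prod_and (fun x => |P x| ≤ u0) (fun x => |P x| ≤ u0)
      rw [Pr_eq (fun ω : (ι → ℤˣ) × (ι → ℤˣ) => |P ω.1| ≤ u0 ∧ |P ω.2| ≤ u0), Ex_prod] at h4
      have h5 : 0 ≤ Pr (fun x => |P x| ≤ u0) := Pr_nonneg _
      calc _ = Pr (fun x => |P x| ≤ u0) * Pr (fun x => |P x| ≤ u0) := h4
        _ ≤ p * p := mul_le_mul hpP hpP h5 (h5.trans hpP)
        _ = p ^ 2 := by ring
    have h6 := mul_le_mul_of_nonneg_left h3 hNpos.le
    linarith
  have havg2 : Ex (fun x => Ψ (P x)) ≤ p ^ 2 + γ / 8 + k ^ 2 + k := by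
    have : (N:ℝ) * Ex (fun x => Ψ (P x)) ≤ N * (p ^ 2 + γ / 8 + k ^ 2 + k) := by
      refine havg.trans ?_
      linarith
    exact le_of_mul_le_mul_left this hNpos
  have hfin : Pr (fun x => |P x| ≤ k ^ 2 * u2) ≤ (1 + k ^ 2) * Ex (fun x => Ψ (P x)) := by
    rw [← Ex_const_mul, Pr_eq]
    refine Ex_mono fun x => ?_
    split_ifs with hc
    · exact hΨlow _ hc
    · have := hΨ0 (P x)
      positivity
  refine hfin.trans ?_
  have hk2 : k ^ 2 ≤ k := by nlinarith
  have hp0 : 0 ≤ p := (Pr_nonneg _).trans hpP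
  have hp2 : p ^ 2 ≤ 1 := by nlinarith
  calc (1 + k ^ 2) * Ex (fun x => Ψ (P x)) ≤ (1 + k ^ 2) * (p ^ 2 + γ / 8 + k ^ 2 + k) :=
        mul_le_mul_of_nonneg_left havg2 (by positivity)
    _ ≤ p ^ 2 + γ := by
        rw [hk] at *
        nlinarith [sq_nonneg p]

/-- qualitative anti-concentration for regular low degree polynomials on the cube. -/
theorem ac_all (d : ℕ) (γ : ℝ) (hγ : 0 < γ) : AC d γ := by
  -- infimum argument
  set S : Set ℝ := {p | 0 ≤ p ∧ AC d p} with hS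
  have hbase : (1 - cd d) ∈ S := ⟨by have := cd_lt d; linarith, ac_base d⟩
  have hbdd : BddBelow S := ⟨0, fun p hp => hp.1⟩
  have hne : S.Nonempty := ⟨_, hbase⟩
  set m := sInf S with hm
  have hm0 : 0 ≤ m := le_csInf hne fun p hp => hp.1
  have hm1 : m ≤ 1 - cd d := csInf_le hbdd hbase
  have hmlt : m < 1 := by have := cd_pos d; linarith
  have hup : ∀ p, m < p → AC d p := by
    intro p hp
    obtain ⟨q, hq, hqp⟩ := exists_lt_of_csInf_lt hne hp
    exact ac_mono hqp.le hq.2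
  have hkey : ∀ p, m < p → p ≤ 1 → ∀ g, 0 < g → g ≤ 1 → m ≤ p ^ 2 + g := by
    intro p hp hp1 g hg hg1
    have := ac_step d p hp1 (hup p hp) g hg hg1
    exact csInf_le hbdd ⟨by positivity, this⟩
  have hmz : m = 0 := by
    by_contra hne0
    have hmpos : 0 < m := lt_of_le_of_ne hm0 (Ne.symm hne0)
    -- choose p slightly larger than m
    set e := m * (1 - m) / 8 with he
    have hepos : 0 < e := by
      have : 0 < 1 - m := by linarith
      positivity
    have he1 : m + e ≤ 1 := by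
      have : e ≤ (1 - m) := by
        rw [he]
        have h1 : 0 < 1 - m := by linarith
        nlinarith
      linarith
    have hele : e ≤ 1 := by linarith
    have := hkey (m + e) (by linarith) he1 e hepos hele
    -- m ≤ (m+e)^2 + e
    have h8 : 8 * e = m - m ^ 2 := by rw [he]; ring
    have h2 : m * e ≤ e := by nlinarith
    have h3 : e ^ 2 ≤ e := by nlinarith
    nlinarith
  rw [hmz] at hup
  exact hup γ hγ

end Pool.Agent.H595R2.PTF
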