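import Pool.Agent.H595R2.PTF.AC

set_option autoImplicit false
set_option linter.unusedSectionVars false

namespace Pool.Agent.H595R2.PTF

open Pool.Agent.Helper497.HS

section

variable {ι : Type} [Fintype ι] [DecidableEq ι]

lemma Ex_nsq_rs_sq_le {d : ℕ} {P : (ι → ℤˣ) → ℝ} (hP : LD d P) (H : Finset ι) :
    Ex (fun z => nsq (rs H z P) ^ 2) ≤ 9 ^ d * (nsq P) ^ 2 := by
  refine le_trans ?_ (bonami_cube hP)
  rw [← Ex_piecewise H (fun x => P x ^ 4)]
  refine Ex_mono fun z => ?_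
  have := Ex_sq_le (fun y => (rs H z P y) ^ 2)
  refine this.trans (le_of_eq ?_)
  refine Ex_congr fun y => ?_
  unfold rs; ring

lemma rs_empty (z : ι → ℤˣ) (P : (ι → ℤˣ) → ℝ) : rs ∅ z P = P := by
  funext y; unfold rs; simp

lemma lap_const_mul (c : ℝ) (i : ι) (P : (ι → ℤˣ) → ℝ) :
    lap i (fun x => c * P x) = fun x => c * lap i P x := by
  funext x; unfold lap; ring

lemma infl_const_mul (c : ℝ) (i : ι) (P : (ι → ℤˣ) → ℝ) :
    infl i (fun x => c * P x) = c ^ 2 * infl i P := by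
  unfold infl
  rw [lap_const_mul, nsq_const_mul]

/-- scaled version of anti-concentration -/
lemma ac_scaled {d : ℕ} {p τ u : ℝ} (hu : 0 < u)
    (H : ∀ (ι : Type) [Fintype ι] [DecidableEq ι] (P : (ι → ℤˣ) → ℝ), LD d P → nsq P = 1 →
    (∀ i, infl i P ≤ τ) → Pr (fun x => |P x| ≤ u) ≤ p)
    (P : (ι → ℤˣ) → ℝ) (hP : LD d P) (h0 : 0 < nsq P) (hi : ∀ i, infl i P ≤ τ * nsq P)
    (s : ℝ) (hs : s ^ 2 ≤ u ^ 2 * nsq P) :
    Pr (fun x => |P x| ≤ s) ≤ p := by
  set c : ℝ := 1 / Real.sqrt (nsq P) with hc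
  have hsq : 0 < Real.sqrt (nsq P) := Real.sqrt_pos.mpr h0
  have hc2 : c ^ 2 * nsq P = 1 := by
    rw [hc, one_div_pow, Real.sq_sqrt h0.le]; field_simp
  have hcpos : 0 < c := by positivity
  have h1 := H ι (fun x => c * P x) (hP.const_mul c) (by rw [nsq_const_mul, hc2]) (by
    intro i
    rw [infl_const_mul]
    calc c ^ 2 * infl i P ≤ c ^ 2 * (τ * nsq P) :=
          mul_le_mul_of_nonneg_left (hi i) (sq_nonneg _)
      _ = τ * (c ^ 2 * nsq P) := by ring
      _ = τ := by rw [hc2, mul_one])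
  refine le_trans (Pr_mono fun x hx => ?_) h1
  rw [abs_mul, abs_of_pos hcpos]
  apply le_of_sq_le_sq _ hu.le
  calc (c * |P x|) ^ 2 = c ^ 2 * |P x| ^ 2 := by ring
    _ ≤ c ^ 2 * s ^ 2 := by
        apply mul_le_mul_of_nonneg_left _ (sq_nonneg _)
        exact pow_le_pow_left₀ (abs_nonneg _) hx 2
    _ ≤ c ^ 2 * (u ^ 2 * nsq P) := mul_le_mul_of_nonneg_left hs (sq_nonneg _)
    _ = u ^ 2 * (c ^ 2 * nsq P) := by ring
    _ = u ^ 2 := by rw [hc2, mul_one]

end

/-- the statement to be improved step by step -/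
def AT (d : ℕ) (p : ℝ) : Prop := ∃ (B : ℕ) (C : ℝ), 0 < C ∧
  ∀ (ι : Type) [Fintype ι] [DecidableEq ι] (P : (ι → ℤˣ) → ℝ), LD d P → ∀ s : ℝ, 0 < s →
    (∀ (H : Finset ι) (z : ι → ℤˣ), H.card ≤ B → C * s ^ 2 < nsq (rs H z P)) →
    Pr (fun x => |P x| ≤ s) ≤ p

lemma at_mono {d : ℕ} {p q : ℝ} (h : p ≤ q) (hp : AT d p) : AT d q := by
  obtain ⟨B, C, hC, H⟩ := hp
  exact ⟨B, C, hC, fun ι _ _ P h1 s h2 h3 => (H ι P h1 s h2 h3).trans h⟩

lemma at_base (d : ℕ) : AT d 1 :=
  ⟨0, 1, one_pos, fun _ _ _ _ _ _ _ _ => Pr_le_one _⟩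

theorem at_step (d : ℕ) (p : ℝ) (hp0 : 0 ≤ p) (h : AT d p) (γ : ℝ) (hγ : 0 < γ) :
    AT d ((1 - cd d) * p + γ) := by
  classical
  obtain ⟨B, C, hC, hAT⟩ := h
  obtain ⟨τ, hτ, u, hu, hAC⟩ := ac_all d (γ / 4) (by positivity)
  set β : ℝ := γ * τ ^ 2 / (16 * 9 ^ d * (d + 1)) with hβ
  have hβpos : 0 < β := by positivity
  obtain ⟨B0, hB0⟩ := exists_nat_ge ((d:ℝ) / β)
  refine ⟨B0 + B, C + 1 / u ^ 2, by positivity, fun ι _ _ P hP s hs hbig => ?_⟩
  set m := nsq P with hm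
  have hmbig : (C + 1 / u ^ 2) * s ^ 2 < m := by
    have := hbig ∅ (fun _ => 1) (by simp)
    rwa [rs_empty] at this
  have hmpos : 0 < m := lt_of_le_of_lt (by positivity) hmbig
  set H0 : Finset ι := Finset.univ.filter (fun i => β * m < infl i P) with hH0
  have hH0card : H0.card ≤ B0 := by
    have h1 : (H0.card : ℝ) * (β * m) ≤ d * m := by
      calc (H0.card : ℝ) * (β * m) = ∑ _i ∈ H0, β * m := by
            rw [Finset.sum_const, nsmul_eq_mul]
        _ ≤ ∑ i ∈ H0, infl i P := Finset.sum_le_sum fun i hi => (Finset.mem_filter.mp hi).2.le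
        _ ≤ ∑ i, infl i P := Finset.sum_le_sum_of_subset_of_nonneg (Finset.subset_univ _)
            fun i _ _ => infl_nonneg i P
        _ ≤ d * m := sum_infl_le hP
    have h2 : (H0.card : ℝ) * β ≤ d := by
      have : ((H0.card : ℝ) * β) * m ≤ d * m := by linarith
      exact le_of_mul_le_mul_right this hmpos
    have h3 : (H0.card : ℝ) ≤ d / β := by rwa [le_div_iff₀ hβpos]
    exact_mod_cast h3.trans hB0
  have hsmallinf : ∀ i, i ∉ H0 → infl i P ≤ β * m := by
    intro i hi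
    by_contra hcon
    push Not at hcon
    exact hi (Finset.mem_filter.mpr ⟨Finset.mem_univ _, hcon⟩)
  -- decomposition
  have hdec : Pr (fun x => |P x| ≤ s) = Ex (fun z => Pr (fun y => |rs H0 z P y| ≤ s)) := by
    rw [Pr_eq, ← Ex_piecewise H0]
    refine Ex_congr fun z => ?_
    rw [Pr_eq]
    rfl
  rw [hdec]
  have hpt : ∀ z, Pr (fun y => |rs H0 z P y| ≤ s)
      ≤ p * (if nsq (rs H0 z P) < m / 2 then (1:ℝ) else 0)
        + (if ∃ i ∈ H0ᶜ, (τ * m / 2) ^ 2 ≤ infl i (rs H0 z P) ^ 2 then (1:ℝ) else 0) + γ / 4 := by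
    intro z
    by_cases h1 : nsq (rs H0 z P) < m / 2
    · have := hAT ι (rs H0 z P) (hP.rs H0 z) s hs (by
        intro H w hH
        rw [rs_rs]
        refine lt_of_le_of_lt ?_ (hbig _ _ ?_)
        · have : 0 ≤ 1 / u ^ 2 * s ^ 2 := by positivity
          nlinarith
        · calc (H0 ∪ H).card ≤ H0.card + H.card := Finset.card_union_le _ _
            _ ≤ B0 + B := Nat.add_le_add hH0card hH)
      simp only [h1, if_true, mul_one]
      have h2 : (0:ℝ) ≤ (if ∃ i ∈ H0ᶜ, (τ * m / 2) ^ 2 ≤ infl i (rs H0 z P) ^ 2 then (1:ℝ) else 0) := by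
        split_ifs <;> norm_num
      linarith
    · simp only [h1, if_false, mul_zero, zero_add]
      by_cases h2 : ∃ i ∈ H0ᶜ, (τ * m / 2) ^ 2 ≤ infl i (rs H0 z P) ^ 2
      · simp only [h2, if_true]
        have := Pr_le_one (fun y => |rs H0 z P y| ≤ s)
        linarith
      · simp only [h2, if_false, zero_add]
        push Not at h1 h2
        have hn0 : 0 < nsq (rs H0 z P) := by linarith
        refine ac_scaled hu hAC (rs H0 z P) (hP.rs H0 z) hn0 ?_ s ?_
        · intro i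
          by_cases hi : i ∈ H0
          · rw [infl_rs_of_mem hi]; positivity
          · have h3 := h2 i (by simpa using hi)
            have h4 : infl i (rs H0 z P) ≤ τ * m / 2 := by
              apply le_of_sq_le_sq h3.le (by positivity)
            nlinarith
        · have h3 := hbig H0 z (by omega)
          have h4 : (1 / u ^ 2) * s ^ 2 ≤ nsq (rs H0 z P) := by
            have : 0 ≤ C * s ^ 2 := by positivity
            nlinarith
          have hu2 : 0 < u ^ 2 := by positivity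
          have h5 := mul_le_mul_of_nonneg_left h4 hu2.le
          have h6 : u ^ 2 * ((1 / u ^ 2) * s ^ 2) = s ^ 2 := by field_simp
          linarith
  refine (Ex_mono hpt).trans ?_
  rw [Ex_add, Ex_add, Ex_const, Ex_const_mul]
  have hA : Ex (fun z => if nsq (rs H0 z P) < m / 2 then (1:ℝ) else 0) ≤ 1 - cd d := by
    rw [← Pr_eq (fun z => nsq (rs H0 z P) < m / 2)]
    exact small_ball_rs hP hmpos H0
  have hB : Ex (fun z => if ∃ i ∈ H0ᶜ, (τ * m / 2) ^ 2 ≤ infl i (rs H0 z P) ^ 2 then (1:ℝ) else 0)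
      ≤ γ / 4 := by
    rw [← Pr_eq (fun z => ∃ i ∈ H0ᶜ, (τ * m / 2) ^ 2 ≤ infl i (rs H0 z P) ^ 2)]
    refine (Pr_union H0ᶜ (fun i z => (τ * m / 2) ^ 2 ≤ infl i (rs H0 z P) ^ 2)).trans ?_
    have h1 : ∀ i ∈ H0ᶜ, Pr (fun z => (τ * m / 2) ^ 2 ≤ infl i (rs H0 z P) ^ 2)
        ≤ (4 * 9 ^ d * β / (τ ^ 2 * m)) * infl i P := by
      intro i hi
      have hi' : i ∉ H0 := by simpa using hi
      refine (markov (fun z => infl i (rs H0 z P) ^ 2) (fun _ => sq_nonneg _) _
        (by positivity)).trans ?_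
      have h2 : Ex (fun z => infl i (rs H0 z P) ^ 2) ≤ 9 ^ d * (infl i P) ^ 2 := by
        have : (fun z => infl i (rs H0 z P) ^ 2) = fun z => nsq (rs H0 z (lap i P)) ^ 2 := by
          funext z
          unfold infl
          rw [lap_rs_of_notMem hi']
        rw [this]
        exact Ex_nsq_rs_sq_le (hP.lap i) H0
      rw [div_le_iff₀ (by positivity)]
      refine h2.trans ?_
      have h3 := hsmallinf i hi'
      have h4 := infl_nonneg i P
      have e : 4 * 9 ^ d * β / (τ ^ 2 * m) * infl i P * (τ * m / 2) ^ 2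
          = 9 ^ d * ((β * m) * infl i P) := by field_simp; ring
      rw [e]
      apply mul_le_mul_of_nonneg_left _ (by positivity)
      nlinarith
    refine (Finset.sum_le_sum h1).trans ?_
    rw [← Finset.mul_sum]
    have h5 : ∑ i ∈ H0ᶜ, infl i P ≤ d * m :=
      (Finset.sum_le_sum_of_subset_of_nonneg (Finset.subset_univ _)
            fun i _ _ => infl_nonneg i P).trans (sum_infl_le hP)
    calc (4 * 9 ^ d * β / (τ ^ 2 * m)) * ∑ i ∈ H0ᶜ, infl i P
        ≤ (4 * 9 ^ d * β / (τ ^ 2 * m)) * (d * m) :=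
          mul_le_mul_of_nonneg_left h5 (by positivity)
      _ = (4 * 9 ^ d * β / τ ^ 2) * d := by field_simp
      _ ≤ (4 * 9 ^ d * β / τ ^ 2) * (d + 1) :=
          mul_le_mul_of_nonneg_left (by linarith) (by positivity)
      _ = γ / 4 := by rw [hβ]; field_simp; ring
  have := mul_le_mul_of_nonneg_left hA hp0
  nlinarith

theorem at_all (d : ℕ) (γ : ℝ) (hγ : 0 < γ) : AT d γ := by
  set S : Set ℝ := {p | 0 ≤ p ∧ AT d p} with hS
  have hbase : (1:ℝ) ∈ S := ⟨zero_le_one, at_base d⟩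
  have hbdd : BddBelow S := ⟨0, fun p hp => hp.1⟩
  have hne : S.Nonempty := ⟨_, hbase⟩
  set m := sInf S with hm
  have hm0 : 0 ≤ m := le_csInf hne fun p hp => hp.1
  have hup : ∀ p, m < p → AT d p := by
    intro p hp
    obtain ⟨q, hq, hqp⟩ := exists_lt_of_csInf_lt hne hp
    exact at_mono hqp.le hq.2
  have hc0 := cd_pos d
  have hc1 := cd_lt d
  have hkey : ∀ g, 0 < g → m ≤ (1 - cd d) * (m + g) + g := by
    intro g hg
    have := at_step d (m + g) (by linarith) (hup _ (by linarith)) g hg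
    refine csInf_le hbdd ⟨?_, this⟩
    have : 0 ≤ (1 - cd d) * (m + g) := mul_nonneg (by linarith) (by linarith)
    linarith
  have hmz : m = 0 := by
    by_contra hne0
    have hmpos : 0 < m := lt_of_le_of_ne hm0 (Ne.symm hne0)
    have := hkey (cd d * m / 4) (by positivity)
    nlinarith [mul_pos hc0 hmpos]
  rw [hmz] at hup
  exact hup γ hγ

/-- Atom lemma: if a low degree polynomial is small with probability at least `δ` then some
restriction of a bounded number of coordinates is small in two norm. -/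
theorem atom (d : ℕ) (δ : ℝ) (hδ : 0 < δ) : ∃ (B : ℕ) (C : ℝ), 0 < C ∧
    ∀ (ι : Type) [Fintype ι] [DecidableEq ι] (P : (ι → ℤˣ) → ℝ), LD d P → ∀ s : ℝ, 0 < s →
      δ ≤ Pr (fun x => |P x| ≤ s) →
      ∃ (H : Finset ι) (z : ι → ℤˣ), H.card ≤ B ∧ nsq (rs H z P) ≤ C * s ^ 2 := by
  obtain ⟨B, C, hC, H⟩ := at_all d (δ / 2) (by positivity)
  refine ⟨B, C, hC, fun ι _ _ P hP s hs h => ?_⟩
  by_contra hcon
  push Not at hcon
  have := H ι P hP s hs (fun K z hK => hcon K z hK)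
  linarith

end Pool.Agent.H595R2.PTF
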