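import Pool.Agent.Helper497.HS.Transfer

set_option autoImplicit false
set_option linter.unusedSectionVars false

namespace Pool.Agent.H595R2.PTF

open Pool.Agent.Helper497.HS

section prob

variable {Ω Ω' : Type} [Fintype Ω] [Fintype Ω']

open scoped Classical in
/-- probability of an event under the uniform distribution. -/
noncomputable def Pr (A : Ω → Prop) : ℝ := Ex (fun ω => if A ω then (1:ℝ) else 0)

lemma Pr_eq (A : Ω → Prop) [DecidablePred A] :
    Pr A = Ex (fun ω => if A ω then (1:ℝ) else 0) := by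
  unfold Pr
  refine Ex_congr fun ω => ?_
  by_cases h : A ω <;> simp [h]

lemma Pr_nonneg (A : Ω → Prop) : 0 ≤ Pr A :=
  Ex_nonneg fun ω => by split_ifs <;> norm_num

lemma Pr_le_one [Nonempty Ω] (A : Ω → Prop) : Pr A ≤ 1 := by
  classical
  rw [← Ex_const (Ω := Ω) (1:ℝ)]
  exact Ex_mono fun ω => by split_ifs <;> norm_num

lemma Pr_mono {A B : Ω → Prop} (h : ∀ ω, A ω → B ω) : Pr A ≤ Pr B := by
  classical
  refine Ex_mono fun ω => ?_
  by_cases hA : A ω
  · simp [hA, h ω hA]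
  · simp only [hA, if_false]
    split_ifs <;> norm_num

lemma Pr_or_le (A B : Ω → Prop) : Pr (fun ω => A ω ∨ B ω) ≤ Pr A + Pr B := by
  classical
  unfold Pr
  rw [← Ex_add]
  refine Ex_mono fun ω => ?_
  by_cases hA : A ω <;> by_cases hB : B ω <;> simp [hA, hB]

lemma Pr_not [Nonempty Ω] (A : Ω → Prop) : Pr (fun ω => ¬ A ω) = 1 - Pr A := by
  classical
  unfold Pr
  rw [eq_sub_iff_add_eq, ← Ex_add]
  refine Eq.trans (Ex_congr fun ω => ?_) (Ex_const (Ω := Ω) (1:ℝ))
  by_cases hA : A ω <;> simp [hA]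

/-- Markov. -/
lemma markov (g : Ω → ℝ) (hg : ∀ ω, 0 ≤ g ω) (a : ℝ) (ha : 0 < a) :
    Pr (fun ω => a ≤ g ω) ≤ Ex g / a := by
  classical
  rw [le_div_iff₀ ha, Pr, ← Ex_mul_const]
  refine Ex_mono fun ω => ?_
  split_ifs with h
  · linarith
  · simpa using hg ω

lemma Pr_union {κ : Type} (s : Finset κ) (A : κ → Ω → Prop) :
    Pr (fun ω => ∃ k ∈ s, A k ω) ≤ ∑ k ∈ s, Pr (A k) := by
  classical
  unfold Pr
  rw [← Ex_sum]
  refine Ex_mono fun ω => ?_
  split_ifs with h
  · obtain ⟨k, hk, hA⟩ := h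
    calc (1:ℝ) = (if A k ω then (1:ℝ) else 0) := by simp [hA]
      _ ≤ _ := Finset.single_le_sum (f := fun k => if A k ω then (1:ℝ) else 0)
        (fun j _ => by split_ifs <;> norm_num) hk
  · exact Finset.sum_nonneg fun j _ => by split_ifs <;> norm_num

lemma Pr_prod_and (A : Ω → Prop) (B : Ω' → Prop) :
    Pr (fun ω : Ω × Ω' => A ω.1 ∧ B ω.2) = Pr A * Pr B := by
  classical
  unfold Pr
  rw [Ex_prod, ← Ex_mul_const]
  refine Ex_congr fun a => ?_
  rw [← Ex_const_mul]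
  refine Ex_congr fun b => ?_
  by_cases hA : A a <;> by_cases hB : B b <;> simp [hA, hB]

/-- Cauchy-Schwarz in square root free form. -/
lemma cs_le (g h : Ω → ℝ) {a b c : ℝ} (ha : Ex (fun ω => g ω ^ 2) ≤ a)
    (hb : Ex (fun ω => h ω ^ 2) ≤ b) (hab : a * b ≤ c ^ 2) (hc : 0 ≤ c) :
    |Ex (fun ω => g ω * h ω)| ≤ c := by
  apply abs_le_of_sq_le_sq _ hc
  refine (Ex_mul_sq_le g h).trans (le_trans ?_ hab)
  have h1 : 0 ≤ Ex (fun ω => h ω ^ 2) := Ex_nonneg fun _ => sq_nonneg _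
  have h2 : 0 ≤ a := le_trans (Ex_nonneg fun _ => sq_nonneg _) ha
  calc _ ≤ a * Ex (fun ω => h ω ^ 2) := mul_le_mul_of_nonneg_right ha h1
    _ ≤ a * b := mul_le_mul_of_nonneg_left hb h2

end prob

section resample

variable {ι : Type} [Fintype ι] [DecidableEq ι] {Ω : Type} [Fintype Ω] [Nonempty Ω]

/-- the swap involution -/
def swapE (H : Finset ι) : ((ι → Ω) × (ι → Ω)) ≃ ((ι → Ω) × (ι → Ω)) where
  toFun p := (H.piecewise p.1 p.2, H.piecewise p.2 p.1)
  invFun p := (H.piecewise p.1 p.2, H.piecewise p.2 p.1)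
  left_inv p := by
    refine Prod.ext ?_ ?_ <;> funext i <;> by_cases h : i ∈ H <;> simp [h]
  right_inv p := by
    refine Prod.ext ?_ ?_ <;> funext i <;> by_cases h : i ∈ H <;> simp [h]

lemma Ex_piecewise (H : Finset ι) (G : (ι → Ω) → ℝ) :
    Ex (fun z => Ex (fun y => G (H.piecewise z y))) = Ex G := by
  rw [← Ex_prod (fun p : (ι → Ω) × (ι → Ω) => G (H.piecewise p.1 p.2))]
  refine (Ex_equiv (swapE H) (fun p : (ι → Ω) × (ι → Ω) => G p.1)).trans ?_
  rw [Ex_prod]
  simp only [Ex_const]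

/-- the update involution -/
def updE (i : ι) : ((ι → Ω) × Ω) ≃ ((ι → Ω) × Ω) where
  toFun p := (Function.update p.1 i p.2, p.1 i)
  invFun p := (Function.update p.1 i p.2, p.1 i)
  left_inv p := by simp
  right_inv p := by simp

lemma Ex_update (i : ι) (G : (ι → Ω) → ℝ) :
    Ex (fun z => Ex (fun t => G (Function.update z i t))) = Ex G := by
  rw [← Ex_prod (fun p : (ι → Ω) × Ω => G (Function.update p.1 i p.2))]
  refine (Ex_equiv (updE i) (fun p : (ι → Ω) × Ω => G p.1)).trans ?_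
  rw [Ex_prod]
  simp only [Ex_const]

lemma Ex_indep (i : ι) (φ : Ω → ℝ) (U : (ι → Ω) → ℝ)
    (hU : ∀ ω t, U (Function.update ω i t) = U ω) :
    Ex (fun ω => φ (ω i) * U ω) = Ex φ * Ex U := by
  rw [← Ex_update i]
  simp only [Function.update_self, hU, Ex_mul_const, Ex_const_mul]

end resample

section LD

variable {ι : Type} [Fintype ι] [DecidableEq ι]

/-- functions of degree at most `d` on the cube -/
def LD (d : ℕ) (P : (ι → ℤˣ) → ℝ) : Prop := ∀ S : Finset ι, d < S.card → fc P S = 0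

/-- squared two norm -/
noncomputable def nsq (P : (ι → ℤˣ) → ℝ) : ℝ := Ex (fun x => P x ^ 2)

lemma nsq_nonneg (P : (ι → ℤˣ) → ℝ) : 0 ≤ nsq P := Ex_nonneg fun _ => sq_nonneg _

lemma nsq_eq (P : (ι → ℤˣ) → ℝ) : nsq P = ∑ S, fc P S ^ 2 := parseval P

lemma Ex_chi_eq (S : Finset ι) : Ex (fun x : ι → ℤˣ => chi S x) = if S = ∅ then 1 else 0 := by
  split_ifs with h
  · subst h; simp [chi, Ex_const]
  · obtain ⟨i, hi⟩ := Finset.nonempty_iff_ne_empty.mpr h
    have h1 := Ex_equiv (flipE_hs i) (fun x => chi S x)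
    have h2 : (fun x : ι → ℤˣ => chi S (flipE_hs i x)) = fun x => - chi S x := by
      funext x
      have := chi_flip_hs S i x
      simp only [hi, if_true] at this
      exact this
    rw [h2, Ex_neg] at h1
    linarith

lemma chi_sq (S : Finset ι) (x : ι → ℤˣ) : chi S x * chi S x = 1 := by
  rw [chi_hs]; simp

lemma chi_mul_chi (S T : Finset ι) (x : ι → ℤˣ) :
    chi S x * chi T x = chi (symmDiff S T) x := by
  have hS : chi S x = chi (S \ T) x * chi (S ∩ T) x := by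
    unfold chi
    rw [← Finset.prod_union (Finset.disjoint_sdiff_inter S T), Finset.sdiff_union_inter]
  have hT : chi T x = chi (T \ S) x * chi (S ∩ T) x := by
    unfold chi
    rw [Finset.inter_comm, ← Finset.prod_union (Finset.disjoint_sdiff_inter T S),
      Finset.sdiff_union_inter]
  have hd : chi (symmDiff S T) x = chi (S \ T) x * chi (T \ S) x := by
    unfold chi
    rw [← Finset.prod_union (disjoint_sdiff_sdiff)]
    rfl
  rw [hS, hT, hd]
  have := chi_sq (S ∩ T) x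
  linear_combination (chi (S \ T) x * chi (T \ S) x) * this

lemma fc_chi (T S : Finset ι) : fc (fun x => chi T x) S = if S = T then 1 else 0 := by
  unfold fc
  simp only [chi_mul_chi]
  rw [Ex_chi_eq]
  congr 1
  rw [eq_iff_iff]
  constructor
  · intro h
    have : T = S := by simpa [Finset.bot_eq_empty] using (symmDiff_eq_bot.mp h)
    exact this.symm
  · rintro rfl
    exact symmDiff_self S

lemma fc_sum {κ : Type} (s : Finset κ) (g : κ → (ι → ℤˣ) → ℝ) (S : Finset ι) :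
    fc (fun x => ∑ k ∈ s, g k x) S = ∑ k ∈ s, fc (g k) S := by
  unfold fc
  rw [← Ex_sum]
  exact Ex_congr fun x => by rw [Finset.sum_mul]

lemma fc_add (f g : (ι → ℤˣ) → ℝ) (S : Finset ι) :
    fc (fun x => f x + g x) S = fc f S + fc g S := by
  unfold fc
  rw [← Ex_add]
  exact Ex_congr fun x => by ring

lemma fc_sub (f g : (ι → ℤˣ) → ℝ) (S : Finset ι) :
    fc (fun x => f x - g x) S = fc f S - fc g S := by
  unfold fc
  rw [← Ex_sub]
  exact Ex_congr fun x => by ring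

lemma fc_const_mul (c : ℝ) (g : (ι → ℤˣ) → ℝ) (S : Finset ι) :
    fc (fun x => c * g x) S = c * fc g S := by
  unfold fc
  rw [← Ex_const_mul]
  exact Ex_congr fun x => by ring

lemma fc_sum_chi (p : Finset ι → ℝ) (S : Finset ι) :
    fc (fun x => ∑ T, p T * chi T x) S = p S := by
  rw [fc_sum]
  simp only [fc_const_mul, fc_chi]
  simp

lemma Ex_mul_eq (f g : (ι → ℤˣ) → ℝ) : Ex (fun x => f x * g x) = ∑ S, fc f S * fc g S := by
  have h : (fun x => f x * g x) = fun x => ∑ S, fc g S * (f x * chi S x) := by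
    funext x
    conv_lhs => rw [fourier_expand g x]
    rw [Finset.mul_sum]
    exact Finset.sum_congr rfl fun S _ => by ring
  rw [h, Ex_sum]
  refine Finset.sum_congr rfl fun S _ => ?_
  rw [Ex_const_mul, mul_comm]
  rfl

lemma LD.mono {d e : ℕ} (h : d ≤ e) {P : (ι → ℤˣ) → ℝ} (hP : LD d P) : LD e P :=
  fun S hS => hP S (lt_of_le_of_lt h hS)

lemma LD.add {d : ℕ} {P Q : (ι → ℤˣ) → ℝ} (hP : LD d P) (hQ : LD d Q) :
    LD d (fun x => P x + Q x) := by
  intro S hS
  rw [fc_add, hP S hS, hQ S hS, add_zero]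

lemma LD.sub {d : ℕ} {P Q : (ι → ℤˣ) → ℝ} (hP : LD d P) (hQ : LD d Q) :
    LD d (fun x => P x - Q x) := by
  intro S hS
  rw [fc_sub, hP S hS, hQ S hS, sub_zero]

lemma LD.const_mul {d : ℕ} (c : ℝ) {P : (ι → ℤˣ) → ℝ} (hP : LD d P) :
    LD d (fun x => c * P x) := by
  intro S hS
  rw [fc_const_mul, hP S hS, mul_zero]

lemma LD.sum {d : ℕ} {κ : Type} (s : Finset κ) {P : κ → (ι → ℤˣ) → ℝ}
    (hP : ∀ k ∈ s, LD d (P k)) : LD d (fun x => ∑ k ∈ s, P k x) := by
  intro S hS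
  rw [fc_sum]
  exact Finset.sum_eq_zero fun k hk => hP k hk S hS

lemma LD_chi (S : Finset ι) : LD S.card (fun x => chi S x) := by
  intro T hT
  rw [fc_chi, if_neg]
  rintro rfl
  exact lt_irrefl _ hT

lemma LD_sum_chi {d : ℕ} (p : Finset ι → ℝ) (hp : ∀ S, d < S.card → p S = 0) :
    LD d (fun x => ∑ T, p T * chi T x) := by
  intro S hS
  rw [fc_sum_chi, hp S hS]

lemma nsq_const_mul (c : ℝ) (P : (ι → ℤˣ) → ℝ) : nsq (fun x => c * P x) = c ^ 2 * nsq P := by
  unfold nsq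
  rw [← Ex_const_mul]
  exact Ex_congr fun x => by ring

/-- restriction of the coordinates in `H` to those of `z` -/
def rs (H : Finset ι) (z : ι → ℤˣ) (P : (ι → ℤˣ) → ℝ) : (ι → ℤˣ) → ℝ :=
  fun y => P (H.piecewise z y)

lemma rs_chi (H : Finset ι) (z : ι → ℤˣ) (S : Finset ι) (y : ι → ℤˣ) :
    chi S (H.piecewise z y) = chi (S ∩ H) z * chi (S \ H) y := by
  have h : S = (S \ H) ∪ (S ∩ H) := (Finset.sdiff_union_inter S H).symm
  unfold chi
  conv_lhs => rw [h]
  rw [Finset.prod_union (Finset.disjoint_sdiff_inter S H), mul_comm]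
  congr 1
  · refine Finset.prod_congr rfl fun i hi => ?_
    rw [Finset.piecewise_eq_of_mem _ _ _ (Finset.mem_inter.mp hi).2]
  · refine Finset.prod_congr rfl fun i hi => ?_
    rw [Finset.piecewise_eq_of_notMem _ _ _ (Finset.mem_sdiff.mp hi).2]

lemma rs_expand (H : Finset ι) (z : ι → ℤˣ) (P : (ι → ℤˣ) → ℝ) (y : ι → ℤˣ) :
    rs H z P y = ∑ S, fc P S * chi (S ∩ H) z * chi (S \ H) y := by
  unfold rs
  rw [fourier_expand P]
  refine Finset.sum_congr rfl fun S _ => ?_
  rw [rs_chi]; ring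

lemma fc_rs (H : Finset ι) (z : ι → ℤˣ) (P : (ι → ℤˣ) → ℝ) (R : Finset ι) :
    fc (rs H z P) R = ∑ S, if S \ H = R then fc P S * chi (S ∩ H) z else 0 := by
  have h : rs H z P = fun y => ∑ S, (fc P S * chi (S ∩ H) z) * chi (S \ H) y := by
    funext y
    rw [rs_expand]
  rw [h, fc_sum]
  refine Finset.sum_congr rfl fun S _ => ?_
  rw [fc_const_mul, fc_chi]
  by_cases hR : S \ H = R
  · simp [hR]
  · rw [if_neg (fun h => hR h.symm), if_neg hR, mul_zero]

lemma LD.rs {d : ℕ} {P : (ι → ℤˣ) → ℝ} (hP : LD d P) (H : Finset ι) (z : ι → ℤˣ) :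
    LD d (rs H z P) := by
  intro R hR
  rw [fc_rs]
  refine Finset.sum_eq_zero fun S _ => ?_
  split_ifs with h
  · rw [hP S, zero_mul]
    refine lt_of_lt_of_le hR ?_
    rw [← h]
    exact Finset.card_le_card Finset.sdiff_subset
  · rfl

lemma Ex_nsq_rs (H : Finset ι) (P : (ι → ℤˣ) → ℝ) :
    Ex (fun z => nsq (rs H z P)) = nsq P :=
  Ex_piecewise H (fun x => P x ^ 2)

/-- probability to agree with a given point on `H`. -/
lemma Pr_agree (H : Finset ι) (z : ι → ℤˣ) :
    Pr (fun x : ι → ℤˣ => ∀ i ∈ H, x i = z i) = (1 / 2 : ℝ) ^ H.card := by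
  classical
  have h1 : ∀ x : ι → ℤˣ, (if ∀ i ∈ H, x i = z i then (1:ℝ) else 0)
      = (1 / 2 : ℝ) ^ H.card * ∑ T ∈ H.powerset, chi T z * chi T x := by
    intro x
    have h2 : ∑ T ∈ H.powerset, chi T z * chi T x = ∏ i ∈ H, (1 + sv (z i) * sv (x i)) := by
      rw [Finset.prod_one_add]
      exact Finset.sum_congr rfl fun S _ => chi_hs S z x
    rw [h2]
    rw [← Finset.prod_const, ← Finset.prod_mul_distrib]
    split_ifs with h
    · symm
      apply Finset.prod_eq_one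
      intro i hi
      rw [h i hi, sv_mul_self]
      norm_num
    · push Not at h
      obtain ⟨i, hi, hne⟩ := h
      symm
      apply Finset.prod_eq_zero hi
      have : sv (z i) * sv (x i) = -1 := by
        rcases Int.units_eq_one_or (x i) with h1 | h1 <;>
          rcases Int.units_eq_one_or (z i) with h2 | h2
        · exact absurd (h1.trans h2.symm) hne
        · rw [h1, h2]; simp
        · rw [h1, h2]; simp
        · exact absurd (h1.trans h2.symm) hne
      rw [this]; norm_num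
  unfold Pr
  have h3 : Ex (fun x : ι → ℤˣ => if ∀ i ∈ H, x i = z i then (1:ℝ) else 0)
      = (1 / 2 : ℝ) ^ H.card * ∑ T ∈ H.powerset, chi T z * (if T = ∅ then 1 else 0) := by
    simp only [h1]
    rw [Ex_const_mul, Ex_sum]
    congr 1
    refine Finset.sum_congr rfl fun T _ => ?_
    rw [Ex_const_mul, Ex_chi_eq]
  rw [Finset.sum_eq_single (∅ : Finset ι)] at h3
  · rw [show (1/2:ℝ)^H.card = (1 / 2 : ℝ) ^ H.card * (chi ∅ z * if (∅ : Finset ι) = ∅ then 1 else 0) by
      simp [chi], ← h3]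
    refine Ex_congr fun x => ?_
    congr
  · intro T _ hT; simp [hT]
  · intro h; simp at h

lemma Ex_rs_le (H : Finset ι) (z : ι → ℤˣ) (G : (ι → ℤˣ) → ℝ) (hG : ∀ x, 0 ≤ G x) :
    Ex (fun y => G (H.piecewise z y)) ≤ 2 ^ H.card * Ex G := by
  classical
  have h1 : Pr (fun x : ι → ℤˣ => ∀ i ∈ H, x i = z i) * Ex (fun y => G (H.piecewise z y)) ≤ Ex G := by
    rw [← Ex_piecewise H G, Pr, ← Ex_mul_const]
    refine Ex_mono fun x => ?_
    split_ifs with h
    · rw [one_mul]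
      refine le_of_eq (Ex_congr fun y => ?_)
      congr 1
      funext i
      by_cases hi : i ∈ H
      · simp [hi, h i hi]
      · simp [hi]
    · rw [zero_mul]
      exact Ex_nonneg fun y => hG _
  rw [Pr_agree] at h1
  have h2 : (2:ℝ) ^ H.card * ((1 / 2) ^ H.card * Ex (fun y => G (H.piecewise z y)))
      ≤ 2 ^ H.card * Ex G := mul_le_mul_of_nonneg_left h1 (by positivity)
  rw [← mul_assoc, ← mul_pow] at h2
  norm_num at h2
  exact h2

lemma nsq_rs_le (H : Finset ι) (z : ι → ℤˣ) (P : (ι → ℤˣ) → ℝ) :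
    nsq (rs H z P) ≤ 2 ^ H.card * nsq P :=
  Ex_rs_le H z (fun x => P x ^ 2) fun _ => sq_nonneg _

lemma rs_rs (H K : Finset ι) (z w : ι → ℤˣ) (P : (ι → ℤˣ) → ℝ) :
    rs K w (rs H z P) = rs (H ∪ K) (H.piecewise z w) P := by
  funext y
  unfold rs
  congr 1
  funext i
  by_cases hH : i ∈ H <;> by_cases hK : i ∈ K <;> simp [hH, hK]

/-- the part of `P` depending on coordinate `i` -/
noncomputable def lap (i : ι) (P : (ι → ℤˣ) → ℝ) : (ι → ℤˣ) → ℝ :=
  fun x => (1 / 2 : ℝ) * (P x - P (Function.update x i (-(x i))))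

lemma fc_lap (i : ι) (P : (ι → ℤˣ) → ℝ) (S : Finset ι) :
    fc (lap i P) S = if i ∈ S then fc P S else 0 := by
  unfold lap
  rw [fc_const_mul, fc_diff_hs]
  split_ifs <;> ring

lemma LD.lap {d : ℕ} {P : (ι → ℤˣ) → ℝ} (hP : LD d P) (i : ι) : LD d (lap i P) := by
  intro S hS
  rw [fc_lap, hP S hS]; simp

/-- influence -/
noncomputable def infl (i : ι) (P : (ι → ℤˣ) → ℝ) : ℝ := nsq (lap i P)

lemma infl_nonneg (i : ι) (P : (ι → ℤˣ) → ℝ) : 0 ≤ infl i P := nsq_nonneg _

lemma infl_eq (i : ι) (P : (ι → ℤˣ) → ℝ) :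
    infl i P = ∑ S, if i ∈ S then fc P S ^ 2 else 0 := by
  unfold infl
  rw [nsq_eq]
  refine Finset.sum_congr rfl fun S _ => ?_
  rw [fc_lap]
  split_ifs <;> ring

lemma sum_infl_le {d : ℕ} {P : (ι → ℤˣ) → ℝ} (hP : LD d P) :
    ∑ i, infl i P ≤ d * nsq P := by
  simp only [infl_eq]
  rw [Finset.sum_comm, nsq_eq, Finset.mul_sum]
  refine Finset.sum_le_sum fun S _ => ?_
  have h1 : ∑ i : ι, (if i ∈ S then fc P S ^ 2 else 0) = S.card * fc P S ^ 2 := by
    rw [← Finset.sum_filter]; simp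
  rw [h1]
  rcases le_or_gt S.card d with h | h
  · have : (S.card : ℝ) ≤ d := by exact_mod_cast h
    exact mul_le_mul_of_nonneg_right this (sq_nonneg _)
  · rw [hP S h]; simp

lemma lap_rs_of_mem {i : ι} {H : Finset ι} (hi : i ∈ H) (z : ι → ℤˣ) (P : (ι → ℤˣ) → ℝ) :
    lap i (rs H z P) = fun _ => 0 := by
  funext y
  unfold lap rs
  have : H.piecewise z (Function.update y i (-(y i))) = H.piecewise z y := by
    funext j
    by_cases hj : j ∈ H
    · simp [hj]
    · have : j ≠ i := fun h => hj (h ▸ hi)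
      simp [hj, this]
  rw [this]; ring

lemma lap_rs_of_notMem {i : ι} {H : Finset ι} (hi : i ∉ H) (z : ι → ℤˣ) (P : (ι → ℤˣ) → ℝ) :
    lap i (rs H z P) = rs H z (lap i P) := by
  funext y
  unfold lap rs
  have h1 : H.piecewise z (Function.update y i (-(y i)))
      = Function.update (H.piecewise z y) i (-((H.piecewise z y) i)) := by
    funext j
    by_cases hji : j = i
    · subst hji; simp [hi]
    · by_cases hj : j ∈ H
      · simp [hj, hji]
      · simp [hj, hji]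
  rw [h1]

lemma infl_rs_of_mem {i : ι} {H : Finset ι} (hi : i ∈ H) (z : ι → ℤˣ) (P : (ι → ℤˣ) → ℝ) :
    infl i (rs H z P) = 0 := by
  unfold infl
  rw [lap_rs_of_mem hi]
  simp [nsq, Ex_const]

end LD

end Pool.Agent.H595R2.PTF
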