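import Pool.Agent.H595R2.PTF.Basic

set_option autoImplicit false
set_option linter.unusedSectionVars false

namespace Pool.Agent.H595R2.PTF

open Pool.Agent.Helper497.HS

section ev

variable {ι : Type} [Fintype ι] [DecidableEq ι] {Ω : Type} [Fintype Ω] [Nonempty Ω]

/-- multilinear extension -/
noncomputable def ml (p : Finset ι → ℝ) (X : ι → ℝ) : ℝ := ∑ S, p S * ∏ i ∈ S, X i

/-- the multilinear polynomial evaluated at independent variables -/
noncomputable def ev (p : Finset ι → ℝ) (V : ι → Ω → ℝ) (ω : ι → Ω) : ℝ :=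
  ml p (fun i => V i (ω i))

/-- the part without `a` -/
def pz (a : ι) (p : Finset ι → ℝ) : Finset ι → ℝ := fun S => if a ∈ S then 0 else p S

/-- the derivative in direction `a` -/
def pd (a : ι) (p : Finset ι → ℝ) : Finset ι → ℝ := fun S => if a ∈ S then 0 else p (insert a S)

lemma sum_split (a : ι) (f : Finset ι → ℝ) :
    ∑ S, f S = ∑ S, (if a ∈ S then 0 else f S) + ∑ S, (if a ∈ S then 0 else f (insert a S)) := by
  have h1 : ∑ S, f S = ∑ S, (if a ∈ S then 0 else f S) + ∑ S, (if a ∈ S then f S else 0) := by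
    rw [← Finset.sum_add_distrib]
    refine Finset.sum_congr rfl fun S _ => ?_
    split_ifs <;> simp
  rw [h1]
  congr 1
  rw [← Finset.sum_filter]
  have h2 : ∑ S : Finset ι, (if a ∈ S then 0 else f (insert a S))
      = ∑ S ∈ Finset.univ.filter (fun S : Finset ι => a ∉ S), f (insert a S) := by
    rw [Finset.sum_filter]
    refine Finset.sum_congr rfl fun S _ => ?_
    by_cases h : a ∈ S <;> simp [h]
  rw [h2]
  refine Finset.sum_nbij' (fun S => S.erase a) (fun S => insert a S) ?_ ?_ ?_ ?_ ?_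
  · intro S _; simp
  · intro S _; simp
  · intro S hS
    exact Finset.insert_erase (Finset.mem_filter.mp hS).2
  · intro S hS
    exact Finset.erase_insert (Finset.mem_filter.mp hS).2
  · intro S hS
    rw [Finset.insert_erase (Finset.mem_filter.mp hS).2]

lemma ml_split (a : ι) (p : Finset ι → ℝ) (X : ι → ℝ) :
    ml p X = ml (pz a p) X + X a * ml (pd a p) X := by
  unfold ml
  rw [sum_split a, Finset.mul_sum]
  congr 1
  · refine Finset.sum_congr rfl fun S _ => ?_
    unfold pz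
    split_ifs <;> simp
  · refine Finset.sum_congr rfl fun S _ => ?_
    unfold pd
    split_ifs with h
    · simp
    · rw [Finset.prod_insert h]; ring

lemma ml_congr_off (a : ι) (p : Finset ι → ℝ) (hp : ∀ S, a ∈ S → p S = 0) (X Y : ι → ℝ)
    (h : ∀ i, i ≠ a → X i = Y i) : ml p X = ml p Y := by
  unfold ml
  refine Finset.sum_congr rfl fun S _ => ?_
  by_cases ha : a ∈ S
  · rw [hp S ha]; simp
  · congr 1
    refine Finset.prod_congr rfl fun i hi => h i ?_
    rintro rfl; exact ha hi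

lemma pz_mem (a : ι) (p : Finset ι → ℝ) (S : Finset ι) (h : a ∈ S) : pz a p S = 0 := by
  simp [pz, h]

lemma pd_mem (a : ι) (p : Finset ι → ℝ) (S : Finset ι) (h : a ∈ S) : pd a p S = 0 := by
  simp [pd, h]

lemma ev_update (a : ι) (p : Finset ι → ℝ) (hp : ∀ S, a ∈ S → p S = 0) (V : ι → Ω → ℝ)
    (ω : ι → Ω) (t : Ω) : ev p V (Function.update ω a t) = ev p V ω := by
  unfold ev
  refine ml_congr_off a p hp _ _ fun i hi => ?_
  rw [Function.update_of_ne hi]

/-- squares of coefficients -/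
noncomputable def sq2 (p : Finset ι → ℝ) : ℝ := ∑ S, p S ^ 2

lemma sq2_nonneg (p : Finset ι → ℝ) : 0 ≤ sq2 p := Finset.sum_nonneg fun _ _ => sq_nonneg _

lemma sq2_split (a : ι) (p : Finset ι → ℝ) : sq2 p = sq2 (pz a p) + sq2 (pd a p) := by
  unfold sq2
  rw [sum_split a]
  congr 1
  · refine Finset.sum_congr rfl fun S _ => ?_
    unfold pz; split_ifs <;> simp
  · refine Finset.sum_congr rfl fun S _ => ?_
    unfold pd; split_ifs <;> simp

/-- good random variables -/
structure Good (X : Ω → ℝ) : Prop where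
  m1 : Ex X = 0
  m2 : Ex (fun ω => X ω ^ 2) = 1
  m3 : Ex (fun ω => X ω ^ 3) = 0
  m4 : Ex (fun ω => X ω ^ 4) ≤ 9

lemma second_step (a : ι) (p : Finset ι → ℝ) (V : ι → Ω → ℝ) (hV : Good (V a)) :
    Ex (fun ω => ev p V ω ^ 2) = Ex (fun ω => ev (pz a p) V ω ^ 2)
      + Ex (fun ω => ev (pd a p) V ω ^ 2) := by
  have h1 : ∀ ω, ev p V ω ^ 2 = ev (pz a p) V ω ^ 2
      + V a (ω a) * (2 * ev (pz a p) V ω * ev (pd a p) V ω)
      + (V a (ω a)) ^ 2 * ev (pd a p) V ω ^ 2 := by
    intro ω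
    unfold ev
    rw [ml_split a p]; ring
  have u0 : ∀ ω t, ev (pz a p) V (Function.update ω a t) = ev (pz a p) V ω :=
    fun ω t => ev_update a _ (pz_mem a p) V ω t
  have u1 : ∀ ω t, ev (pd a p) V (Function.update ω a t) = ev (pd a p) V ω :=
    fun ω t => ev_update a _ (pd_mem a p) V ω t
  simp only [h1]
  rw [Ex_add, Ex_add,
    Ex_indep a (V a) (fun ω => 2 * ev (pz a p) V ω * ev (pd a p) V ω)
      (fun ω t => by simp only [u0, u1]),
    Ex_indep a (fun t => V a t ^ 2) (fun ω => ev (pd a p) V ω ^ 2) (fun ω t => by simp only [u1]),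
    hV.m1, hV.m2]
  ring

lemma fourth_step (a : ι) (p : Finset ι → ℝ) (V : ι → Ω → ℝ) (hV : Good (V a)) :
    Ex (fun ω => ev p V ω ^ 4) = Ex (fun ω => ev (pz a p) V ω ^ 4)
      + 6 * Ex (fun ω => ev (pz a p) V ω ^ 2 * ev (pd a p) V ω ^ 2)
      + Ex (fun t => V a t ^ 4) * Ex (fun ω => ev (pd a p) V ω ^ 4) := by
  have h1 : ∀ ω, ev p V ω ^ 4 = ev (pz a p) V ω ^ 4
      + V a (ω a) * (4 * ev (pz a p) V ω ^ 3 * ev (pd a p) V ω)
      + (V a (ω a)) ^ 2 * (6 * (ev (pz a p) V ω ^ 2 * ev (pd a p) V ω ^ 2))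
      + (V a (ω a)) ^ 3 * (4 * ev (pz a p) V ω * ev (pd a p) V ω ^ 3)
      + (V a (ω a)) ^ 4 * ev (pd a p) V ω ^ 4 := by
    intro ω
    unfold ev
    rw [ml_split a p]; ring
  have u0 : ∀ ω t, ev (pz a p) V (Function.update ω a t) = ev (pz a p) V ω :=
    fun ω t => ev_update a _ (pz_mem a p) V ω t
  have u1 : ∀ ω t, ev (pd a p) V (Function.update ω a t) = ev (pd a p) V ω :=
    fun ω t => ev_update a _ (pd_mem a p) V ω t
  simp only [h1]
  rw [Ex_add, Ex_add, Ex_add, Ex_add,
    Ex_indep a (V a) (fun ω => 4 * ev (pz a p) V ω ^ 3 * ev (pd a p) V ω)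
      (fun ω t => by simp only [u0, u1]),
    Ex_indep a (fun t => V a t ^ 2)
      (fun ω => 6 * (ev (pz a p) V ω ^ 2 * ev (pd a p) V ω ^ 2)) (fun ω t => by simp only [u0, u1]),
    Ex_indep a (fun t => V a t ^ 3)
      (fun ω => 4 * ev (pz a p) V ω * ev (pd a p) V ω ^ 3) (fun ω t => by simp only [u0, u1]),
    Ex_indep a (fun t => V a t ^ 4)
      (fun ω => ev (pd a p) V ω ^ 4) (fun ω t => by simp only [u1]),
    hV.m1, hV.m2, hV.m3, Ex_const_mul]
  ring

lemma ml_const_of (p : Finset ι → ℝ) (h : ∀ S, S ≠ ∅ → p S = 0) (X : ι → ℝ) : ml p X = p ∅ := by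
  unfold ml
  rw [Finset.sum_eq_single (∅ : Finset ι)]
  · simp
  · intro S _ hS; rw [h S hS]; simp
  · intro h; simp at h

lemma sq2_const_of (p : Finset ι → ℝ) (h : ∀ S, S ≠ ∅ → p S = 0) : sq2 p = p ∅ ^ 2 := by
  unfold sq2
  rw [Finset.sum_eq_single (∅ : Finset ι)]
  · intro S _ hS; rw [h S hS]; simp
  · intro h; simp at h

lemma bonami_aux (V : ι → Ω → ℝ) (hV : ∀ i, Good (V i)) (A : Finset ι) :
    ∀ (d : ℕ) (p : Finset ι → ℝ), (∀ S, ¬ S ⊆ A → p S = 0) → (∀ S, d < S.card → p S = 0) →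
      Ex (fun ω => ev p V ω ^ 2) = sq2 p ∧ Ex (fun ω => ev p V ω ^ 4) ≤ 9 ^ d * (sq2 p) ^ 2 := by
  induction A using Finset.induction_on with
  | empty =>
    intro d p hp _
    have h : ∀ S, S ≠ ∅ → p S = 0 := fun S hS => hp S (fun h => hS (Finset.subset_empty.mp h))
    unfold ev
    simp only [ml_const_of p h, sq2_const_of p h, Ex_const, true_and]
    have h9 : (1:ℝ) ≤ 9 ^ d := one_le_pow₀ (by norm_num)
    have h0 : 0 ≤ (p ∅ ^ 2) ^ 2 := by positivity
    nlinarith
  | insert a A ha ih =>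
    intro d p hp hd
    have z1 : ∀ S, ¬ S ⊆ A → pz a p S = 0 := by
      intro S hS
      unfold pz
      split_ifs with h
      · rfl
      · apply hp
        intro h2
        apply hS
        intro i hi
        rcases Finset.mem_insert.mp (h2 hi) with rfl | h3
        · exact absurd hi h
        · exact h3
    have z2 : ∀ S, d < S.card → pz a p S = 0 := by
      intro S hS
      unfold pz
      split_ifs
      · rfl
      · exact hd S hS
    have d1 : ∀ S, ¬ S ⊆ A → pd a p S = 0 := by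
      intro S hS
      unfold pd
      split_ifs with h
      · rfl
      · apply hp
        intro h2
        apply hS
        intro i hi
        rcases Finset.mem_insert.mp (h2 (Finset.mem_insert_of_mem hi)) with rfl | h3
        · exact absurd hi h
        · exact h3
    obtain ⟨iz2, iz4⟩ := ih d (pz a p) z1 z2
    rcases d with _ | d
    · have hpd : pd a p = fun _ => 0 := by
        funext S
        unfold pd
        split_ifs with h
        · rfl
        · apply hd
          simp [Finset.card_insert_of_notMem h]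
      have hev : ∀ ω : ι → Ω, ev (pd a p) V ω = 0 := by
        intro ω; rw [hpd]; simp [ev, ml]
      have hsq : sq2 (pd a p) = 0 := by rw [hpd]; simp [sq2]
      rw [second_step a p V (hV a), fourth_step a p V (hV a), sq2_split a p]
      simp only [hev, hsq, iz2]
      simp only [ne_eq, OfNat.ofNat_ne_zero, not_false_eq_true, zero_pow, mul_zero, Ex_const,
        add_zero, true_and]
      exact iz4
    · have d2 : ∀ S, d < S.card → pd a p S = 0 := by
        intro S hS
        unfold pd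
        split_ifs with h
        · rfl
        · apply hd
          rw [Finset.card_insert_of_notMem h]
          omega
      obtain ⟨id2, id4⟩ := ih d (pd a p) d1 d2
      refine ⟨by rw [second_step a p V (hV a), sq2_split a p, iz2, id2], ?_⟩
      rw [fourth_step a p V (hV a), sq2_split a p]
      set A2 := sq2 (pz a p) with hA2
      set B2 := sq2 (pd a p) with hB2
      have hA0 : 0 ≤ A2 := sq2_nonneg _
      have hB0 : 0 ≤ B2 := sq2_nonneg _
      have hcs : |Ex (fun ω => ev (pz a p) V ω ^ 2 * ev (pd a p) V ω ^ 2)|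
          ≤ 3 * 9 ^ d * (A2 * B2) := by
        refine cs_le (fun ω => ev (pz a p) V ω ^ 2) (fun ω => ev (pd a p) V ω ^ 2)
          (a := 9 ^ (d + 1) * A2 ^ 2) (b := 9 ^ d * B2 ^ 2) ?_ ?_ ?_ (by positivity)
        · refine le_trans (le_of_eq ?_) iz4
          exact Ex_congr fun ω => by ring
        · refine le_trans (le_of_eq ?_) id4
          exact Ex_congr fun ω => by ring
        · apply le_of_eq; ring
      have hcs' := (abs_le.mp hcs).2
      have h4 : Ex (fun t => V a t ^ 4) * Ex (fun ω => ev (pd a p) V ω ^ 4)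
          ≤ 9 * (9 ^ d * B2 ^ 2) := by
        apply mul_le_mul (hV a).m4 id4 (Ex_nonneg fun ω => by positivity) (by norm_num)
      have : (9:ℝ) ^ (d + 1) = 9 * 9 ^ d := by ring
      rw [this] at iz4 ⊢
      nlinarith

/-- The second moment of a multilinear polynomial in good independent variables. -/
theorem Ex_ev_sq (V : ι → Ω → ℝ) (hV : ∀ i, Good (V i)) (p : Finset ι → ℝ) :
    Ex (fun ω => ev p V ω ^ 2) = sq2 p :=
  (bonami_aux V hV Finset.univ (Fintype.card ι) p (fun S h => absurd (Finset.subset_univ S) h)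
    (fun S h => absurd (Finset.card_le_univ S) (not_le.mpr h))).1

/-- Bonami's lemma. -/
theorem bonami (V : ι → Ω → ℝ) (hV : ∀ i, Good (V i)) (d : ℕ) (p : Finset ι → ℝ)
    (hd : ∀ S, d < S.card → p S = 0) :
    Ex (fun ω => ev p V ω ^ 4) ≤ 9 ^ d * (sq2 p) ^ 2 :=
  (bonami_aux V hV Finset.univ d p (fun S h => absurd (Finset.subset_univ S) h) hd).2

end ev

section cube

variable {ι : Type} [Fintype ι] [DecidableEq ι]

lemma Ex_units (g : ℤˣ → ℝ) : Ex g = (g 1 + g (-1)) / 2 := by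
  unfold Ex
  rw [Fintype.card_units_int]
  have : (Finset.univ : Finset ℤˣ) = {1, -1} := by decide
  rw [this, Finset.sum_insert (by decide), Finset.sum_singleton]
  norm_num

lemma good_sv : Good sv where
  m1 := by rw [Ex_units]; simp
  m2 := by rw [Ex_units]; simp
  m3 := by rw [Ex_units]; simp; norm_num
  m4 := by rw [Ex_units]; simp; norm_num

lemma ev_cube (P : (ι → ℤˣ) → ℝ) (x : ι → ℤˣ) : ev (fc P) (fun _ => sv) x = P x := by
  rw [fourier_expand P x]; rfl

/-- Bonami's lemma on the cube. -/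
theorem bonami_cube {d : ℕ} {P : (ι → ℤˣ) → ℝ} (hP : LD d P) :
    Ex (fun x => P x ^ 4) ≤ 9 ^ d * (nsq P) ^ 2 := by
  have := bonami (fun _ : ι => sv) (fun _ => good_sv) d (fc P) hP
  simp only [ev_cube] at this
  rw [nsq_eq]
  exact this

/-- Paley-Zygmund type bound. -/
theorem paley {Ω : Type} [Fintype Ω] [Nonempty Ω] (g : Ω → ℝ) (K : ℝ) (m : ℝ) (hm : 0 < m)
    (h1 : Ex g = m) (h2 : Ex (fun ω => g ω ^ 2) ≤ K * m ^ 2) (hK : 0 < K) :
    Pr (fun ω => g ω < m / 2) ≤ 1 - 1 / (4 * K) := by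
  classical
  have h3 : (fun ω => ¬ (g ω < m / 2)) = fun ω => m / 2 ≤ g ω := by
    funext ω; rw [not_lt]
  have h4 := Pr_not (fun ω => g ω < m / 2)
  rw [h3] at h4
  suffices h : 1 / (4 * K) ≤ Pr (fun ω => m / 2 ≤ g ω) by linarith
  set q := Pr (fun ω => m / 2 ≤ g ω) with hq
  have hq0 : 0 ≤ q := Pr_nonneg _
  -- E g ≤ m/2 + E[g 1]
  have h5 : m / 2 ≤ Ex (fun ω => g ω * (if m / 2 ≤ g ω then (1:ℝ) else 0)) := by
    have : Ex (fun ω => g ω - m / 2) ≤ Ex (fun ω => g ω * (if m / 2 ≤ g ω then (1:ℝ) else 0)) := by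
      refine Ex_mono fun ω => ?_
      split_ifs with h
      · linarith
      · push Not at h; simp; linarith
    rw [Ex_sub, Ex_const, h1] at this
    linarith
  have h6 := Ex_mul_sq_le g (fun ω => if m / 2 ≤ g ω then (1:ℝ) else 0)
  have h7 : Ex (fun ω => (if m / 2 ≤ g ω then (1:ℝ) else 0) ^ 2) = q := by
    refine Ex_congr fun ω => ?_
    split_ifs <;> norm_num
  rw [h7] at h6
  have h8 : (m / 2) ^ 2 ≤ (K * m ^ 2) * q := by
    calc (m / 2) ^ 2 ≤ (Ex (fun ω => g ω * (if m / 2 ≤ g ω then (1:ℝ) else 0))) ^ 2 := by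
          apply pow_le_pow_left₀ (by linarith) h5
      _ ≤ _ := h6
      _ ≤ _ := mul_le_mul_of_nonneg_right h2 hq0
  rw [div_le_iff₀ (by positivity)]
  have hm2 : 0 < m ^ 2 := by positivity
  have h9 : m ^ 2 * 1 ≤ m ^ 2 * (4 * K * q) := by nlinarith
  have := le_of_mul_le_mul_left h9 hm2
  linarith

/-- the constant of Paley-Zygmund -/
noncomputable def cd (d : ℕ) : ℝ := 1 / (4 * 9 ^ d)

lemma cd_pos (d : ℕ) : 0 < cd d := by unfold cd; positivity

lemma cd_lt (d : ℕ) : cd d < 1 := by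
  unfold cd
  rw [div_lt_one (by positivity)]
  have : (1:ℝ) ≤ 9 ^ d := one_le_pow₀ (by norm_num)
  linarith

theorem small_ball {d : ℕ} {P : (ι → ℤˣ) → ℝ} (hP : LD d P) (h0 : 0 < nsq P) :
    Pr (fun x => P x ^ 2 < nsq P / 2) ≤ 1 - cd d := by
  refine paley (fun x => P x ^ 2) (9 ^ d) (nsq P) h0 rfl ?_ (by positivity)
  refine le_trans (le_of_eq ?_) (bonami_cube hP)
  exact Ex_congr fun x => by ring

theorem small_ball_rs {d : ℕ} {P : (ι → ℤˣ) → ℝ} (hP : LD d P) (h0 : 0 < nsq P)
    (H : Finset ι) :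
    Pr (fun z => nsq (rs H z P) < nsq P / 2) ≤ 1 - cd d := by
  refine paley (fun z => nsq (rs H z P)) (9 ^ d) (nsq P) h0 (Ex_nsq_rs H P) ?_ (by positivity)
  refine le_trans ?_ (bonami_cube hP)
  rw [← Ex_piecewise H (fun x => P x ^ 4)]
  refine Ex_mono fun z => ?_
  have := Ex_sq_le (fun y => (rs H z P y) ^ 2)
  refine this.trans (le_of_eq ?_)
  refine Ex_congr fun y => ?_
  unfold rs; ring

end cube

end Pool.Agent.H595R2.PTF
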