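import Pool.Agent.H595R2.PTF.Ext

set_option autoImplicit false
set_option linter.unusedSectionVars false

namespace Pool.Agent.H595R2.PTF

open Pool.Agent.Helper497.HS
open Filter

/-- squared norm of the low degree part -/
noncomputable def lowsq {ι : Type} [Fintype ι] [DecidableEq ι] (d : ℕ) (G : (ι → ℤˣ) → ℝ) : ℝ :=
  ∑ S : Finset ι, if S.card ≤ d then fc G S ^ 2 else 0

lemma lowsq_nonneg {ι : Type} [Fintype ι] [DecidableEq ι] (d : ℕ) (G : (ι → ℤˣ) → ℝ) :
    0 ≤ lowsq d G := Finset.sum_nonneg fun S _ => by split_ifs <;> positivity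

lemma corr_low {ι : Type} [Fintype ι] [DecidableEq ι] {d : ℕ} (G q : (ι → ℤˣ) → ℝ)
    (hq : LD d q) : (Ex (fun x => G x * q x)) ^ 2 ≤ lowsq d G * nsq q := by
  rw [Ex_mul_eq]
  have h1 : ∑ S, fc G S * fc q S
      = ∑ S, (if S.card ≤ d then fc G S else 0) * fc q S := by
    refine Finset.sum_congr rfl fun S _ => ?_
    split_ifs with h
    · rfl
    · rw [hq S (not_le.mp h)]; simp
  rw [h1]
  have h2 := Finset.sum_mul_sq_le_sq_mul_sq Finset.univ
    (fun S : Finset ι => if S.card ≤ d then fc G S else 0) (fc q)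
  refine h2.trans (le_of_eq ?_)
  rw [nsq_eq]
  congr 1
  unfold lowsq
  refine Finset.sum_congr rfl fun S _ => ?_
  split_ifs <;> simp

lemma mass_sq_rs {ι : Type} [Fintype ι] [DecidableEq ι] (H : Finset ι) (Z : (ι → ℤˣ) → Prop)
    (hZ : ∀ x y, (∀ i ∈ H, x i = y i) → Z x → Z y) (P : (ι → ℤˣ) → ℝ) (B : ℝ) (hB : 0 ≤ B)
    (h : ∀ x, Z x → nsq (rs H x P) ≤ B) : mass Z (fun x => P x ^ 2) ≤ B := by
  classical
  unfold mass
  rw [← Ex_piecewise H]
  refine (Ex_mono (h := fun _ => B) fun z => ?_).trans (le_of_eq (Ex_const B))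
  have h1 : ∀ y, Z (H.piecewise z y) ↔ Z z := by
    intro y
    constructor
    · exact hZ _ _ fun i hi => by simp [hi]
    · exact hZ _ _ fun i hi => by simp [hi]
  simp only [h1]
  split_ifs with hz
  · exact h z hz
  · rw [Ex_const]; exact hB

/-- **Robust Chow theorem** (qualitative, dimension free).
If `F = sgn P` with `P` of degree `≤ d` and `W` is a `[0,1]`-valued weight with mean at
least `ε` then `W F` has a low degree part that is bounded away from zero. -/
theorem chow (d : ℕ) (ε : ℝ) (hε : 0 < ε) : ∃ η : ℝ, 0 < η ∧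
    ∀ (ι : Type) [Fintype ι] [DecidableEq ι] (P W F : (ι → ℤˣ) → ℝ), LD d P →
      (∀ x, F x * P x = |P x|) → (∀ x, P x ≠ 0) → (∀ x, |F x| = 1) →
      (∀ x, 0 ≤ W x) → (∀ x, W x ≤ 1) → ε ≤ Ex W → η ≤ lowsq d (fun x => W x * F x) := by
  classical
  by_contra hcon
  push Not at hcon
  have hcon' : ∀ k : ℕ, ∃ (ι : Type) (_ : Fintype ι) (_ : DecidableEq ι) (P W F : (ι → ℤˣ) → ℝ),
      LD d P ∧ (∀ x, F x * P x = |P x|) ∧ (∀ x, P x ≠ 0) ∧ (∀ x, |F x| = 1) ∧
      (∀ x, 0 ≤ W x) ∧ (∀ x, W x ≤ 1) ∧ ε ≤ Ex W ∧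
      lowsq d (fun x => W x * F x) < 1 / ((k:ℝ) + 1) := by
    intro k
    obtain ⟨ι, i1, i2, P, W, F, h⟩ := hcon (1 / ((k:ℝ) + 1)) (by positivity)
    exact ⟨ι, i1, i2, P, W, F, h⟩
  choose ι i1 i2 P W F hP hFP hPne hF hW0 hW1 hWε hlow using hcon'
  let U : Ultrafilter ℕ := hyperfilter ℕ
  -- the floor scale
  have hmin : ∀ k, ∃ s : ℝ, 0 < s ∧ ∀ x, s ≤ |P k x| := by
    intro k
    obtain ⟨x0, _, hx0⟩ := Finset.exists_min_image (Finset.univ : Finset (ι k → ℤˣ))
      (fun x => |P k x|) Finset.univ_nonempty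
    exact ⟨|P k x0|, abs_pos.mpr (hPne k x0), fun x => hx0 x (Finset.mem_univ _)⟩
  choose s0 hs0 hs0le using hmin
  obtain ⟨s, h, C, H, Z, hs, hC, hHc, hZ, hi, hiii, hii⟩ :=
    sel_all U ι d P W s0 hP hW0 hW1 hs0
  -- mass at scale s
  have hii' : ∃ c > 0, ∀ᶠ k in U, c ≤ mass (fun x => c * s k ≤ |P k x|) (W k) := by
    rcases hii with h1 | h1
    · refine ⟨min 1 ε, lt_min one_pos hε, ?_⟩
      filter_upwards [h1] with k hk
      have h2 : mass (fun x => min 1 ε * s k ≤ |P k x|) (W k) = Ex (W k) := by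
        rw [← mass_true (W k)]
        congr 1
        funext x
        rw [eq_iff_iff, iff_true, hk]
        calc min 1 ε * s0 k ≤ 1 * s0 k :=
              mul_le_mul_of_nonneg_right (min_le_left _ _) (hs0 k).le
          _ = s0 k := one_mul _
          _ ≤ _ := hs0le k x
      rw [h2]
      exact (min_le_right _ _).trans (hWε k)
    · exact h1
  obtain ⟨c, hc, hmass⟩ := hii'
  obtain ⟨E, hE, hext⟩ := extension h d
  -- choose δ
  set δ : ℝ := min (c / 4) ((c ^ 2 / 8) ^ 2 / (E * C)) with hδ
  have hδpos : 0 < δ := lt_min (by positivity) (by positivity)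
  have hδ1 : δ ≤ c / 4 := min_le_left _ _
  have hδ2 : δ * (E * C) ≤ (c ^ 2 / 8) ^ 2 := by
    have : δ ≤ (c ^ 2 / 8) ^ 2 / (E * C) := min_le_right _ _
    rwa [le_div_iff₀ (by positivity)] at this
  -- k large
  obtain ⟨K, hK⟩ := exists_nat_gt (E * C / (c ^ 2 / 8) ^ 2)
  have hKev : ∀ᶠ k in U, K ≤ k := by
    have : ∀ᶠ k in (cofinite : Filter ℕ), K ≤ k := by
      rw [Nat.cofinite_eq_atTop]
      exact eventually_ge_atTop K
    exact hyperfilter_le_cofinite this
  have hfalse : ∀ᶠ k in (U : Filter ℕ), False := by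
    filter_upwards [hi, hiii δ hδpos, hmass, hKev] with k h1 h2 h3 h4
    obtain ⟨q, hq, hqZ, hqn⟩ := hext (ι k) (P k) (H k) (Z k) (hP k) (hHc k) (hZ k)
    have hspos : 0 < s k := lt_of_lt_of_le (hs0 k) (hs k)
    have hm := mass_sq_rs (H k) (Z k) (hZ k) (P k) (C * s k ^ 2) (by positivity) h1
    have hqn' : nsq q ≤ E * C * s k ^ 2 := by
      refine hqn.trans ?_
      calc E * mass (Z k) (fun x => P k x ^ 2) ≤ E * (C * s k ^ 2) :=
            mul_le_mul_of_nonneg_left hm hE.le
        _ = _ := by ring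
    -- upper bound for the correlation
    have hup : Ex (fun x => (W k x * F k x) * q x) ≤ c ^ 2 / 8 * s k := by
      have h5 := corr_low (fun x => W k x * F k x) q hq
      have h6 : lowsq d (fun x => W k x * F k x) * nsq q ≤ (c ^ 2 / 8 * s k) ^ 2 := by
        calc lowsq d (fun x => W k x * F k x) * nsq q
            ≤ (1 / ((k:ℝ) + 1)) * (E * C * s k ^ 2) :=
              mul_le_mul (hlow k).le hqn' (nsq_nonneg _) (by positivity)
          _ = (E * C / ((k:ℝ) + 1)) * s k ^ 2 := by ring
          _ ≤ (c ^ 2 / 8) ^ 2 * s k ^ 2 := by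
              apply mul_le_mul_of_nonneg_right _ (sq_nonneg _)
              rw [div_lt_iff₀ (by positivity)] at hK
              rw [div_le_iff₀ (by positivity)]
              have h7 : (K:ℝ) ≤ (k:ℝ) + 1 := by
                have : (K:ℝ) ≤ k := by exact_mod_cast h4
                linarith
              have h8 : (0:ℝ) ≤ (c ^ 2 / 8) ^ 2 := by positivity
              nlinarith [mul_le_mul_of_nonneg_right h7 h8]
          _ = _ := by ring
      exact (abs_le.mp (abs_le_of_sq_le_sq (h5.trans h6) (by positivity))).2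
    -- lower bound
    have hsplit : ∀ x, (if c * s k ≤ |P k x| then W k x else 0) * (c * s k)
        - (if ¬ Z k x then W k x else 0) * (c * s k)
        - |(if ¬ Z k x then W k x else 0) * q x| ≤ (W k x * F k x) * q x := by
      intro x
      have hw0 := hW0 k x
      by_cases hz : Z k x
      · rw [if_neg (not_not.mpr hz), hqZ x hz]
        have e1 : W k x * F k x * P k x = W k x * |P k x| := by rw [mul_assoc, hFP k x]
        rw [e1]
        simp only [zero_mul, abs_zero, sub_zero]
        split_ifs with hc2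
        · exact mul_le_mul_of_nonneg_left hc2 hw0
        · simp only [zero_mul]
          positivity
      · rw [if_pos hz]
        have e1 : |W k x * F k x * q x| = |W k x * q x| := by
          rw [abs_mul, abs_mul, hF k x, mul_one, ← abs_mul]
        have e2 := neg_abs_le (W k x * F k x * q x)
        rw [e1] at e2
        have e3 : (if c * s k ≤ |P k x| then W k x else 0) ≤ W k x := by
          split_ifs
          exacts [le_refl _, hw0]
        have e4 := mul_le_mul_of_nonneg_right e3 (by positivity : 0 ≤ c * s k)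
        linarith
    have hlowb := Ex_mono hsplit
    rw [Ex_sub, Ex_sub, Ex_mul_const, Ex_mul_const] at hlowb
    have m1 : Ex (fun x => if c * s k ≤ |P k x| then W k x else 0)
        = mass (fun x => c * s k ≤ |P k x|) (W k) := by
      unfold mass
      refine Ex_congr fun x => ?_
      by_cases hx : c * s k ≤ |P k x| <;> simp [hx]
    have m2 : Ex (fun x => if ¬ Z k x then W k x else 0) = mass (fun x => ¬ Z k x) (W k) := by
      unfold mass
      refine Ex_congr fun x => ?_
      by_cases hx : Z k x <;> simp [hx]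
    rw [m1, m2] at hlowb
    have m3 : Ex (fun x => |(if ¬ Z k x then W k x else 0) * q x|) ≤ c ^ 2 / 8 * s k := by
      have h5 := cs_le (fun x => |(if ¬ Z k x then W k x else 0)|) (fun x => |q x|)
        (a := δ) (b := E * C * s k ^ 2) (c := c ^ 2 / 8 * s k) (by
          refine le_trans (Ex_mono fun x => ?_) (m2.le.trans h2)
          split_ifs with hz
          · simp
          · rw [sq_abs]
            have := hW0 k x
            have := hW1 k x
            nlinarith) (by
          simp only [sq_abs]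
          exact hqn') (by
          calc δ * (E * C * s k ^ 2) = (δ * (E * C)) * s k ^ 2 := by ring
            _ ≤ (c ^ 2 / 8) ^ 2 * s k ^ 2 := mul_le_mul_of_nonneg_right hδ2 (sq_nonneg _)
            _ = _ := by ring) (by positivity)
      have h6 := (abs_le.mp h5).2
      refine le_trans (le_of_eq ?_) h6
      exact Ex_congr fun x => abs_mul _ _
    have m4 : c * (c * s k) ≤ mass (fun x => c * s k ≤ |P k x|) (W k) * (c * s k) :=
      mul_le_mul_of_nonneg_right h3 (by positivity)
    have m5 : mass (fun x => ¬ Z k x) (W k) * (c * s k) ≤ (c / 4) * (c * s k) :=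
      mul_le_mul_of_nonneg_right (h2.trans hδ1) (by positivity)
    have m6 : 0 < c ^ 2 * s k := by positivity
    nlinarith
  obtain ⟨_, hx⟩ := hfalse.exists
  exact hx

end Pool.Agent.H595R2.PTF
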