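import Pool.Agent.H595R2.PTF.Main

set_option autoImplicit false
set_option linter.unusedSectionVars false

namespace Pool.Agent.H595R2.PTF

open Pool.Agent.Helper497.HS

section fin

variable {κ : Type} [Fintype κ] [DecidableEq κ]

/-- low degree functions as a submodule -/
def LDs (κ : Type) [Fintype κ] [DecidableEq κ] (j : ℕ) : Submodule ℝ ((κ → ℤˣ) → ℝ) where
  carrier := {g | LD j g}
  add_mem' := fun {a b} ha hb => LD.add ha hb
  zero_mem' := by
    intro S _
    have : fc (0 : (κ → ℤˣ) → ℝ) S = 0 := by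
      unfold fc; simp [Ex]
    exact this
  smul_mem' := fun c g hg => LD.const_mul c hg

lemma ext_one (j : ℕ) (A : (κ → ℤˣ) → Prop) : ∃ C : ℝ, 0 < C ∧ ∀ g : (κ → ℤˣ) → ℝ, LD j g →
    ∃ g' : (κ → ℤˣ) → ℝ, LD j g' ∧ (∀ u, A u → g' u = g u) ∧
      nsq g' ≤ C * mass A (fun u => g u ^ 2) := by
  classical
  -- restriction map
  let ρ : LDs κ j →ₗ[ℝ] ({u // A u} → ℝ) :=
    { toFun := fun g u => g.1 u.1
      map_add' := fun _ _ => rfl
      map_smul' := fun _ _ => rfl }
  let ρ' : LDs κ j →ₗ[ℝ] LinearMap.range ρ := ρ.rangeRestrict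
  have hsurj : Function.Surjective ρ' := LinearMap.surjective_rangeRestrict ρ
  let T : LDs κ j →L[ℝ] LinearMap.range ρ := LinearMap.toContinuousLinearMap ρ'
  have hT : Function.Surjective T := hsurj
  haveI : CompleteSpace (LDs κ j) := FiniteDimensional.complete ℝ _
  haveI : CompleteSpace (LinearMap.range ρ) := FiniteDimensional.complete ℝ _
  obtain ⟨C, hC, hpre⟩ := ContinuousLinearMap.exists_preimage_norm_le T hT
  have hcard : (0:ℝ) < Fintype.card (κ → ℤˣ) := by exact_mod_cast Fintype.card_pos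
  refine ⟨C ^ 2 * Fintype.card (κ → ℤˣ), by positivity, fun g hg => ?_⟩
  obtain ⟨x, hx, hxn⟩ := hpre (T ⟨g, hg⟩)
  refine ⟨x.1, x.2, ?_, ?_⟩
  · intro u hu
    have h1 : ρ x = ρ ⟨g, hg⟩ := congrArg Subtype.val hx
    exact congrFun h1 ⟨u, hu⟩
  · have h1 : nsq x.1 ≤ ‖x‖ ^ 2 := by
      unfold nsq
      have : ∀ u, x.1 u ^ 2 ≤ ‖x‖ ^ 2 := by
        intro u
        have h2 : ‖x.1 u‖ ≤ ‖x.1‖ := norm_le_pi_norm x.1 u
        rw [← sq_abs]
        exact pow_le_pow_left₀ (abs_nonneg _) h2 2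
      refine (Ex_mono this).trans (le_of_eq (Ex_const _))
    have h2 : ‖T ⟨g, hg⟩‖ ^ 2 ≤ Fintype.card (κ → ℤˣ) * mass A (fun u => g u ^ 2) := by
      have h3 : Fintype.card (κ → ℤˣ) * mass A (fun u => g u ^ 2)
          = ∑ u, if A u then g u ^ 2 else 0 := by
        unfold mass Ex
        field_simp
      rw [h3]
      have hs0 : 0 ≤ ∑ u, if A u then g u ^ 2 else 0 :=
        Finset.sum_nonneg fun u _ => by split_ifs <;> positivity
      have h4 : ‖T ⟨g, hg⟩‖ ≤ Real.sqrt (∑ u, if A u then g u ^ 2 else 0) := by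
        have h5 : ‖T ⟨g, hg⟩‖ = ‖ρ ⟨g, hg⟩‖ := rfl
        rw [h5, pi_norm_le_iff_of_nonneg (Real.sqrt_nonneg _)]
        intro u
        apply Real.le_sqrt_of_sq_le
        rw [Real.norm_eq_abs, sq_abs]
        have h6 : (ρ ⟨g, hg⟩ u) ^ 2 = (if A u.1 then g u.1 ^ 2 else 0) := by
          rw [if_pos u.2]; rfl
        rw [h6]
        exact Finset.single_le_sum (f := fun u => if A u then g u ^ 2 else 0)
          (fun u _ => by beta_reduce; split_ifs <;> positivity) (Finset.mem_univ u.1)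
      calc ‖T ⟨g, hg⟩‖ ^ 2 ≤ (Real.sqrt (∑ u, if A u then g u ^ 2 else 0)) ^ 2 :=
            pow_le_pow_left₀ (norm_nonneg _) h4 2
        _ = _ := Real.sq_sqrt hs0
    calc nsq x.1 ≤ ‖x‖ ^ 2 := h1
      _ ≤ (C * ‖T ⟨g, hg⟩‖) ^ 2 := pow_le_pow_left₀ (norm_nonneg _) hxn 2
      _ = C ^ 2 * ‖T ⟨g, hg⟩‖ ^ 2 := by ring
      _ ≤ C ^ 2 * (Fintype.card (κ → ℤˣ) * mass A (fun u => g u ^ 2)) :=
          mul_le_mul_of_nonneg_left h2 (sq_nonneg _)
      _ = _ := by ring

lemma ext_all (d : ℕ) : ∃ C : ℝ, 0 < C ∧ ∀ j ≤ d, ∀ A : (κ → ℤˣ) → Prop,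
    ∀ g : (κ → ℤˣ) → ℝ, LD j g →
    ∃ g' : (κ → ℤˣ) → ℝ, LD j g' ∧ (∀ u, A u → g' u = g u) ∧
      nsq g' ≤ C * mass A (fun u => g u ^ 2) := by
  classical
  choose C hC hext using fun (p : ℕ × ((κ → ℤˣ) → Prop)) => ext_one (κ := κ) p.1 p.2
  refine ⟨∑ j ∈ Finset.range (d + 1), ∑ A : ((κ → ℤˣ) → Prop), C (j, A) + 1, ?_, ?_⟩
  · have : 0 ≤ ∑ j ∈ Finset.range (d + 1), ∑ A : ((κ → ℤˣ) → Prop), C (j, A) :=
      Finset.sum_nonneg fun j _ => Finset.sum_nonneg fun A _ => (hC _).le
    linarith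
  · intro j hj A g hg
    obtain ⟨g', h1, h2, h3⟩ := hext (j, A) g hg
    refine ⟨g', h1, h2, h3.trans ?_⟩
    apply mul_le_mul_of_nonneg_right _ (mass_nonneg _ fun _ => sq_nonneg _)
    have b1 : C (j, A) ≤ ∑ A : ((κ → ℤˣ) → Prop), C (j, A) :=
      Finset.single_le_sum (f := fun A => C (j, A)) (fun A _ => (hC _).le) (Finset.mem_univ A)
    have b2 : ∑ A : ((κ → ℤˣ) → Prop), C (j, A)
        ≤ ∑ j ∈ Finset.range (d + 1), ∑ A : ((κ → ℤˣ) → Prop), C (j, A) :=
      Finset.single_le_sum (f := fun j => ∑ A : ((κ → ℤˣ) → Prop), C (j, A))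
        (fun j _ => Finset.sum_nonneg fun A _ => (hC _).le)
        (Finset.mem_range.mpr (by omega))
    linarith

end fin

section transport

variable {ι : Type} [Fintype ι] [DecidableEq ι] {κ : Type} [Fintype κ] [DecidableEq κ]

lemma chi_comp (e : κ ↪ ι) (T : Finset κ) (x : ι → ℤˣ) :
    chi T (fun j => x (e j)) = chi (T.map e) x := by
  unfold chi; rw [Finset.prod_map]

lemma Ex_comp (e : κ ↪ ι) (ψ : (κ → ℤˣ) → ℝ) :
    Ex (fun x : ι → ℤˣ => ψ (fun j => x (e j))) = Ex ψ := by
  have h1 : ∀ u, ψ u = ∑ T, fc ψ T * chi T u := fourier_expand ψ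
  have h2 : (fun x : ι → ℤˣ => ψ (fun j => x (e j)))
      = fun x => ∑ T, fc ψ T * chi (T.map e) x := by
    funext x
    rw [h1]
    exact Finset.sum_congr rfl fun T _ => by rw [chi_comp]
  have h3 : ψ = fun u => ∑ T, fc ψ T * chi T u := funext h1
  rw [h2, Ex_sum]
  conv_rhs => rw [h3]
  rw [Ex_sum]
  refine Finset.sum_congr rfl fun T _ => ?_
  rw [Ex_const_mul, Ex_const_mul, Ex_chi_eq, Ex_chi_eq]
  simp

lemma Ex_comp_chi (e : κ ↪ ι) (H : Finset ι) (he : ∀ j, e j ∈ H) (ψ : (κ → ℤˣ) → ℝ)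
    (R R' : Finset ι) (hR : R ∩ H = ∅) (hR' : R' ∩ H = ∅) :
    Ex (fun x : ι → ℤˣ => ψ (fun j => x (e j)) * (chi R x * chi R' x))
      = if R = R' then Ex ψ else 0 := by
  split_ifs with h
  · subst h
    simp only [chi_sq, mul_one]
    exact Ex_comp e ψ
  · have hne : symmDiff R R' ≠ ∅ := by
      intro h0
      apply h
      simpa [Finset.bot_eq_empty] using (symmDiff_eq_bot.mp h0)
    obtain ⟨i, hi⟩ := Finset.nonempty_iff_ne_empty.mpr hne
    have hiH : i ∉ H := by
      intro hiH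
      rcases Finset.mem_symmDiff.mp hi with h1 | h1
      · have : i ∈ R ∩ H := Finset.mem_inter.mpr ⟨h1.1, hiH⟩
        rw [hR] at this; simp at this
      · have : i ∈ R' ∩ H := Finset.mem_inter.mpr ⟨h1.1, hiH⟩
        rw [hR'] at this; simp at this
    have h1 := Ex_equiv (flipE_hs i)
      (fun x : ι → ℤˣ => ψ (fun j => x (e j)) * (chi R x * chi R' x))
    have h2 : (fun x : ι → ℤˣ => ψ (fun j => (flipE_hs i x) (e j)) *
        (chi R (flipE_hs i x) * chi R' (flipE_hs i x)))
        = fun x => -(ψ (fun j => x (e j)) * (chi R x * chi R' x)) := by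
      funext x
      have e1 : (fun j => (flipE_hs i x) (e j)) = fun j => x (e j) := by
        funext j
        show Function.update x i (-(x i)) (e j) = x (e j)
        rw [Function.update_of_ne]
        rintro rfl
        exact hiH (he j)
      have e2 : chi R (flipE_hs i x) * chi R' (flipE_hs i x) = -(chi R x * chi R' x) := by
        rw [chi_mul_chi, chi_mul_chi]
        have := chi_flip_hs (symmDiff R R') i x
        simp only [hi, if_true] at this
        exact this
      rw [e1, e2]; ring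
    rw [h2, Ex_neg] at h1
    linarith

/-- coefficients with respect to the coordinates outside of `H` -/
noncomputable def gco (e : κ ↪ ι) (P : (ι → ℤˣ) → ℝ) (R : Finset ι) : (κ → ℤˣ) → ℝ :=
  fun u => ∑ T, fc P (T.map e ∪ R) * chi T u

lemma gco_LD (e : κ ↪ ι) (H : Finset ι) (he : ∀ j, e j ∈ H) {d : ℕ} {P : (ι → ℤˣ) → ℝ}
    (hP : LD d P) (R : Finset ι) (hR : R ∩ H = ∅) : LD (d - R.card) (gco e P R) := by
  apply LD_sum_chi
  intro T hT
  apply hP
  rw [Finset.card_union_of_disjoint, Finset.card_map]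
  · omega
  · rw [Finset.disjoint_left]
    intro i hi hiR
    obtain ⟨j, _, rfl⟩ := Finset.mem_map.mp hi
    have : e j ∈ R ∩ H := Finset.mem_inter.mpr ⟨hiR, he j⟩
    rw [hR] at this; simp at this

lemma disj_map (e : κ ↪ ι) (H : Finset ι) (he : ∀ j, e j ∈ H) (R : Finset ι) (hR : R ∩ H = ∅)
    (T : Finset κ) : Disjoint (T.map e) R := by
  rw [Finset.disjoint_left]
  intro i hi hiR
  obtain ⟨j, _, rfl⟩ := Finset.mem_map.mp hi
  have : e j ∈ R ∩ H := Finset.mem_inter.mpr ⟨hiR, he j⟩
  rw [hR] at this; simp at this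

/-- index set -/
def idx (H : Finset ι) (d : ℕ) : Finset (Finset ι) :=
  Finset.univ.filter (fun R => R ∩ H = ∅ ∧ R.card ≤ d)

lemma expand_H (e : κ ↪ ι) (H : Finset ι) (he : ∀ j, e j ∈ H) (hH : ∀ i ∈ H, ∃ j, e j = i)
    {d : ℕ} {P : (ι → ℤˣ) → ℝ} (hP : LD d P) (x : ι → ℤˣ) :
    P x = ∑ R ∈ idx H d, gco e P R (fun j => x (e j)) * chi R x := by
  classical
  have h1 : ∑ R ∈ idx H d, gco e P R (fun j => x (e j)) * chi R x
      = ∑ R ∈ idx H d, ∑ T : Finset κ, fc P (T.map e ∪ R) * chi (T.map e ∪ R) x := by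
    refine Finset.sum_congr rfl fun R hR => ?_
    have hR' := (Finset.mem_filter.mp hR).2.1
    unfold gco
    rw [Finset.sum_mul]
    refine Finset.sum_congr rfl fun T _ => ?_
    rw [chi_comp, mul_assoc]
    congr 1
    unfold chi
    rw [Finset.prod_union (disj_map e H he R hR' T)]
  rw [h1, ← Finset.sum_product', fourier_expand P x]
  have h2 : ∑ S, fc P S * chi S x
      = ∑ S ∈ Finset.univ.filter (fun S : Finset ι => (S \ H).card ≤ d), fc P S * chi S x := by
    rw [Finset.sum_filter]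
    refine Finset.sum_congr rfl fun S _ => ?_
    split_ifs with h
    · rfl
    · rw [hP S, zero_mul]
      exact lt_of_lt_of_le (not_le.mp h) (Finset.card_le_card Finset.sdiff_subset)
  rw [h2]
  symm
  refine Finset.sum_nbij' (fun p : Finset ι × Finset κ => p.2.map e ∪ p.1)
    (fun S => (S \ H, Finset.univ.filter (fun j => e j ∈ S))) ?_ ?_ ?_ ?_ ?_
  · rintro ⟨R, T⟩ hp
    have hR := (Finset.mem_filter.mp (Finset.mem_product.mp hp).1).2
    refine Finset.mem_filter.mpr ⟨Finset.mem_univ _, ?_⟩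
    have : (T.map e ∪ R) \ H ⊆ R := by
      intro i hi
      rw [Finset.mem_sdiff, Finset.mem_union] at hi
      rcases hi.1 with h | h
      · obtain ⟨j, _, rfl⟩ := Finset.mem_map.mp h
        exact absurd (he j) hi.2
      · exact h
    exact (Finset.card_le_card this).trans hR.2
  · intro S hS
    refine Finset.mem_product.mpr ⟨Finset.mem_filter.mpr ⟨Finset.mem_univ _, ?_,
      (Finset.mem_filter.mp hS).2⟩, Finset.mem_univ _⟩
    exact Finset.sdiff_inter_self H S
  · rintro ⟨R, T⟩ hp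
    have hR := (Finset.mem_filter.mp (Finset.mem_product.mp hp).1).2.1
    have hRd : ∀ i ∈ R, i ∉ H := by
      intro i hi hiH
      have : i ∈ R ∩ H := Finset.mem_inter.mpr ⟨hi, hiH⟩
      rw [hR] at this; simp at this
    refine Prod.ext ?_ ?_
    · ext i
      simp only [Finset.mem_sdiff, Finset.mem_union]
      constructor
      · rintro ⟨h | h, h2⟩
        · obtain ⟨j, _, rfl⟩ := Finset.mem_map.mp h
          exact absurd (he j) h2
        · exact h
      · intro h
        exact ⟨Or.inr h, hRd i h⟩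
    · ext j
      simp only [Finset.mem_filter, Finset.mem_univ, true_and, Finset.mem_union]
      constructor
      · rintro (h | h)
        · simpa using h
        · exact absurd (he j) (hRd _ h)
      · intro h
        left
        simpa using h
  · intro S _
    ext i
    simp only [Finset.mem_union, Finset.mem_map, Finset.mem_filter, Finset.mem_univ, true_and,
      Finset.mem_sdiff]
    constructor
    · rintro (⟨j, hj, rfl⟩ | h)
      · exact hj
      · exact h.1
    · intro h
      by_cases hi : i ∈ H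
      · obtain ⟨j, rfl⟩ := hH i hi
        exact Or.inl ⟨j, h, rfl⟩
      · exact Or.inr ⟨h, hi⟩
  · rintro ⟨R, T⟩ _
    rfl

lemma sq_expand (e : κ ↪ ι) (H : Finset ι) (he : ∀ j, e j ∈ H) (d : ℕ)
    (a : Finset ι → (κ → ℤˣ) → ℝ) (φ : (κ → ℤˣ) → ℝ) :
    Ex (fun x : ι → ℤˣ => φ (fun j => x (e j)) *
      (∑ R ∈ idx H d, a R (fun j => x (e j)) * chi R x) ^ 2)
      = ∑ R ∈ idx H d, Ex (fun u => φ u * a R u ^ 2) := by
  have h1 : ∀ x : ι → ℤˣ, φ (fun j => x (e j)) *
      (∑ R ∈ idx H d, a R (fun j => x (e j)) * chi R x) ^ 2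
      = ∑ R ∈ idx H d, ∑ R' ∈ idx H d,
        (fun u => φ u * (a R u * a R' u)) (fun j => x (e j)) * (chi R x * chi R' x) := by
    intro x
    rw [sq, Finset.sum_mul_sum, Finset.mul_sum]
    refine Finset.sum_congr rfl fun R _ => ?_
    rw [Finset.mul_sum]
    refine Finset.sum_congr rfl fun R' _ => ?_
    ring
  simp only [h1]
  rw [Ex_sum]
  refine Finset.sum_congr rfl fun R hR => ?_
  rw [Ex_sum, Finset.sum_eq_single R]
  · have := Ex_comp_chi e H he (fun u => φ u * (a R u * a R u)) R R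
      (Finset.mem_filter.mp hR).2.1 (Finset.mem_filter.mp hR).2.1
    rw [if_pos rfl] at this
    rw [this]
    exact Ex_congr fun u => by ring
  · intro R' hR' hne
    have := Ex_comp_chi e H he (fun u => φ u * (a R u * a R' u)) R R'
      (Finset.mem_filter.mp hR).2.1 (Finset.mem_filter.mp hR').2.1
    rw [if_neg (Ne.symm hne)] at this
    exact this
  · intro h; exact absurd hR h

end transport

/-- The extension lemma. -/
theorem extension (h d : ℕ) : ∃ E : ℝ, 0 < E ∧
    ∀ (ι : Type) [Fintype ι] [DecidableEq ι] (P : (ι → ℤˣ) → ℝ) (H : Finset ι)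
      (Z : (ι → ℤˣ) → Prop), LD d P → H.card ≤ h →
      (∀ x y, (∀ i ∈ H, x i = y i) → Z x → Z y) →
      ∃ q : (ι → ℤˣ) → ℝ, LD d q ∧ (∀ x, Z x → q x = P x) ∧
        nsq q ≤ E * mass Z (fun x => P x ^ 2) := by
  classical
  choose C hC hext using fun m : ℕ => ext_all (κ := Fin m) d
  refine ⟨∑ m ∈ Finset.range (h + 1), C m, ?_, ?_⟩
  · apply Finset.sum_pos (fun m _ => hC m)
    exact ⟨0, Finset.mem_range.mpr (by omega)⟩
  · intro ι _ _ P H Z hP hH hZ
    set m := H.card with hm
    have hCm : C m ≤ ∑ m ∈ Finset.range (h + 1), C m :=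
      Finset.single_le_sum (f := C) (fun m _ => (hC m).le) (Finset.mem_range.mpr (by omega))
    -- the embedding
    let e : Fin m ↪ ι := ⟨fun j => (H.equivFin.symm j : ι), fun a b hab =>
      H.equivFin.symm.injective (Subtype.ext hab)⟩
    have he : ∀ j, e j ∈ H := fun j => (H.equivFin.symm j).2
    have hHe : ∀ i ∈ H, ∃ j, e j = i := fun i hi => ⟨H.equivFin ⟨i, hi⟩, by simp [e]⟩
    -- extension of a point of the small cube
    set Zh : (Fin m → ℤˣ) → Prop := fun u => ∃ x : ι → ℤˣ, Z x ∧ (fun j => x (e j)) = u with hZh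
    have hZZ : ∀ x : ι → ℤˣ, Zh (fun j => x (e j)) ↔ Z x := by
      intro x
      constructor
      · rintro ⟨y, hy, hyx⟩
        refine hZ y x (fun i hi => ?_) hy
        obtain ⟨j, rfl⟩ := hHe i hi
        exact congrFun hyx j
      · intro hx; exact ⟨x, hx, rfl⟩
    have hg : ∀ R : Finset ι, ∃ g' : (Fin m → ℤˣ) → ℝ, R ∈ idx H d → LD (d - R.card) g' ∧
        (∀ u, Zh u → g' u = gco e P R u) ∧ nsq g' ≤ C m * mass Zh (fun u => gco e P R u ^ 2) := by
      intro R
      by_cases hR : R ∈ idx H d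
      · obtain ⟨g', h1⟩ := hext m (d - R.card) (by omega) Zh (gco e P R)
          (gco_LD e H he hP R (Finset.mem_filter.mp hR).2.1)
        exact ⟨g', fun _ => h1⟩
      · exact ⟨0, fun h' => absurd h' hR⟩
    choose g' hg' using hg
    refine ⟨fun x => ∑ R ∈ idx H d, g' R (fun j => x (e j)) * chi R x, ?_, ?_, ?_⟩
    · apply LD.sum
      intro R hR
      have hR2 := (Finset.mem_filter.mp hR).2
      have h1 : (fun x : ι → ℤˣ => g' R (fun j => x (e j)) * chi R x)
          = fun x => ∑ T, fc (g' R) T * chi (T.map e ∪ R) x := by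
        funext x
        rw [fourier_expand (g' R), Finset.sum_mul]
        refine Finset.sum_congr rfl fun T _ => ?_
        rw [chi_comp, mul_assoc]
        congr 1
        unfold chi
        rw [Finset.prod_union (disj_map e H he R hR2.1 T)]
      rw [h1]
      apply LD.sum
      intro T _
      rcases le_or_gt T.card (d - R.card) with h2 | h2
      · apply LD.const_mul
        apply LD.mono _ (LD_chi _)
        rw [Finset.card_union_of_disjoint (disj_map e H he R hR2.1 T), Finset.card_map]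
        omega
      · rw [(hg' R hR).1 T h2]
        intro S _
        simp [fc, Ex]
    · intro x hx
      rw [expand_H e H he hHe hP x]
      refine Finset.sum_congr rfl fun R hR => ?_
      rw [(hg' R hR).2.1 _ ((hZZ x).mpr hx)]
    · have n1 : nsq (fun x : ι → ℤˣ => ∑ R ∈ idx H d, g' R (fun j => x (e j)) * chi R x)
          = ∑ R ∈ idx H d, nsq (g' R) := by
        have := sq_expand e H he d g' (fun _ => 1)
        simp only [one_mul] at this
        exact this
      have n2 : mass Z (fun x => P x ^ 2) = ∑ R ∈ idx H d, mass Zh (fun u => gco e P R u ^ 2) := by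
        have := sq_expand e H he d (gco e P) (fun u => if Zh u then 1 else 0)
        have l1 : mass Z (fun x => P x ^ 2) = Ex (fun x : ι → ℤˣ =>
            (fun u => if Zh u then (1:ℝ) else 0) (fun j => x (e j)) *
            (∑ R ∈ idx H d, gco e P R (fun j => x (e j)) * chi R x) ^ 2) := by
          unfold mass
          refine Ex_congr fun x => ?_
          rw [← expand_H e H he hHe hP x]
          by_cases hx : Z x
          · have hx' := (hZZ x).mpr hx
            simp only [hx, hx', if_true, one_mul]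
          · have hx' : ¬ Zh (fun j => x (e j)) := fun h => hx ((hZZ x).mp h)
            simp only [hx, hx', if_false, zero_mul]
        rw [l1, this]
        refine Finset.sum_congr rfl fun R _ => ?_
        unfold mass
        refine Ex_congr fun u => ?_
        by_cases hu : Zh u <;> simp [hu]
      rw [n1, n2, Finset.mul_sum]
      refine Finset.sum_le_sum fun R hR => ?_
      refine (hg' R hR).2.2.trans ?_
      exact mul_le_mul_of_nonneg_right hCm (mass_nonneg _ fun _ => sq_nonneg _)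

end Pool.Agent.H595R2.PTF
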