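import Pool.Agent.H595R2.PTF.Test

set_option autoImplicit false
set_option linter.unusedSectionVars false

namespace Pool.Agent.H595R2.PTF

open Pool.Agent.Helper497.HS

section conv

/-- booleans to signs -/
def tu (b : Bool) : ℤˣ := if b then 1 else -1

/-- signs to booleans -/
def ofu (s : ℤˣ) : Bool := decide (s = 1)

lemma ofu_tu (b : Bool) : ofu (tu b) = b := by cases b <;> decide

lemma tu_ofu (s : ℤˣ) : tu (ofu s) = s := by
  rcases Int.units_eq_one_or s with h | h <;> subst h <;> decide

lemma sv_tu (b : Bool) : sv (tu b) = if b then 1 else -1 := by cases b <;> simp [tu]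

lemma ite_ofu (s : ℤˣ) : (if ofu s = true then (1:ℝ) else -1) = sv s := by
  rw [← sv_tu, tu_ofu]

/-- cube equivalence -/
def cubeE (n : ℕ) : (Fin n → Bool) ≃ (Fin n → ℤˣ) where
  toFun x := fun i => tu (x i)
  invFun x := fun i => ofu (x i)
  left_inv x := by funext i; exact ofu_tu _
  right_inv x := by funext i; exact tu_ofu _

variable {ι : Type} [Fintype ι] [DecidableEq ι]

lemma LD.mul {a b : ℕ} {P Q : (ι → ℤˣ) → ℝ} (hP : LD a P) (hQ : LD b Q) :
    LD (a + b) (fun x => P x * Q x) := by
  have h : (fun x => P x * Q x)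
      = fun x => ∑ S, ∑ T, (fc P S * fc Q T) * chi (symmDiff S T) x := by
    funext x
    rw [fourier_expand P x, fourier_expand Q x, Finset.sum_mul_sum]
    refine Finset.sum_congr rfl fun S _ => Finset.sum_congr rfl fun T _ => ?_
    rw [← chi_mul_chi]; ring
  rw [h]
  refine LD.sum _ fun S _ => LD.sum _ fun T _ => ?_
  rcases le_or_gt S.card a with h1 | h1
  · rcases le_or_gt T.card b with h2 | h2
    · apply LD.const_mul
      apply LD.mono _ (LD_chi _)
      have h3 : (symmDiff S T).card ≤ (S ∪ T).card := by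
        apply Finset.card_le_card
        intro i hi
        rcases Finset.mem_symmDiff.mp hi with h | h
        · exact Finset.mem_union_left _ h.1
        · exact Finset.mem_union_right _ h.1
      have h4 := Finset.card_union_le S T
      omega
    · rw [hQ T h2]
      intro R _; simp [fc, Ex]
  · rw [hP S h1]
    intro R _; simp [fc, Ex]

lemma LD_const (c : ℝ) : LD 0 (fun _ : ι → ℤˣ => c) := by
  have h : (fun _ : ι → ℤˣ => c) = fun x => c * chi ∅ x := by
    funext x; simp [chi]
  rw [h]
  apply LD.const_mul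
  have := LD_chi (∅ : Finset ι)
  simpa using this

lemma LD_var (i : ι) : LD 1 (fun x : ι → ℤˣ => sv (x i)) := by
  have h : (fun x : ι → ℤˣ => sv (x i)) = fun x => chi {i} x := by
    funext x; simp [chi]
  rw [h]
  have := LD_chi ({i} : Finset ι)
  simpa using this

lemma LD.pow {a : ℕ} {P : (ι → ℤˣ) → ℝ} (hP : LD a P) (k : ℕ) :
    LD (k * a) (fun x => P x ^ k) := by
  induction k with
  | zero => simpa using LD_const (ι := ι) 1
  | succ k ih =>
    have := LD.mul ih hP
    simp only [← pow_succ] at this
    rw [Nat.succ_mul]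
    exact this

lemma LD.prod {κ : Type} (s : Finset κ) (a : κ → ℕ) (P : κ → (ι → ℤˣ) → ℝ)
    (h : ∀ k ∈ s, LD (a k) (P k)) : LD (∑ k ∈ s, a k) (fun x => ∏ k ∈ s, P k x) := by
  classical
  induction s using Finset.induction_on with
  | empty => simpa using LD_const (ι := ι) 1
  | insert b s hb ih =>
    rw [Finset.sum_insert hb]
    have h1 := LD.mul (h b (Finset.mem_insert_self _ _))
      (ih fun k hk => h k (Finset.mem_insert_of_mem hk))
    have h2 : (fun x => ∏ k ∈ insert b s, P k x) = fun x => P b x * ∏ k ∈ s, P k x := by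
      funext x; rw [Finset.prod_insert hb]
    rw [h2]
    exact h1

/-- substituting affine forms of degree one in a polynomial -/
lemma LD_mvpoly {n d : ℕ} (p : MvPolynomial (Fin n) ℝ) (hp : p.totalDegree ≤ d)
    (y : Fin n → (ι → ℤˣ) → ℝ) (hy : ∀ i, LD 1 (y i)) :
    LD d (fun u => MvPolynomial.eval (fun i => y i u) p) := by
  have h : (fun u => MvPolynomial.eval (fun i => y i u) p)
      = fun u => ∑ m ∈ p.support, p.coeff m * ∏ i ∈ m.support, y i u ^ m i := by
    funext u
    rw [MvPolynomial.eval_eq]
  rw [h]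
  refine LD.sum _ fun m hm => LD.const_mul _ ?_
  have h1 := LD.prod m.support (fun i => m i * 1) (fun i u => y i u ^ m i)
    (fun i _ => LD.pow (hy i) (m i))
  refine LD.mono ?_ h1
  have h2 := MvPolynomial.le_totalDegree hm
  refine le_trans (le_of_eq ?_) (h2.trans hp)
  simp [Finsupp.sum]

lemma mvpoly_of_LD {n d : ℕ} (P : (Fin n → ℤˣ) → ℝ) (hP : LD d P) :
    ∃ p : MvPolynomial (Fin n) ℝ, p.totalDegree ≤ d ∧
      ∀ x : Fin n → Bool, MvPolynomial.eval (fun i => if x i then (1:ℝ) else -1) p
        = P (fun i => tu (x i)) := by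
  classical
  refine ⟨∑ S : Finset (Fin n), MvPolynomial.C (fc P S) * ∏ i ∈ S, MvPolynomial.X i, ?_, ?_⟩
  · apply MvPolynomial.totalDegree_finsetSum_le
    intro S _
    rcases le_or_gt S.card d with h | h
    · refine (MvPolynomial.totalDegree_mul _ _).trans ?_
      rw [MvPolynomial.totalDegree_C, zero_add]
      refine (MvPolynomial.totalDegree_finsetProd _ _).trans ?_
      simp only [MvPolynomial.totalDegree_X, Finset.sum_const, smul_eq_mul, mul_one]
      exact h
    · rw [hP S h]; simp
  · intro x
    rw [map_sum, fourier_expand P]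
    refine Finset.sum_congr rfl fun S _ => ?_
    rw [map_mul, map_prod, MvPolynomial.eval_C]
    congr 1
    unfold chi
    refine Finset.prod_congr rfl fun i _ => ?_
    rw [MvPolynomial.eval_X, sv_tu]

end conv

end Pool.Agent.H595R2.PTF
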