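import Pool.Agent.H595R2.PTF.Pre

set_option autoImplicit false
set_option linter.unusedSectionVars false

namespace Pool.Agent.H595R2.PTF

open Pool.Agent.Helper497.HS
open Filter

/-- the conclusion of the scale selection -/
def Sel (U : Ultrafilter ℕ) (ι : ℕ → Type) [∀ k, Fintype (ι k)] [∀ k, DecidableEq (ι k)]
    (P W : ∀ k, (ι k → ℤˣ) → ℝ) (s0 : ℕ → ℝ) : Prop :=
  ∃ (s : ℕ → ℝ) (h : ℕ) (C : ℝ) (H : ∀ k, Finset (ι k)) (Z : ∀ k, (ι k → ℤˣ) → Prop),
    (∀ k, s0 k ≤ s k) ∧ 0 < C ∧ (∀ k, (H k).card ≤ h) ∧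
    (∀ k x y, (∀ i ∈ H k, x i = y i) → Z k x → Z k y) ∧
    (∀ᶠ k in U, ∀ x, Z k x → nsq (rs (H k) x (P k)) ≤ C * s k ^ 2) ∧
    (∀ δ > 0, ∀ᶠ k in U, mass (fun x => ¬ Z k x) (W k) ≤ δ) ∧
    ((∀ᶠ k in U, s k = s0 k) ∨ ∃ c > 0, ∀ᶠ k in U, c ≤ mass (fun x => c * s k ≤ |P k x|) (W k))

/-- restriction to a bigger set of coordinates -/
lemma nsq_rs_mono {ι : Type} [Fintype ι] [DecidableEq ι] {H K : Finset ι} (hHK : H ⊆ K)
    (x : ι → ℤˣ) (P : (ι → ℤˣ) → ℝ) : nsq (rs K x P) ≤ 2 ^ K.card * nsq (rs H x P) := by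
  have h : rs K x P = rs K x (rs H x P) := by
    rw [rs_rs]
    have h1 : H ∪ K = K := Finset.union_eq_right.mpr hHK
    rw [h1]
    congr 1
    funext i
    by_cases hi : i ∈ H <;> simp [hi]
  rw [h]
  exact nsq_rs_le K x _

theorem sel_const (U : Ultrafilter ℕ) (ι : ℕ → Type) [∀ k, Fintype (ι k)]
    [∀ k, DecidableEq (ι k)] (P W : ∀ k, (ι k → ℤˣ) → ℝ) (s0 : ℕ → ℝ)
    (hP : ∀ k, LD 0 (P k)) (hW0 : ∀ k x, 0 ≤ W k x) (hs0 : ∀ k, 0 < s0 k)
    (ε : ℝ) (hε : 0 < ε) (hmass : ∀ᶠ k in U, ε ≤ Ex (W k)) : Sel U ι P W s0 := by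
  have hconst : ∀ k x, P k x = fc (P k) ∅ := by
    intro k x
    rw [fourier_expand (P k) x, Finset.sum_eq_single (∅ : Finset (ι k))]
    · simp [chi]
    · intro S _ hS
      rw [hP k S (Finset.card_pos.mpr (Finset.nonempty_iff_ne_empty.mpr hS)), zero_mul]
    · intro h; exact absurd (Finset.mem_univ _) h
  refine ⟨fun k => max (s0 k) |fc (P k) ∅|, 0, 1, fun _ => ∅, fun _ _ => True,
    fun k => le_max_left _ _, one_pos, fun k => by simp, fun _ _ _ _ _ => trivial, ?_, ?_, ?_⟩
  · refine Eventually.of_forall fun k x _ => ?_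
    rw [rs_empty]
    have h1 : nsq (P k) = |fc (P k) ∅| ^ 2 := by
      unfold nsq
      simp only [hconst k, sq_abs]
      exact Ex_const _
    rw [h1, one_mul]
    exact pow_le_pow_left₀ (abs_nonneg _) (le_max_right _ _) 2
  · intro δ hδ
    refine Eventually.of_forall fun k => ?_
    have : mass (fun _ : ι k → ℤˣ => ¬ True) (W k) = 0 := by
      simp only [not_true]
      exact mass_false _
    rw [this]; exact hδ.le
  · by_cases hc : ∀ᶠ k in U, |fc (P k) ∅| ≤ s0 k
    · left
      filter_upwards [hc] with k hk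
      exact max_eq_left hk
    · right
      have hc' := Ultrafilter.eventually_not.mpr hc
      refine ⟨min 1 ε, lt_min one_pos hε, ?_⟩
      filter_upwards [hc', hmass] with k hk hm
      have h1 : max (s0 k) |fc (P k) ∅| = |fc (P k) ∅| := max_eq_right (not_le.mp hk).le
      have h2 : mass (fun x => min 1 ε * max (s0 k) |fc (P k) ∅| ≤ |P k x|) (W k) = Ex (W k) := by
        rw [← mass_true (W k)]
        congr 1
        funext x
        rw [h1, hconst k x, eq_iff_iff, iff_true]
        calc min 1 ε * |fc (P k) ∅| ≤ 1 * |fc (P k) ∅| :=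
              mul_le_mul_of_nonneg_right (min_le_left _ _) (abs_nonneg _)
          _ = _ := one_mul _
      rw [h2]
      exact (min_le_right _ _).trans hm

theorem sel_trivial (U : Ultrafilter ℕ) (ι : ℕ → Type) [∀ k, Fintype (ι k)]
    [∀ k, DecidableEq (ι k)] (P W : ∀ k, (ι k → ℤˣ) → ℝ) (s0 : ℕ → ℝ)
    (hmass : ∀ δ > 0, ∀ᶠ k in U, Ex (W k) ≤ δ) : Sel U ι P W s0 := by
  refine ⟨s0, 0, 1, fun _ => ∅, fun _ _ => False, fun k => le_refl _, one_pos, fun k => by simp,
    fun _ _ _ _ h => h, ?_, ?_, ?_⟩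
  · exact Eventually.of_forall fun k x h => h.elim
  · intro δ hδ
    filter_upwards [hmass δ hδ] with k hk
    have : mass (fun _ : ι k → ℤˣ => ¬ False) (W k) = Ex (W k) := by
      simp only [not_false_iff]
      exact mass_true _
    rw [this]; exact hk
  · left
    exact Eventually.of_forall fun k => rfl

theorem sel_succ (U : Ultrafilter ℕ) (ι : ℕ → Type) [∀ k, Fintype (ι k)]
    [∀ k, DecidableEq (ι k)] (d : ℕ)
    (ih : ∀ (P W : ∀ k, (ι k → ℤˣ) → ℝ) (s0 : ℕ → ℝ), (∀ k, LD d (P k)) →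
      (∀ k x, 0 ≤ W k x) → (∀ k x, W k x ≤ 1) → (∀ k, 0 < s0 k) → Sel U ι P W s0)
    (P W : ∀ k, (ι k → ℤˣ) → ℝ) (s0 : ℕ → ℝ)
    (hP : ∀ k, LD (d + 1) (P k)) (hW0 : ∀ k x, 0 ≤ W k x) (hW1 : ∀ k x, W k x ≤ 1)
    (hs0 : ∀ k, 0 < s0 k)
    (ε : ℝ) (hε : 0 < ε) (hmass : ∀ᶠ k in U, ε ≤ Ex (W k)) : Sel U ι P W s0 := by
  classical
  -- the median
  have hmed : ∀ k, ∃ m : ℝ, ε ≤ Ex (W k) →
      ε / 2 ≤ mass (fun x => |P k x| ≤ m) (W k) ∧ ε / 2 ≤ mass (fun x => m ≤ |P k x|) (W k) := by
    intro k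
    by_cases h : ε ≤ Ex (W k)
    · obtain ⟨m, hm⟩ := median (fun x => |P k x|) (W k) (hW0 k) ε hε h
      exact ⟨m, fun _ => hm⟩
    · exact ⟨0, fun h' => absurd h' h⟩
  choose med hmed using hmed
  set s1 : ℕ → ℝ := fun k => max (s0 k) (med k) with hs1
  have hs1pos : ∀ k, 0 < s1 k := fun k => lt_of_lt_of_le (hs0 k) (le_max_left _ _)
  -- the atom lemma
  obtain ⟨B, C0, hC0, hatom⟩ := atom (d + 1) (ε / 2) (by positivity)
  have hat : ∀ k, ∃ (H : Finset (ι k)) (z : ι k → ℤˣ), H.card ≤ B ∧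
      (ε ≤ Ex (W k) → nsq (rs H z (P k)) ≤ C0 * s1 k ^ 2) := by
    intro k
    by_cases h : ε ≤ Ex (W k)
    · have h1 : ε / 2 ≤ Pr (fun x => |P k x| ≤ s1 k) := by
        refine (hmed k h).1.trans ((mass_le_Pr _ (hW1 k)).trans (Pr_mono fun x hx => ?_))
        exact hx.trans (le_max_right _ _)
      obtain ⟨H, z, hH, hz⟩ := hatom (ι k) (P k) (hP k) (s1 k) (hs1pos k) h1
      exact ⟨H, z, hH, fun _ => hz⟩
    · exact ⟨∅, fun _ => 1, by simp, fun h' => absurd h' h⟩
  choose H0 z0 hH0 hz0 using hat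
  -- top part and the rest
  set R : ∀ k, (ι k → ℤˣ) → ℝ := fun k => top (H0 k) d (P k) with hR
  set Q : ∀ k, (ι k → ℤˣ) → ℝ := fun k x => P k x - R k x with hQ
  have hPQR : ∀ k x, P k x = Q k x + R k x := fun k x => by simp [hQ]
  have hRn : ∀ᶠ k in U, nsq (R k) ≤ C0 * s1 k ^ 2 := by
    filter_upwards [hmass] with k hk
    exact (nsq_top_le (hP k) (H0 k) (z0 k)).trans (hz0 k hk)
  -- patterns
  have hpat : ∀ k, ∃ e : Fin (2 ^ B) → (ι k → ℤˣ), ∀ x : ι k → ℤˣ, ∃ j, ∀ i ∈ H0 k, x i = e j i :=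
    fun k => patterns (H0 k) B (hH0 k)
  choose e he using hpat
  -- inductive hypothesis for each pattern
  have hih : ∀ j : Fin (2 ^ B), Sel U ι (fun k => rs (H0 k) (e k j) (Q k))
      (fun k => rs (H0 k) (e k j) (W k)) s1 := by
    intro j
    apply ih
    · intro k; exact rest_LD (hP k) (H0 k) (e k j)
    · intro k x; exact hW0 k _
    · intro k x; exact hW1 k _
    · exact hs1pos
  choose sj hj Cj Hj Zj hsj hCj hHj hZj hij hiij hiiij using hih
  -- the maximal scale
  have hmax : ∃ jm : Fin (2 ^ B), ∀ᶠ k in U, ∀ j, sj j k ≤ sj jm k := by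
    have h1 : ∀ᶠ k in U, ∃ jm ∈ (Set.univ : Set (Fin (2 ^ B))), ∀ j, sj j k ≤ sj jm k := by
      refine Eventually.of_forall fun k => ?_
      obtain ⟨jm, _, hjm⟩ := Finset.exists_max_image (Finset.univ : Finset (Fin (2 ^ B)))
        (fun j => sj j k) ⟨⟨0, by positivity⟩, Finset.mem_univ _⟩
      exact ⟨jm, Set.mem_univ _, fun j => hjm j (Finset.mem_univ _)⟩
    obtain ⟨jm, _, hjm⟩ := (Ultrafilter.eventually_exists_mem_iff Set.finite_univ).mp h1
    exact ⟨jm, hjm⟩
  obtain ⟨jm, hjm⟩ := hmax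
  -- the new head and zero region
  set h : ℕ := B + ∑ j, hj j with hh
  set H : ∀ k, Finset (ι k) := fun k => H0 k ∪ Finset.univ.biUnion (fun j => Hj j k) with hH
  set Z : ∀ k, (ι k → ℤˣ) → Prop := fun k x => ∃ j, (∀ i ∈ H0 k, x i = e k j i) ∧ Zj j k x with hZ
  have hHcard : ∀ k, (H k).card ≤ h := by
    intro k
    refine (Finset.card_union_le _ _).trans ?_
    refine Nat.add_le_add (hH0 k) ?_
    refine Finset.card_biUnion_le.trans ?_
    exact Finset.sum_le_sum fun j _ => hHj j k
  have hH0H : ∀ k, H0 k ⊆ H k := fun k => Finset.subset_union_left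
  have hHjH : ∀ k j, Hj j k ⊆ H k := fun k j =>
    (Finset.subset_biUnion_of_mem (fun j => Hj j k) (Finset.mem_univ j)).trans
      Finset.subset_union_right
  have hZdet : ∀ k x y, (∀ i ∈ H k, x i = y i) → Z k x → Z k y := by
    rintro k x y hxy ⟨j, h1, h2⟩
    refine ⟨j, fun i hi => by rw [← hxy i (hH0H k hi)]; exact h1 i hi, ?_⟩
    exact hZj j k x y (fun i hi => hxy i (hHjH k j hi)) h2
  -- (i) with the maximal scale and s1
  set CC : ℝ := 2 ^ (h + 1) * (∑ j, Cj j + C0) with hCC
  have hsumC : 0 ≤ ∑ j, Cj j := Finset.sum_nonneg fun j _ => (hCj j).le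
  have hCCpos : 0 < CC := by positivity
  have hi : ∀ᶠ k in U, ∀ t : ℝ, (∀ j, sj j k ≤ t) → s1 k ≤ t → ∀ x, Z k x →
      nsq (rs (H k) x (P k)) ≤ CC * t ^ 2 := by
    have hall : ∀ᶠ k in U, ∀ j, ∀ x, Zj j k x →
        nsq (rs (Hj j k) x (rs (H0 k) (e k j) (Q k))) ≤ Cj j * sj j k ^ 2 :=
      eventually_all.mpr fun j => hij j
    filter_upwards [hRn, hall] with k hk1 hk2 t ht1 ht2 x hx
    obtain ⟨j, hx1, hx2⟩ := hx
    have h1 := hk2 j x hx2
    have e1 : rs (H k) x (P k) = fun y => rs (H k) x (Q k) y + rs (H k) x (R k) y := by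
      funext y
      unfold rs
      exact hPQR k _
    have e2 : rs (H k) x (Q k) = rs (H k) x (rs (H0 k) (e k j) (Q k)) := by
      funext y
      unfold rs
      rw [piecewise_agree hx1]
      intro i hi
      simp [hH0H k hi]
    rw [e1]
    refine (nsq_add_le _ _).trans ?_
    have b1 : nsq (rs (H k) x (Q k)) ≤ 2 ^ h * (Cj j * t ^ 2) := by
      rw [e2]
      refine (nsq_rs_mono (hHjH k j) x _).trans ?_
      have p1 : (2:ℝ) ^ (H k).card ≤ 2 ^ h := pow_le_pow_right₀ (by norm_num) (hHcard k)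
      have p2 : Cj j * sj j k ^ 2 ≤ Cj j * t ^ 2 := by
        apply mul_le_mul_of_nonneg_left _ (hCj j).le
        apply pow_le_pow_left₀ _ (ht1 j)
        exact (hs1pos k).le.trans (hsj j k)
      exact mul_le_mul p1 (h1.trans p2) (nsq_nonneg _) (by positivity)
    have b2 : nsq (rs (H k) x (R k)) ≤ 2 ^ h * (C0 * t ^ 2) := by
      refine (nsq_rs_le (H k) x _).trans ?_
      have p1 : (2:ℝ) ^ (H k).card ≤ 2 ^ h := pow_le_pow_right₀ (by norm_num) (hHcard k)
      have p2 : C0 * s1 k ^ 2 ≤ C0 * t ^ 2 := by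
        apply mul_le_mul_of_nonneg_left _ hC0.le
        exact pow_le_pow_left₀ (hs1pos k).le ht2 2
      exact mul_le_mul p1 (hk1.trans p2) (nsq_nonneg _) (by positivity)
    have b3 : Cj j ≤ ∑ j, Cj j :=
      Finset.single_le_sum (f := Cj) (fun j _ => (hCj j).le) (Finset.mem_univ j)
    have b4 : 2 ^ h * (Cj j * t ^ 2) ≤ 2 ^ h * ((∑ j, Cj j) * t ^ 2) := by
      apply mul_le_mul_of_nonneg_left _ (by positivity)
      exact mul_le_mul_of_nonneg_right b3 (sq_nonneg _)
    calc 2 * nsq (rs (H k) x (Q k)) + 2 * nsq (rs (H k) x (R k))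
        ≤ 2 * (2 ^ h * ((∑ j, Cj j) * t ^ 2)) + 2 * (2 ^ h * (C0 * t ^ 2)) := by linarith
      _ = CC * t ^ 2 := by rw [hCC, pow_succ]; ring
  -- (iii)
  have hiii : ∀ δ > 0, ∀ᶠ k in U, mass (fun x => ¬ Z k x) (W k) ≤ δ := by
    intro δ hδ
    set N : ℝ := (2:ℝ) ^ B with hN
    have hall : ∀ᶠ k in U, ∀ j : Fin (2 ^ B),
        mass (fun x => ¬ Zj j k x) (rs (H0 k) (e k j) (W k)) ≤ δ / N :=
      eventually_all.mpr fun j => hiij j (δ / N) (by positivity)
    filter_upwards [hall] with k hk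
    calc mass (fun x => ¬ Z k x) (W k)
        ≤ ∑ j : Fin (2 ^ B), mass (fun x => ¬ Zj j k x) (rs (H0 k) (e k j) (W k)) := by
          refine mass_le_sum _ _ (fun j x => ¬ Zj j k x)
            (fun j => rs (H0 k) (e k j) (W k)) (fun j x => hW0 k _) fun x hx => ?_
          obtain ⟨j, hj⟩ := he k x
          refine ⟨j, fun h' => hx ⟨j, hj, h'⟩, ?_⟩
          have h2 : rs (H0 k) (e k j) (W k) x = W k x := by
            unfold rs
            rw [piecewise_agree hj x (fun _ _ => rfl)]
          rw [h2]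
      _ ≤ ∑ _j : Fin (2 ^ B), δ / N := Finset.sum_le_sum fun j _ => hk j
      _ = δ := by
          rw [Finset.sum_const, Finset.card_univ, Fintype.card_fin, nsmul_eq_mul, hN]
          push_cast
          field_simp
  by_cases hcase : ∃ K : ℝ, ∀ᶠ k in U, sj jm k ≤ K * s1 k
  · -- Case I: the scale is `s1`
    obtain ⟨K, hK⟩ := hcase
    set K1 : ℝ := max K 1 with hK1
    have hK1pos : 1 ≤ K1 := le_max_right _ _
    refine ⟨s1, h, CC * K1 ^ 2, H, Z, fun k => le_max_left _ _, by positivity, hHcard, hZdet,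
      ?_, hiii, ?_⟩
    · filter_upwards [hi, hK, hjm] with k hk1 hk2 hk3 x hx
      have h1 : sj jm k ≤ K1 * s1 k := hk2.trans
        (mul_le_mul_of_nonneg_right (le_max_left _ _) (hs1pos k).le)
      have h2 : s1 k ≤ K1 * s1 k := by nlinarith [hs1pos k]
      have := hk1 (K1 * s1 k) (fun j => (hk3 j).trans h1) h2 x hx
      refine this.trans (le_of_eq ?_)
      ring
    · by_cases hc : ∀ᶠ k in U, med k ≤ s0 k
      · left
        filter_upwards [hc] with k hk
        exact max_eq_left hk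
      · right
        have hc' := Ultrafilter.eventually_not.mpr hc
        refine ⟨min 1 (ε / 2), lt_min one_pos (by positivity), ?_⟩
        filter_upwards [hc', hmass] with k hk hm
        have h1 : s1 k = med k := max_eq_right (not_le.mp hk).le
        refine (min_le_right _ _).trans ((hmed k hm).2.trans ?_)
        refine mass_mono (hW0 k) fun x hx => ?_
        rw [← h1] at hx
        refine le_trans ?_ hx
        calc min 1 (ε / 2) * s1 k ≤ 1 * s1 k :=
              mul_le_mul_of_nonneg_right (min_le_left _ _) (hs1pos k).le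
          _ = _ := one_mul _
  · -- Case II: the scale is the maximal one
    have hbig : ∀ K : ℝ, ∀ᶠ k in U, K * s1 k < sj jm k := by
      intro K
      have h1 : ¬ ∀ᶠ k in U, sj jm k ≤ K * s1 k := fun h' => hcase ⟨K, h'⟩
      filter_upwards [Ultrafilter.eventually_not.mpr h1] with k hk
      exact not_le.mp hk
    refine ⟨sj jm, h, CC, H, Z, fun k => (le_max_left _ _).trans (hsj jm k), hCCpos, hHcard, hZdet,
      ?_, hiii, ?_⟩
    · filter_upwards [hi, hjm] with k hk1 hk3 x hx
      exact hk1 (sj jm k) hk3 (hsj jm k) x hx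
    · right
      rcases hiiij jm with h1 | ⟨c, hc, h1⟩
      · exfalso
        have h2 := hbig 1
        have h3 : ∀ᶠ k in (U : Filter ℕ), False := by
          filter_upwards [h1, h2] with k hk1 hk2
          linarith
        exact (h3.exists).elim fun _ h => h
      · -- transfer the mass
        set a : ℝ := (1 / 2) ^ B * c / 2 with ha
        have hapos : 0 < a := by positivity
        obtain ⟨K, hK⟩ : ∃ K : ℝ, 0 < K ∧ 4 * C0 / (c ^ 2 * K ^ 2) ≤ a := by
          obtain ⟨K, hK⟩ := exists_gt (max 1 (4 * C0 / (c ^ 2 * a)))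
          have hK1 : 1 < K := lt_of_le_of_lt (le_max_left _ _) hK
          have hK2 : 4 * C0 / (c ^ 2 * a) < K := lt_of_le_of_lt (le_max_right _ _) hK
          refine ⟨K, by linarith, ?_⟩
          rw [div_lt_iff₀ (by positivity)] at hK2
          rw [div_le_iff₀ (by positivity)]
          have hca : 0 < c ^ 2 * a := by positivity
          nlinarith
        refine ⟨min (c / 2) a, lt_min (by positivity) hapos, ?_⟩
        filter_upwards [h1, hRn, hbig K] with k hk1 hk2 hk3
        set S := sj jm k with hSdef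
        have hSpos : 0 < S := lt_of_lt_of_le (hs1pos k) (hsj jm k)
        -- bound on R
        have hRsmall : Pr (fun x => (c / 2) * S ≤ |R k x|) ≤ a := by
          have m1 := markov (fun x => R k x ^ 2) (fun _ => sq_nonneg _) (((c / 2) * S) ^ 2)
            (by positivity)
          have m2 : Pr (fun x => (c / 2) * S ≤ |R k x|)
              ≤ Pr (fun x => ((c / 2) * S) ^ 2 ≤ R k x ^ 2) := by
            refine Pr_mono fun x hx => ?_
            rw [← sq_abs (R k x)]
            exact pow_le_pow_left₀ (by positivity) hx 2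
          refine m2.trans (m1.trans ?_)
          have m3 : Ex (fun x => R k x ^ 2) ≤ C0 * s1 k ^ 2 := hk2
          have m4 : s1 k ^ 2 * K ^ 2 ≤ S ^ 2 := by
            have : K * s1 k ≤ S := hk3.le
            have h5 := pow_le_pow_left₀ (by have := hs1pos k; have := hK.1; positivity) this 2
            nlinarith
          refine le_trans ?_ hK.2
          rw [div_le_div_iff₀ (by positivity) (by have := hK.1; positivity)]
          have hKpos := hK.1
          have m5 : Ex (fun x => R k x ^ 2) * K ^ 2 ≤ C0 * S ^ 2 := by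
            calc Ex (fun x => R k x ^ 2) * K ^ 2 ≤ (C0 * s1 k ^ 2) * K ^ 2 :=
                  mul_le_mul_of_nonneg_right m3 (sq_nonneg _)
              _ = C0 * (s1 k ^ 2 * K ^ 2) := by ring
              _ ≤ _ := mul_le_mul_of_nonneg_left m4 hC0.le
          have m6 := mul_le_mul_of_nonneg_left m5 (sq_nonneg c)
          nlinarith
        -- mass on the cylinder
        set E : ι k → ℤˣ := e k jm with hE
        have hcyl : Ex (fun x => (if ∀ i ∈ H0 k, x i = E i then (1:ℝ) else 0) *
            rs (H0 k) E (fun x => if c * S ≤ |Q k x| then W k x else 0) x)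
            = (1 / 2 : ℝ) ^ (H0 k).card *
              Ex (rs (H0 k) E (fun x => if c * S ≤ |Q k x| then W k x else 0)) :=
          Ex_agree_mul (H0 k) E _
        have hcyl2 : Ex (rs (H0 k) E (fun x => if c * S ≤ |Q k x| then W k x else 0)) =
            mass (fun x => c * S ≤ |rs (H0 k) E (Q k) x|) (rs (H0 k) E (W k)) := by
          unfold mass
          refine Ex_congr fun x => ?_
          unfold rs
          by_cases hx : c * S ≤ |Q k ((H0 k).piecewise E x)| <;> simp [hx]
        have hcyl3 : (1 / 2 : ℝ) ^ B * c ≤ Ex (fun x => (if ∀ i ∈ H0 k, x i = E i then (1:ℝ) else 0) *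
            rs (H0 k) E (fun x => if c * S ≤ |Q k x| then W k x else 0) x) := by
          rw [hcyl, hcyl2]
          apply mul_le_mul _ hk1 hc.le (by positivity)
          exact pow_le_pow_of_le_one (by norm_num) (by norm_num) (hH0 k)
        have hpt : ∀ x, (if ∀ i ∈ H0 k, x i = E i then (1:ℝ) else 0) *
            rs (H0 k) E (fun x => if c * S ≤ |Q k x| then W k x else 0) x
            ≤ (if min (c / 2) a * S ≤ |P k x| then W k x else 0)
              + (if (c / 2) * S ≤ |R k x| then (1:ℝ) else 0) := by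
          intro x
          have n1 : (0:ℝ) ≤ (if min (c / 2) a * S ≤ |P k x| then W k x else 0) := by
            split_ifs; exacts [hW0 k x, le_refl _]
          have n2 : (0:ℝ) ≤ (if (c / 2) * S ≤ |R k x| then (1:ℝ) else 0) := by
            split_ifs <;> norm_num
          by_cases hx : ∀ i ∈ H0 k, x i = E i
          · rw [if_pos hx, one_mul]
            unfold rs
            rw [piecewise_agree hx x (fun _ _ => rfl)]
            beta_reduce
            by_cases hq : c * S ≤ |Q k x|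
            · rw [if_pos hq]
              by_cases hr : (c / 2) * S ≤ |R k x|
              · rw [if_pos hr]
                have := hW1 k x
                linarith
              · have hp : min (c / 2) a * S ≤ |P k x| := by
                  have h3 : |Q k x| ≤ |P k x| + |R k x| := by
                    have h4 : Q k x = P k x - R k x := rfl
                    rw [h4]
                    exact abs_sub _ _
                  have h5 : min (c / 2) a * S ≤ (c / 2) * S :=
                    mul_le_mul_of_nonneg_right (min_le_left _ _) hSpos.le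
                  push Not at hr
                  linarith
                rw [if_pos hp]
                linarith
            · rw [if_neg hq]
              linarith
          · rw [if_neg hx, zero_mul]
            linarith
        have hfin := Ex_mono hpt
        rw [Ex_add] at hfin
        have hPreq : Ex (fun x => if (c / 2) * S ≤ |R k x| then (1:ℝ) else 0)
            = Pr (fun x => (c / 2) * S ≤ |R k x|) := (Pr_eq _).symm
        rw [hPreq] at hfin
        have hmasseq : Ex (fun x => if min (c / 2) a * S ≤ |P k x| then W k x else 0)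
            = mass (fun x => min (c / 2) a * S ≤ |P k x|) (W k) := by
          unfold mass
          refine Ex_congr fun x => ?_
          by_cases hx : min (c / 2) a * S ≤ |P k x| <;> simp [hx]
        rw [hmasseq] at hfin
        have h9 : a + a = (1 / 2 : ℝ) ^ B * c := by rw [ha]; ring
        have h10 : min (c / 2) a ≤ a := min_le_right _ _
        linarith

/-- Scale selection, for all degrees. -/
theorem sel_all (U : Ultrafilter ℕ) (ι : ℕ → Type) [∀ k, Fintype (ι k)]
    [∀ k, DecidableEq (ι k)] (d : ℕ) :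
    ∀ (P W : ∀ k, (ι k → ℤˣ) → ℝ) (s0 : ℕ → ℝ), (∀ k, LD d (P k)) →
      (∀ k x, 0 ≤ W k x) → (∀ k x, W k x ≤ 1) → (∀ k, 0 < s0 k) → Sel U ι P W s0 := by
  induction d with
  | zero =>
    intro P W s0 hP hW0 hW1 hs0
    by_cases h : ∀ δ > 0, ∀ᶠ k in U, Ex (W k) ≤ δ
    · exact sel_trivial U ι P W s0 h
    · push Not at h
      obtain ⟨ε, hε, h⟩ := h
      exact sel_const U ι P W s0 hP hW0 hs0 ε hε (h.mono fun k hk => hk.le)
  | succ d ih =>
    intro P W s0 hP hW0 hW1 hs0
    by_cases h : ∀ δ > 0, ∀ᶠ k in U, Ex (W k) ≤ δ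
    · exact sel_trivial U ι P W s0 h
    · push Not at h
      obtain ⟨ε, hε, h⟩ := h
      exact sel_succ U ι d ih P W s0 hP hW0 hW1 hs0 ε hε (h.mono fun k hk => hk.le)

end Pool.Agent.H595R2.PTF
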