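import Pool.Agent.H595R2.PTF.Bonami

set_option autoImplicit false
set_option linter.unusedSectionVars false

namespace Pool.Agent.H595R2.PTF

open Pool.Agent.Helper497.HS

section lindeberg

variable {ι : Type} [Fintype ι] [DecidableEq ι] {Ω : Type} [Fintype Ω] [Nonempty Ω]

/-- a function with a second order Taylor expansion with cubic error -/
structure Tay (K : ℝ) (Ψ D1 D2 : ℝ → ℝ) : Prop where
  K0 : 0 ≤ K
  bd : ∀ a b, |Ψ (a + b) - (Ψ a + D1 a * b + D2 a * b ^ 2)| ≤ K * |b| ^ 3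

lemma taylor_avg {K : ℝ} {Ψ D1 D2 : ℝ → ℝ} (h : Tay K Ψ D1 D2) (X : Ω → ℝ) (hX : Good X)
    (u w : ℝ) :
    |Ex (fun t => Ψ (u + X t * w)) - (Ψ u + D2 u * w ^ 2)| ≤ K * |w| ^ 3 * Ex (fun t => |X t| ^ 3) := by
  have h1 : Ex (fun t => Ψ (u + X t * w) - (Ψ u + D1 u * (X t * w) + D2 u * (X t * w) ^ 2))
      = Ex (fun t => Ψ (u + X t * w)) - (Ψ u + D2 u * w ^ 2) := by
    rw [Ex_sub, Ex_add, Ex_add, Ex_const]
    have e1 : Ex (fun t => D1 u * (X t * w)) = 0 := by
      have : (fun t => D1 u * (X t * w)) = fun t => (D1 u * w) * X t := by funext t; ring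
      rw [this, Ex_const_mul, hX.m1, mul_zero]
    have e2 : Ex (fun t => D2 u * (X t * w) ^ 2) = D2 u * w ^ 2 := by
      have : (fun t => D2 u * (X t * w) ^ 2) = fun t => (D2 u * w ^ 2) * X t ^ 2 := by
        funext t; ring
      rw [this, Ex_const_mul, hX.m2, mul_one]
    rw [e1, e2]; ring
  rw [← h1]
  refine (abs_Ex_le _).trans ?_
  rw [← Ex_const_mul]
  refine Ex_mono fun t => ?_
  refine (h.bd _ _).trans (le_of_eq ?_)
  rw [abs_mul]; ring

lemma Good.abs3 {X : Ω → ℝ} (hX : Good X) : Ex (fun t => |X t| ^ 3) ≤ 3 := by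
  have h : ∀ t, |X t| ^ 3 ≤ (3 / 2) * X t ^ 2 + (1 / 6) * X t ^ 4 := by
    intro t
    have h2 : X t ^ 2 = |X t| ^ 2 := (sq_abs _).symm
    have h4 : X t ^ 4 = |X t| ^ 4 := by
      rw [show (4:ℕ) = 2 * 2 by norm_num, pow_mul, pow_mul, h2]
    rw [h2, h4]
    have : 0 ≤ (1 / 6) * (|X t| ^ 2 * (|X t| - 3) ^ 2) := by positivity
    nlinarith
  refine (Ex_mono h).trans ?_
  rw [Ex_add, Ex_const_mul, Ex_const_mul, hX.m2]
  have := hX.m4
  linarith

lemma lind_step {K : ℝ} {Ψ D1 D2 : ℝ → ℝ} (h : Tay K Ψ D1 D2) (p : Finset ι → ℝ)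
    (V V' : ι → Ω → ℝ) (a : ι) (hag : ∀ i, i ≠ a → V i = V' i) (hV : Good (V a))
    (hV' : Good (V' a)) :
    |Ex (fun ω => Ψ (ev p V ω)) - Ex (fun ω => Ψ (ev p V' ω))|
      ≤ 6 * K * Ex (fun ω => |ev (pd a p) V ω| ^ 3) := by
  have u0 : ∀ ω t, ev (pz a p) V (Function.update ω a t) = ev (pz a p) V ω :=
    fun ω t => ev_update a _ (pz_mem a p) V ω t
  have u1 : ∀ ω t, ev (pd a p) V (Function.update ω a t) = ev (pd a p) V ω :=
    fun ω t => ev_update a _ (pd_mem a p) V ω t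
  have u0' : ∀ ω t, ev (pz a p) V' (Function.update ω a t) = ev (pz a p) V' ω :=
    fun ω t => ev_update a _ (pz_mem a p) V' ω t
  have u1' : ∀ ω t, ev (pd a p) V' (Function.update ω a t) = ev (pd a p) V' ω :=
    fun ω t => ev_update a _ (pd_mem a p) V' ω t
  have e0 : ∀ ω, ev (pz a p) V' ω = ev (pz a p) V ω := fun ω =>
    ml_congr_off a _ (pz_mem a p) _ _ fun i hi => by rw [hag i hi]
  have e1 : ∀ ω, ev (pd a p) V' ω = ev (pd a p) V ω := fun ω =>
    ml_congr_off a _ (pd_mem a p) _ _ fun i hi => by rw [hag i hi]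
  have s1 : ∀ ω t, ev p V (Function.update ω a t)
      = ev (pz a p) V ω + V a t * ev (pd a p) V ω := by
    intro ω t
    rw [← u0 ω t, ← u1 ω t]
    unfold ev
    rw [ml_split a p]
    simp
  have s2 : ∀ ω t, ev p V' (Function.update ω a t)
      = ev (pz a p) V ω + V' a t * ev (pd a p) V ω := by
    intro ω t
    rw [← e0, ← e1, ← u0' ω t, ← u1' ω t]
    unfold ev
    rw [ml_split a p]
    simp
  rw [← Ex_update a (fun ω => Ψ (ev p V ω)), ← Ex_update a (fun ω => Ψ (ev p V' ω)), ← Ex_sub]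
  refine (abs_Ex_le _).trans ?_
  rw [← Ex_const_mul]
  refine Ex_mono fun ω => ?_
  simp only [s1, s2]
  have b1 := taylor_avg h (V a) hV (ev (pz a p) V ω) (ev (pd a p) V ω)
  have b2 := taylor_avg h (V' a) hV' (ev (pz a p) V ω) (ev (pd a p) V ω)
  have c1 := hV.abs3
  have c2 := hV'.abs3
  have hk : 0 ≤ K * |ev (pd a p) V ω| ^ 3 := mul_nonneg h.K0 (by positivity)
  have d1 := mul_le_mul_of_nonneg_left c1 hk
  have d2 := mul_le_mul_of_nonneg_left c2 hk
  rw [abs_le] at b1 b2 ⊢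
  constructor <;> linarith [b1.1, b1.2, b2.1, b2.2]

lemma abs3_le (V : ι → Ω → ℝ) (hV : ∀ i, Good (V i)) (d : ℕ) (p : Finset ι → ℝ)
    (hd : ∀ S, d < S.card → p S = 0) (τ : ℝ) (hτ : 0 < τ) (hp : sq2 p ≤ τ ^ 2) :
    Ex (fun ω => |ev p V ω| ^ 3) ≤ 3 ^ d * τ * sq2 p := by
  have h2 := Ex_ev_sq V hV p
  have h4 := bonami V hV d p hd
  set l : ℝ := 3 ^ d * τ with hl
  have hl0 : 0 < l := by positivity
  have h : ∀ ω, |ev p V ω| ^ 3 ≤ (l / 2) * ev p V ω ^ 2 + (1 / (2 * l)) * ev p V ω ^ 4 := by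
    intro ω
    have e2 : ev p V ω ^ 2 = |ev p V ω| ^ 2 := (sq_abs _).symm
    have e4 : ev p V ω ^ 4 = |ev p V ω| ^ 4 := by
      rw [show (4:ℕ) = 2 * 2 by norm_num, pow_mul, pow_mul, e2]
    rw [e2, e4]
    have : 0 ≤ (1 / (2 * l)) * (|ev p V ω| ^ 2 * (|ev p V ω| - l) ^ 2) := by positivity
    have e : (1 / (2 * l)) * (|ev p V ω| ^ 2 * (|ev p V ω| - l) ^ 2)
        = (l / 2) * |ev p V ω| ^ 2 + (1 / (2 * l)) * |ev p V ω| ^ 4 - |ev p V ω| ^ 3 := by
      field_simp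
      ring
    linarith
  refine (Ex_mono h).trans ?_
  rw [Ex_add, Ex_const_mul, Ex_const_mul, h2]
  have h5 : (1 / (2 * l)) * Ex (fun ω => ev p V ω ^ 4) ≤ (1 / (2 * l)) * (9 ^ d * (sq2 p) ^ 2) :=
    mul_le_mul_of_nonneg_left h4 (by positivity)
  have hs0 := sq2_nonneg p
  have h6 : (1 / (2 * l)) * (9 ^ d * (sq2 p) ^ 2) ≤ (l / 2) * sq2 p := by
    have h9 : (9:ℝ) ^ d = 3 ^ d * 3 ^ d := by rw [← mul_pow]; norm_num
    have h7 : 9 ^ d * (sq2 p) ^ 2 ≤ l ^ 2 * sq2 p := by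
      rw [h9, hl]
      have : (sq2 p) ^ 2 ≤ τ ^ 2 * sq2 p := by nlinarith
      have h3 : (0:ℝ) ≤ 3 ^ d * 3 ^ d := by positivity
      nlinarith [mul_le_mul_of_nonneg_left this h3]
    calc (1 / (2 * l)) * (9 ^ d * (sq2 p) ^ 2) ≤ (1 / (2 * l)) * (l ^ 2 * sq2 p) :=
          mul_le_mul_of_nonneg_left h7 (by positivity)
      _ = (l / 2) * sq2 p := by field_simp
  linarith

lemma sq2_pd (i : ι) (p : Finset ι → ℝ) : sq2 (pd i p) = ∑ S, if i ∈ S then p S ^ 2 else 0 := by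
  have h := sq2_split i p
  have h2 : sq2 (pz i p) = ∑ S, if i ∈ S then 0 else p S ^ 2 := by
    unfold sq2 pz
    exact Finset.sum_congr rfl fun S _ => by split_ifs <;> simp
  have h3 : sq2 p = sq2 (pz i p) + ∑ S, if i ∈ S then p S ^ 2 else 0 := by
    rw [h2, ← Finset.sum_add_distrib]
    exact Finset.sum_congr rfl fun S _ => by split_ifs <;> simp
  linarith

lemma sum_sq2_pd_le (d : ℕ) (p : Finset ι → ℝ) (hd : ∀ S, d < S.card → p S = 0) :
    ∑ i, sq2 (pd i p) ≤ d * sq2 p := by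
  simp only [sq2_pd]
  rw [Finset.sum_comm, sq2, Finset.mul_sum]
  refine Finset.sum_le_sum fun S _ => ?_
  have h1 : ∑ i : ι, (if i ∈ S then p S ^ 2 else 0) = S.card * p S ^ 2 := by
    rw [← Finset.sum_filter]; simp
  rw [h1]
  rcases le_or_gt S.card d with h | h
  · have : (S.card : ℝ) ≤ d := by exact_mod_cast h
    exact mul_le_mul_of_nonneg_right this (sq_nonneg _)
  · rw [hd S h]; simp

theorem lindeberg_ml {K : ℝ} {Ψ D1 D2 : ℝ → ℝ} (h : Tay K Ψ D1 D2) (d : ℕ) (p : Finset ι → ℝ)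
    (hd : ∀ S, d < S.card → p S = 0) (V V' : ι → Ω → ℝ) (hV : ∀ i, Good (V i))
    (hV' : ∀ i, Good (V' i)) (τ : ℝ) (hτ : 0 < τ) (hp : ∀ i, sq2 (pd i p) ≤ τ ^ 2) :
    |Ex (fun ω => Ψ (ev p V ω)) - Ex (fun ω => Ψ (ev p V' ω))|
      ≤ 6 * K * (3 ^ d * τ) * (d * sq2 p) := by
  set W : Finset ι → ι → Ω → ℝ := fun A i => if i ∈ A then V' i else V i with hW
  have key : ∀ A : Finset ι,
      |Ex (fun ω => Ψ (ev p (W ∅) ω)) - Ex (fun ω => Ψ (ev p (W A) ω))|
        ≤ ∑ i ∈ A, 6 * K * (3 ^ d * τ) * sq2 (pd i p) := by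
    intro A
    induction A using Finset.induction_on with
    | empty => simp
    | insert a A ha ih =>
      rw [Finset.sum_insert ha]
      have hg : ∀ B i, Good (W B i) := by
        intro B i
        simp only [hW]
        split_ifs
        · exact hV' i
        · exact hV i
      have step := lind_step h p (W A) (W (insert a A)) a (by
        intro i hi
        simp only [hW, Finset.mem_insert, hi, false_or]) (hg _ _) (hg _ _)
      have hdd : ∀ S, d < S.card → pd a p S = 0 := by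
        intro S hS
        unfold pd
        split_ifs with h
        · rfl
        · apply hd
          rw [Finset.card_insert_of_notMem h]
          omega
      have h3 := abs3_le (W A) (hg A) d (pd a p) hdd τ hτ (hp a)
      have h4 : 6 * K * Ex (fun ω => |ev (pd a p) (W A) ω| ^ 3)
          ≤ 6 * K * (3 ^ d * τ * sq2 (pd a p)) :=
        mul_le_mul_of_nonneg_left h3 (by have := h.K0; positivity)
      have tri := abs_sub_le (Ex (fun ω => Ψ (ev p (W ∅) ω))) (Ex (fun ω => Ψ (ev p (W A) ω)))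
        (Ex (fun ω => Ψ (ev p (W (insert a A)) ω)))
      linarith
  have h0 : W ∅ = V := by funext i; simp [hW]
  have h1 : W Finset.univ = V' := by funext i; simp [hW]
  have := key Finset.univ
  rw [h0, h1] at this
  refine this.trans ?_
  rw [← Finset.mul_sum]
  exact mul_le_mul_of_nonneg_left (sum_sq2_pd_le d p hd) (by have := h.K0; positivity)

end lindeberg

section bump

/-- the bump function -/
noncomputable def gb (v : ℝ) : ℝ := 1 / (1 + v ^ 2)

lemma gb_tay (a b : ℝ) :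
    |gb (a + b) - (gb a + (-2 * a / (1 + a ^ 2) ^ 2) * b
      + ((3 * a ^ 2 - 1) / (1 + a ^ 2) ^ 3) * b ^ 2)| ≤ |b| ^ 3 := by
  set D : ℝ := (1 + a ^ 2) ^ 3 * (1 + (a + b) ^ 2) with hD
  set N : ℝ := (a + b) * (1 - 3 * a ^ 2) - a ^ 3 + 3 * a with hN
  set M : ℝ := (a + b) * (a ^ 3 - 3 * a) + (1 - 3 * a ^ 2) with hM
  have hNM : N ^ 2 + M ^ 2 = D := by rw [hN, hM, hD]; ring
  have h1 : (1:ℝ) ≤ (1 + a ^ 2) ^ 3 := one_le_pow₀ (by nlinarith [sq_nonneg a])
  have h2 : (1:ℝ) ≤ 1 + (a + b) ^ 2 := by nlinarith [sq_nonneg (a + b)]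
  have hD1 : 1 ≤ D := by
    rw [hD]
    calc (1:ℝ) = 1 * 1 := by ring
      _ ≤ _ := mul_le_mul h1 h2 (by norm_num) (by positivity)
  have hND : |N| ≤ D := by
    apply abs_le_of_sq_le_sq _ (by linarith)
    nlinarith [sq_nonneg M]
  have ha0 : (1 + a ^ 2) ≠ 0 := by positivity
  have hb0 : (1 + (a + b) ^ 2) ≠ 0 := by positivity
  have e : gb (a + b) - (gb a + (-2 * a / (1 + a ^ 2) ^ 2) * b
      + ((3 * a ^ 2 - 1) / (1 + a ^ 2) ^ 3) * b ^ 2) = b ^ 3 * (N / D) := by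
    unfold gb
    rw [hN, hD]
    field_simp
    ring
  rw [e, abs_mul, abs_pow]
  have : |N / D| ≤ 1 := by
    rw [abs_div, abs_of_pos (by linarith : (0:ℝ) < D)]
    rw [div_le_one (by linarith)]
    exact hND
  have h3 : (0:ℝ) ≤ |b| ^ 3 := by positivity
  nlinarith

lemma gb_scaled (μ : ℝ) (hμ : 0 ≤ μ) :
    Tay (μ ^ 3) (fun v => gb (μ * v)) (fun a => (-2 * (μ * a) / (1 + (μ * a) ^ 2) ^ 2) * μ)
      (fun a => ((3 * (μ * a) ^ 2 - 1) / (1 + (μ * a) ^ 2) ^ 3) * μ ^ 2) where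
  K0 := by positivity
  bd a b := by
    have := gb_tay (μ * a) (μ * b)
    rw [abs_mul, abs_of_nonneg hμ] at this
    rw [← mul_pow]
    refine le_trans (le_of_eq ?_) this
    congr 1
    rw [mul_add]
    ring

lemma gb_nonneg (v : ℝ) : 0 ≤ gb v := by unfold gb; positivity

lemma gb_le_one (v : ℝ) : gb v ≤ 1 := by
  unfold gb
  rw [div_le_one (by positivity)]
  nlinarith [sq_nonneg v]

end bump

section interp

open Polynomial

lemma interp (D : ℕ) (T : Finset ℝ) (t0 : ℝ) : ∃ Λ : ℝ, 0 < Λ ∧ ∀ r : ℝ[X], r.natDegree ≤ D →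
    ∀ η : ℝ, 0 ≤ η → ∀ T' ⊆ T, T'.card = D + 1 → (∀ t ∈ T', |r.eval t| ≤ η) →
      |r.eval t0| ≤ Λ * η := by
  classical
  refine ⟨∑ T' ∈ T.powerset, ∑ t ∈ T', |(Lagrange.basis T' id t).eval t0| + 1, ?_, ?_⟩
  · have : 0 ≤ ∑ T' ∈ T.powerset, ∑ t ∈ T', |(Lagrange.basis T' id t).eval t0| :=
      Finset.sum_nonneg fun _ _ => Finset.sum_nonneg fun _ _ => abs_nonneg _
    linarith
  · intro r hr η hη T' hT' hc hsmall
    have h1 : r = Lagrange.interpolate T' id (fun t => r.eval t) := by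
      apply Lagrange.eq_interpolate_of_eval_eq (fun t => r.eval t) (Set.injOn_id _)
      · rw [hc]
        refine lt_of_le_of_lt Polynomial.degree_le_natDegree ?_
        exact_mod_cast Nat.lt_succ_of_le hr
      · intro i _; rfl
    have h2 : r.eval t0 = ∑ t ∈ T', r.eval t * (Lagrange.basis T' id t).eval t0 := by
      conv_lhs => rw [h1]
      rw [Lagrange.interpolate_apply, Polynomial.eval_finsetSum]
      simp
    rw [h2]
    calc |∑ t ∈ T', r.eval t * (Lagrange.basis T' id t).eval t0|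
        ≤ ∑ t ∈ T', |r.eval t * (Lagrange.basis T' id t).eval t0| := Finset.abs_sum_le_sum_abs _ _
      _ ≤ ∑ t ∈ T', |(Lagrange.basis T' id t).eval t0| * η := by
          refine Finset.sum_le_sum fun t ht => ?_
          rw [abs_mul, mul_comm]
          exact mul_le_mul_of_nonneg_left (hsmall t ht) (abs_nonneg _)
      _ = (∑ t ∈ T', |(Lagrange.basis T' id t).eval t0|) * η := by rw [Finset.sum_mul]
      _ ≤ (∑ T' ∈ T.powerset, ∑ t ∈ T', |(Lagrange.basis T' id t).eval t0| + 1) * η := by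
          apply mul_le_mul_of_nonneg_right _ hη
          have := Finset.single_le_sum (f := fun T' : Finset ℝ =>
            ∑ t ∈ T', |(Lagrange.basis T' id t).eval t0|)
            (fun _ _ => Finset.sum_nonneg fun _ _ => abs_nonneg _) (Finset.mem_powerset.mpr hT')
          linarith

variable {ι : Type} [Fintype ι] [DecidableEq ι]

lemma curve_poly (d : ℕ) (p : Finset ι → ℝ) (hd : ∀ S, d < S.card → p S = 0) (x y : ι → ℝ) :
    ∃ r : ℝ[X], r.natDegree ≤ 2 * d ∧ ∀ t : ℝ, r.eval t = (1 + t ^ 2) ^ d *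
      ml p (fun i => (1 - t ^ 2) / (1 + t ^ 2) * x i + 2 * t / (1 + t ^ 2) * y i) := by
  classical
  refine ⟨∑ S, C (p S) * (1 + X ^ 2) ^ (d - S.card)
    * ∏ i ∈ S, (C (x i) * (1 - X ^ 2) + C (2 * y i) * X), ?_, ?_⟩
  · apply Polynomial.natDegree_sum_le_of_forall_le
    intro S _
    rcases le_or_gt S.card d with h | h
    · have h1 : (C (p S) : ℝ[X]).natDegree = 0 := natDegree_C _
      have h2 : ((1 + X ^ 2 : ℝ[X]) ^ (d - S.card)).natDegree ≤ 2 * (d - S.card) := by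
        refine (natDegree_pow_le).trans ?_
        have : (1 + X ^ 2 : ℝ[X]).natDegree ≤ 2 := by compute_degree
        calc (d - S.card) * (1 + X ^ 2 : ℝ[X]).natDegree ≤ (d - S.card) * 2 :=
              Nat.mul_le_mul_left _ this
          _ = _ := by ring
      have h3 : (∏ i ∈ S, (C (x i) * (1 - X ^ 2) + C (2 * y i) * X : ℝ[X])).natDegree
          ≤ 2 * S.card := by
        refine (natDegree_prod_le _ _).trans ?_
        calc ∑ i ∈ S, (C (x i) * (1 - X ^ 2) + C (2 * y i) * X : ℝ[X]).natDegree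
            ≤ ∑ _i ∈ S, 2 := Finset.sum_le_sum fun i _ => by compute_degree
          _ = _ := by simp [mul_comm]
      calc _ ≤ ((C (p S) : ℝ[X]) * (1 + X ^ 2) ^ (d - S.card)).natDegree + _ := natDegree_mul_le
        _ ≤ ((C (p S) : ℝ[X]).natDegree + ((1 + X ^ 2 : ℝ[X]) ^ (d - S.card)).natDegree) + _ :=
            Nat.add_le_add_right natDegree_mul_le _
        _ ≤ (0 + 2 * (d - S.card)) + 2 * S.card := by
            apply Nat.add_le_add _ h3
            exact Nat.add_le_add h1.le h2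
        _ = 2 * d := by omega
    · rw [hd S h]; simp
  · intro t
    have ht : (1 + t ^ 2) ≠ 0 := by positivity
    rw [Polynomial.eval_finsetSum]
    unfold ml
    rw [Finset.mul_sum]
    refine Finset.sum_congr rfl fun S _ => ?_
    rcases le_or_gt S.card d with h | h
    · have e1 : (1 + t ^ 2) ^ d = (1 + t ^ 2) ^ (d - S.card) * (1 + t ^ 2) ^ S.card := by
        rw [← pow_add]; congr 1; omega
      have e2 : (1 + t ^ 2) ^ S.card *
          ∏ i ∈ S, ((1 - t ^ 2) / (1 + t ^ 2) * x i + 2 * t / (1 + t ^ 2) * y i)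
          = ∏ i ∈ S, (x i * (1 - t ^ 2) + 2 * y i * t) := by
        rw [← Finset.prod_const, ← Finset.prod_mul_distrib]
        refine Finset.prod_congr rfl fun i _ => ?_
        field_simp
      simp only [eval_mul, eval_C, eval_pow, eval_add, eval_one, eval_X, eval_prod, eval_sub]
      rw [← e2, e1]
      ring
    · rw [hd S h]; simp

end interp

end Pool.Agent.H595R2.PTF
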