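import Pool.Agent.H595R2.PTF.Atom

set_option autoImplicit false
set_option linter.unusedSectionVars false

namespace Pool.Agent.H595R2.PTF

open Pool.Agent.Helper497.HS

section mass

variable {Ω : Type} [Fintype Ω]

open scoped Classical in
/-- the `W`-mass of an event -/
noncomputable def mass (A : Ω → Prop) (W : Ω → ℝ) : ℝ := Ex (fun x => if A x then W x else 0)

lemma mass_nonneg (A : Ω → Prop) {W : Ω → ℝ} (hW : ∀ x, 0 ≤ W x) : 0 ≤ mass A W :=
  Ex_nonneg fun x => by split_ifs; exacts [hW x, le_refl _]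

lemma mass_mono {A B : Ω → Prop} {W : Ω → ℝ} (hW : ∀ x, 0 ≤ W x) (h : ∀ x, A x → B x) :
    mass A W ≤ mass B W := by
  classical
  refine Ex_mono fun x => ?_
  by_cases hA : A x
  · simp [hA, h x hA]
  · simp only [hA, if_false]
    split_ifs
    exacts [hW x, le_refl _]

lemma mass_le_Pr (A : Ω → Prop) {W : Ω → ℝ} (hW : ∀ x, W x ≤ 1) : mass A W ≤ Pr A := by
  classical
  refine Ex_mono fun x => ?_
  split_ifs
  exacts [hW x, le_refl _]

lemma mass_le_Ex (A : Ω → Prop) {W : Ω → ℝ} (hW : ∀ x, 0 ≤ W x) : mass A W ≤ Ex W := by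
  classical
  refine Ex_mono fun x => ?_
  split_ifs
  exacts [le_refl _, hW x]

lemma mass_add_not (A : Ω → Prop) (W : Ω → ℝ) : mass A W + mass (fun x => ¬ A x) W = Ex W := by
  classical
  unfold mass
  rw [← Ex_add]
  refine Ex_congr fun x => ?_
  by_cases h : A x <;> simp [h]

lemma mass_true (W : Ω → ℝ) : mass (fun _ => True) W = Ex W := by
  unfold mass; simp

lemma mass_false (W : Ω → ℝ) : mass (fun _ => False) W = 0 := by
  unfold mass; simp [Ex]

lemma mass_le_sum {κ : Type} [Fintype κ] (A : Ω → Prop) (W : Ω → ℝ) (A' : κ → Ω → Prop)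
    (W' : κ → Ω → ℝ) (h0 : ∀ j x, 0 ≤ W' j x)
    (h : ∀ x, A x → ∃ j, A' j x ∧ W x ≤ W' j x) :
    mass A W ≤ ∑ j, mass (A' j) (W' j) := by
  classical
  unfold mass
  rw [← Ex_sum]
  refine Ex_mono fun x => ?_
  have hn : ∀ j, (0:ℝ) ≤ (if A' j x then W' j x else 0) := fun j => by
    split_ifs
    exacts [h0 j x, le_refl _]
  split_ifs with hx
  · obtain ⟨j, hj, hle⟩ := h x hx
    calc W x ≤ (if A' j x then W' j x else 0) := by rw [if_pos hj]; exact hle
      _ ≤ _ := Finset.single_le_sum (f := fun j => if A' j x then W' j x else 0)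
        (fun j _ => hn j) (Finset.mem_univ j)
  · exact Finset.sum_nonneg fun j _ => hn j

/-- weighted median -/
lemma median [Nonempty Ω] (g W : Ω → ℝ) (hW : ∀ x, 0 ≤ W x) (ε : ℝ) (hε : 0 < ε) (h : ε ≤ Ex W) :
    ∃ m : ℝ, ε / 2 ≤ mass (fun x => g x ≤ m) W ∧ ε / 2 ≤ mass (fun x => m ≤ g x) W := by
  classical
  obtain ⟨xm, _, hxm⟩ := Finset.exists_max_image Finset.univ g Finset.univ_nonempty
  set S : Finset Ω := Finset.univ.filter (fun x => ε / 2 ≤ mass (fun y => g y ≤ g x) W) with hS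
  have hSne : S.Nonempty := by
    refine ⟨xm, Finset.mem_filter.mpr ⟨Finset.mem_univ _, ?_⟩⟩
    have : mass (fun y => g y ≤ g xm) W = Ex W := by
      rw [← mass_true W]
      unfold mass
      refine Ex_congr fun y => ?_
      simp [hxm y (Finset.mem_univ _)]
    rw [this]; linarith
  obtain ⟨x0, hx0, hmin⟩ := Finset.exists_min_image S g hSne
  refine ⟨g x0, (Finset.mem_filter.mp hx0).2, ?_⟩
  by_contra hcon
  push Not at hcon
  have h1 := mass_add_not (fun x => g x0 ≤ g x) W
  have h2 : ε / 2 < mass (fun x => ¬ (g x0 ≤ g x)) W := by linarith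
  set T : Finset Ω := Finset.univ.filter (fun x => g x < g x0) with hT
  have hTne : T.Nonempty := by
    by_contra hTe
    rw [Finset.not_nonempty_iff_eq_empty] at hTe
    have : mass (fun x => ¬ (g x0 ≤ g x)) W = 0 := by
      rw [← mass_false W]
      unfold mass
      refine Ex_congr fun y => ?_
      have hy : ¬ (g y < g x0) := by
        intro hy
        have : y ∈ T := Finset.mem_filter.mpr ⟨Finset.mem_univ _, hy⟩
        rw [hTe] at this
        simp at this
      simp [not_lt.mp hy]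
    rw [this] at h2
    linarith
  obtain ⟨y1, hy1, hmax⟩ := Finset.exists_max_image T g hTne
  have hy1' : g y1 < g x0 := (Finset.mem_filter.mp hy1).2
  have h3 : mass (fun x => ¬ (g x0 ≤ g x)) W ≤ mass (fun x => g x ≤ g y1) W := by
    refine mass_mono hW fun x hx => ?_
    exact hmax x (Finset.mem_filter.mpr ⟨Finset.mem_univ _, not_le.mp hx⟩)
  have h4 : y1 ∈ S := Finset.mem_filter.mpr ⟨Finset.mem_univ _, by linarith⟩
  have := hmin y1 h4
  linarith

end mass

section top

variable {ι : Type} [Fintype ι] [DecidableEq ι]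

/-- the coefficients of the top part of `P` away from `H` -/
noncomputable def topc (H : Finset ι) (d : ℕ) (P : (ι → ℤˣ) → ℝ) (S : Finset ι) : ℝ :=
  if S.card = d + 1 ∧ S ∩ H = ∅ then fc P S else 0

/-- the top part of `P` away from `H` -/
noncomputable def top (H : Finset ι) (d : ℕ) (P : (ι → ℤˣ) → ℝ) : (ι → ℤˣ) → ℝ :=
  fun x => ∑ S, topc H d P S * chi S x

lemma fc_top (H : Finset ι) (d : ℕ) (P : (ι → ℤˣ) → ℝ) (S : Finset ι) :
    fc (top H d P) S = topc H d P S := fc_sum_chi _ _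

lemma fc_rs_top {d : ℕ} {P : (ι → ℤˣ) → ℝ} (hP : LD (d + 1) P) (H : Finset ι) (z : ι → ℤˣ)
    (S : Finset ι) (hS : S.card = d + 1 ∧ S ∩ H = ∅) : fc (rs H z P) S = fc P S := by
  rw [fc_rs, Finset.sum_eq_single S]
  · have : S \ H = S := by
      rw [Finset.sdiff_eq_self_iff_disjoint, Finset.disjoint_iff_inter_eq_empty]
      exact hS.2
    simp [this, hS.2, chi]
  · intro T _ hT
    split_ifs with h
    · rcases lt_or_ge (d + 1) T.card with h1 | h1
      · rw [hP T h1, zero_mul]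
      · exfalso
        apply hT
        have hsub : S ⊆ T := by rw [← h]; exact Finset.sdiff_subset
        exact (Finset.eq_of_subset_of_card_le hsub (by omega)).symm
    · rfl
  · intro h; exact absurd (Finset.mem_univ S) h

lemma nsq_top_le {d : ℕ} {P : (ι → ℤˣ) → ℝ} (hP : LD (d + 1) P) (H : Finset ι) (z : ι → ℤˣ) :
    nsq (top H d P) ≤ nsq (rs H z P) := by
  rw [nsq_eq, nsq_eq]
  refine Finset.sum_le_sum fun S _ => ?_
  rw [fc_top]
  unfold topc
  split_ifs with h
  · rw [fc_rs_top hP H z S h]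
  · simp; positivity

lemma rest_LD {d : ℕ} {P : (ι → ℤˣ) → ℝ} (hP : LD (d + 1) P) (H : Finset ι) (z : ι → ℤˣ) :
    LD d (rs H z (fun x => P x - top H d P x)) := by
  intro R hR
  rw [fc_rs]
  refine Finset.sum_eq_zero fun T _ => ?_
  split_ifs with h
  · rw [fc_sub, fc_top]
    have hsub : R ⊆ T := by rw [← h]; exact Finset.sdiff_subset
    rcases lt_or_ge (d + 1) T.card with h1 | h1
    · rw [hP T h1]
      have : ¬ (T.card = d + 1 ∧ T ∩ H = ∅) := fun h2 => by omega
      simp [topc, this]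
    · have hRT : R = T := Finset.eq_of_subset_of_card_le hsub (by omega)
      have h2 : T.card = d + 1 ∧ T ∩ H = ∅ := by
        refine ⟨by rw [← hRT] at h1 ⊢; omega, ?_⟩
        rw [hRT] at h
        rw [← Finset.disjoint_iff_inter_eq_empty, ← Finset.sdiff_eq_self_iff_disjoint]
        exact h
      simp [topc, h2]
  · rfl

lemma nsq_add_le (f g : (ι → ℤˣ) → ℝ) : nsq (fun x => f x + g x) ≤ 2 * nsq f + 2 * nsq g := by
  unfold nsq
  rw [← Ex_const_mul, ← Ex_const_mul, ← Ex_add]
  refine Ex_mono fun x => ?_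
  nlinarith [sq_nonneg (f x - g x)]

/-- enumeration of patterns on `H` -/
lemma patterns (H : Finset ι) (B : ℕ) (hB : H.card ≤ B) :
    ∃ e : Fin (2 ^ B) → (ι → ℤˣ), ∀ x : ι → ℤˣ, ∃ j, ∀ i ∈ H, x i = e j i := by
  classical
  have hc : Fintype.card ({i // i ∈ H} → ℤˣ) ≤ Fintype.card (Fin (2 ^ B)) := by
    rw [Fintype.card_fun, Fintype.card_units_int, Fintype.card_coe, Fintype.card_fin]
    exact Nat.pow_le_pow_right (by norm_num) hB
  obtain ⟨emb⟩ := Function.Embedding.nonempty_of_card_le hc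
  set g : Fin (2 ^ B) → ({i // i ∈ H} → ℤˣ) := Function.invFun emb with hg
  refine ⟨fun j i => if h : i ∈ H then g j ⟨i, h⟩ else 1, fun x => ⟨emb (fun i => x i), ?_⟩⟩
  intro i hi
  simp only [hi, dif_pos, hg]
  rw [Function.leftInverse_invFun emb.injective]

lemma piecewise_agree {H : Finset ι} {x e : ι → ℤˣ} (h : ∀ i ∈ H, x i = e i) (w : ι → ℤˣ)
    (hw : ∀ i ∈ H, w i = x i) : H.piecewise e w = w := by
  funext i
  by_cases hi : i ∈ H
  · simp [hi, hw i hi, h i hi]
  · simp [hi]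

lemma Ex_agree_mul (H : Finset ι) (z : ι → ℤˣ) (G : (ι → ℤˣ) → ℝ) :
    Ex (fun x => (if ∀ i ∈ H, x i = z i then (1:ℝ) else 0) * rs H z G x)
      = (1 / 2 : ℝ) ^ H.card * Ex (rs H z G) := by
  rw [← Ex_piecewise H, ← Pr_agree H z, Pr_eq, ← Ex_mul_const]
  refine Ex_congr fun x => ?_
  rw [← Ex_const_mul]
  refine Ex_congr fun y => ?_
  have h1 : (∀ i ∈ H, H.piecewise x y i = z i) ↔ (∀ i ∈ H, x i = z i) := by
    constructor
    · intro h i hi; have := h i hi; simpa [hi] using this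
    · intro h i hi; simpa [hi] using h i hi
  have h2 : rs H z G (H.piecewise x y) = rs H z G y := by
    unfold rs
    congr 1
    funext i
    by_cases hi : i ∈ H <;> simp [hi]
  rw [h2]
  by_cases h : ∀ i ∈ H, x i = z i
  · rw [if_pos h, if_pos (h1.mpr h)]
  · rw [if_neg h, if_neg (fun h' => h (h1.mp h'))]

end top

end Pool.Agent.H595R2.PTF
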