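import Pool.Agent.H595R2.PTF.Chow

set_option autoImplicit false
set_option linter.unusedSectionVars false

namespace Pool.Agent.H595R2.PTF

open Pool.Agent.Helper497.HS
open Filter

section duality

variable {ι : Type} [Fintype ι] [DecidableEq ι]

/-- the low degree part -/
noncomputable def lowp (d : ℕ) (G : (ι → ℤˣ) → ℝ) : (ι → ℤˣ) → ℝ :=
  fun x => ∑ S : Finset ι, (if S.card ≤ d then fc G S else 0) * chi S x

lemma fc_lowp (d : ℕ) (G : (ι → ℤˣ) → ℝ) (S : Finset ι) :
    fc (lowp d G) S = if S.card ≤ d then fc G S else 0 := fc_sum_chi _ _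

lemma lowp_LD (d : ℕ) (G : (ι → ℤˣ) → ℝ) : LD d (lowp d G) := by
  intro S hS
  rw [fc_lowp, if_neg (not_le.mpr hS)]

lemma Ex_mul_lowp (d : ℕ) (G G' : (ι → ℤˣ) → ℝ) :
    Ex (fun x => G' x * lowp d G x) = ∑ S : Finset ι, if S.card ≤ d then fc G' S * fc G S else 0 := by
  rw [Ex_mul_eq]
  refine Finset.sum_congr rfl fun S _ => ?_
  rw [fc_lowp]
  split_ifs <;> simp

lemma fc_continuous (F : (ι → ℤˣ) → ℝ) (S : Finset ι) :
    Continuous (fun w : (ι → ℤˣ) → ℝ => fc (fun x => w x * F x) S) := by
  unfold fc Ex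
  fun_prop

/-- Duality: if `F` is far from all sign functions of degree `d` polynomials, there is a weight
`w` with mean at least `ε` such that `w F` has vanishing low degree part. -/
theorem duality (d : ℕ) (ε : ℝ) (hε1 : ε ≤ 1) (F : (ι → ℤˣ) → ℝ)
    (hfar : ∀ P : (ι → ℤˣ) → ℝ, LD d P → ε ≤ Pr (fun x => F x * P x ≤ 0)) :
    ∃ w : (ι → ℤˣ) → ℝ, (∀ x, 0 ≤ w x) ∧ (∀ x, w x ≤ 1) ∧ ε ≤ Ex w ∧
      lowsq d (fun x => w x * F x) = 0 := by
  classical
  set K : Set ((ι → ℤˣ) → ℝ) := {w | (∀ x, 0 ≤ w x) ∧ (∀ x, w x ≤ 1) ∧ ε ≤ Ex w} with hK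
  have hKc : IsCompact K := by
    have h1 : K = Set.Icc (fun _ => (0:ℝ)) (fun _ => (1:ℝ)) ∩ {w | ε ≤ Ex w} := by
      ext w
      simp only [hK, Set.mem_ofPred_eq, Set.mem_inter_iff, Set.mem_Icc, Pi.le_def]
      tauto
    rw [h1]
    apply IsCompact.inter_right isCompact_Icc
    apply isClosed_le continuous_const
    unfold Ex
    fun_prop
  have hKn : K.Nonempty := ⟨fun _ => 1, fun _ => zero_le_one, fun _ => le_refl _, by
    rw [Ex_const]; exact hε1⟩
  have hcont : ContinuousOn (fun w : (ι → ℤˣ) → ℝ => lowsq d (fun x => w x * F x)) K := by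
    apply Continuous.continuousOn
    unfold lowsq
    apply continuous_finsetSum
    intro S _
    split_ifs
    · exact (fc_continuous F S).pow 2
    · exact continuous_const
  obtain ⟨w, hw, hmin⟩ := hKc.exists_isMinOn hKn hcont
  refine ⟨w, hw.1, hw.2.1, hw.2.2, ?_⟩
  by_contra hne
  set G : (ι → ℤˣ) → ℝ := fun x => w x * F x with hG
  have hpos : 0 < lowsq d G := lt_of_le_of_ne (lowsq_nonneg _ _) (Ne.symm hne)
  set p := lowp d G with hp
  -- competitor
  have hprob := hfar p (lowp_LD d G)
  set v : (ι → ℤˣ) → ℝ := fun x => if F x * p x ≤ 0 then 1 else 0 with hv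
  have hvK : v ∈ K := by
    refine ⟨fun x => ?_, fun x => ?_, ?_⟩
    · simp only [hv]; split_ifs <;> norm_num
    · simp only [hv]; split_ifs <;> norm_num
    · rw [Pr_eq] at hprob
      exact hprob
  set G' : (ι → ℤˣ) → ℝ := fun x => v x * F x with hG'
  have hcorr : Ex (fun x => G' x * p x) ≤ 0 := by
    have : ∀ x, G' x * p x ≤ 0 := by
      intro x
      simp only [hG', hv]
      split_ifs with h
      · rw [one_mul]; exact h
      · simp
    have := Ex_mono this
    rwa [Ex_const] at this
  have hself : Ex (fun x => G x * p x) = lowsq d G := by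
    rw [hp, Ex_mul_lowp]
    unfold lowsq
    refine Finset.sum_congr rfl fun S _ => ?_
    split_ifs <;> ring
  -- convex combination
  have key : ∀ t : ℝ, 0 ≤ t → t ≤ 1 →
      lowsq d G ≤ lowsq d G + t * (2 * (Ex (fun x => G' x * p x) - lowsq d G)) +
        t ^ 2 * lowsq d (fun x => G' x - G x) := by
    intro t ht0 ht1
    have hmem : (fun x => w x + t * (v x - w x)) ∈ K := by
      refine ⟨fun x => ?_, fun x => ?_, ?_⟩
      · have := hw.1 x; have := hvK.1 x; nlinarith
      · have := hw.2.1 x; have := hvK.2.1 x; nlinarith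
      · rw [Ex_add, Ex_const_mul, Ex_sub]
        have := hw.2.2; have := hvK.2.2; nlinarith
    have h1 := hmin hmem
    simp only [Set.mem_ofPred_eq] at h1
    refine h1.trans (le_of_eq ?_)
    have h2 : ∀ S, fc (fun x => (w x + t * (v x - w x)) * F x) S
        = fc G S + t * (fc G' S - fc G S) := by
      intro S
      have : (fun x => (w x + t * (v x - w x)) * F x) = fun x => G x + t * (G' x - G x) := by
        funext x; simp only [hG, hG']; ring
      rw [this, fc_add, fc_const_mul, fc_sub]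
    rw [hp, Ex_mul_lowp]
    unfold lowsq
    simp only [h2, fc_sub]
    rw [← Finset.sum_sub_distrib, Finset.mul_sum, Finset.mul_sum, Finset.mul_sum,
      ← Finset.sum_add_distrib, ← Finset.sum_add_distrib]
    refine Finset.sum_congr rfl fun S _ => ?_
    split_ifs <;> ring
  set D := lowsq d (fun x => G' x - G x) with hD
  have hD0 : 0 ≤ D := lowsq_nonneg _ _
  set t : ℝ := lowsq d G / (D + lowsq d G) with ht
  have ht0 : 0 < t := by positivity
  have ht1 : t ≤ 1 := by rw [ht, div_le_one (by positivity)]; linarith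
  have h3 := key t ht0.le ht1
  have h4 : t * D < lowsq d G := by
    rw [ht, div_mul_eq_mul_div, div_lt_iff₀ (by positivity)]
    nlinarith
  have h5 : t ^ 2 * D = t * (t * D) := by ring
  nlinarith [mul_lt_mul_of_pos_left h4 ht0, mul_nonneg ht0.le (neg_nonneg.mpr hcorr)]

end duality

section restriction

variable {ι : Type} [Fintype ι] [DecidableEq ι]

/-- moments of Rademacher sums -/
lemma moment_bound (k : ℕ) : ∃ C : ℝ, 0 < C ∧ ∀ (κ : Type) [Fintype κ] [DecidableEq κ]
    [Nonempty κ], Ex (fun v : κ → ℤˣ => rhoT_hF v ^ (2 * k)) ≤ C / (Fintype.card κ : ℝ) ^ k := by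
  -- E (sum over A of signs)^(2k) ≤ C_k |A|^k by induction on k and A
  have main : ∀ k : ℕ, ∃ C : ℝ, 0 < C ∧ ∀ (κ : Type) [Fintype κ] [DecidableEq κ] [Nonempty κ]
      (A : Finset κ), Ex (fun v : κ → ℤˣ => (∑ j ∈ A, sv (v j)) ^ (2 * k)) ≤ C * (A.card : ℝ) ^ k := by
    intro k
    induction k using Nat.strong_induction_on with
    | _ k ih =>
      rcases k with _ | k
      · refine ⟨1, one_pos, fun κ _ _ _ A => ?_⟩
        simp [Ex_const]
      · -- constants from the smaller ones
        choose C hC hCb using fun (m : Fin (k + 1)) => ih m.1 m.2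
        set D : ℝ := ∑ m : Fin (k + 1), ((2 * (k + 1)).choose (2 * m.1) : ℝ) * C m with hD
        have hDpos : 0 < D := by
          apply Finset.sum_pos
          · intro m _
            have : 0 < (2 * (k + 1)).choose (2 * m.1) :=
              Nat.choose_pos (by have := m.2; omega)
            have h2 : (0:ℝ) < ((2 * (k + 1)).choose (2 * m.1) : ℝ) := by exact_mod_cast this
            exact mul_pos h2 (hC m)
          · exact ⟨0, Finset.mem_univ _⟩
        refine ⟨D, hDpos, fun κ _ _ _ A => ?_⟩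
        induction A using Finset.induction_on with
        | empty => simp [Ex_const]
        | insert a A ha ihA =>
          set X : (κ → ℤˣ) → ℝ := fun v => ∑ j ∈ A, sv (v j) with hX
          have hXind : ∀ v t, X (Function.update v a t) = X v := by
            intro v t
            simp only [hX]
            refine Finset.sum_congr rfl fun j hj => ?_
            rw [Function.update_of_ne]
            rintro rfl; exact ha hj
          have e1 : (fun v : κ → ℤˣ => (∑ j ∈ insert a A, sv (v j)) ^ (2 * (k + 1)))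
              = fun v => ∑ m ∈ Finset.range (2 * (k + 1) + 1),
                (sv (v a)) ^ (2 * (k + 1) - m) * (((2 * (k + 1)).choose m : ℝ) * X v ^ m) := by
            funext v
            rw [Finset.sum_insert ha, add_comm, add_pow]
            refine Finset.sum_congr rfl fun m _ => ?_
            ring
          rw [e1, Ex_sum]
          have e2 : ∀ m, Ex (fun v : κ → ℤˣ => (sv (v a)) ^ (2 * (k + 1) - m) *
              (((2 * (k + 1)).choose m : ℝ) * X v ^ m))
              = Ex (fun t : ℤˣ => sv t ^ (2 * (k + 1) - m)) *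
                (((2 * (k + 1)).choose m : ℝ) * Ex (fun v => X v ^ m)) := by
            intro m
            rw [Ex_indep a (fun t => sv t ^ (2 * (k + 1) - m))
              (fun v => ((2 * (k + 1)).choose m : ℝ) * X v ^ m) (fun v t => by simp only [hXind]),
              Ex_const_mul]
          simp only [e2]
          -- odd terms vanish
          have hodd : ∀ m, Odd m → m ≤ 2 * (k + 1) →
              Ex (fun t : ℤˣ => sv t ^ (2 * (k + 1) - m)) = 0 := by
            intro m hm hle
            rw [Ex_units]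
            have : Odd (2 * (k + 1) - m) := by
              rcases hm with ⟨r, rfl⟩
              exact ⟨k - r, by omega⟩
            simp [this.neg_one_pow]
          have heven : ∀ m, Ex (fun t : ℤˣ => sv t ^ (2 * (k + 1) - 2 * m)) = 1 := by
            intro m
            rw [Ex_units]
            have : Even (2 * (k + 1) - 2 * m) := ⟨k + 1 - m, by omega⟩
            simp [this.neg_one_pow]
          have e3 : ∑ m ∈ Finset.range (2 * (k + 1) + 1),
              Ex (fun t : ℤˣ => sv t ^ (2 * (k + 1) - m)) *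
                (((2 * (k + 1)).choose m : ℝ) * Ex (fun v => X v ^ m))
              = ∑ m ∈ Finset.range (k + 2),
                (((2 * (k + 1)).choose (2 * m) : ℝ) * Ex (fun v => X v ^ (2 * m))) := by
            have hsub : (Finset.range (k + 2)).image (fun m => 2 * m)
                ⊆ Finset.range (2 * (k + 1) + 1) := by
              intro m hm
              obtain ⟨r, hr, rfl⟩ := Finset.mem_image.mp hm
              rw [Finset.mem_range] at hr ⊢
              omega
            rw [← Finset.sum_subset hsub]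
            · rw [Finset.sum_image (fun x _ y _ h => by have h' : 2 * x = 2 * y := h; omega)]
              refine Finset.sum_congr rfl fun m _ => ?_
              rw [heven m, one_mul]
            · intro m hm hm2
              rw [Finset.mem_range] at hm
              rcases Nat.even_or_odd m with he | ho
              · exfalso
                apply hm2
                obtain ⟨r, hr⟩ := he
                refine Finset.mem_image.mpr ⟨r, Finset.mem_range.mpr (by omega), by omega⟩
              · rw [hodd m ho (by omega), zero_mul]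
          rw [e3, Finset.sum_range_succ]
          rw [Nat.choose_self, Nat.cast_one, one_mul]
          have e4 : ∑ m ∈ Finset.range (k + 1),
                (((2 * (k + 1)).choose (2 * m) : ℝ) * Ex (fun v => X v ^ (2 * m)))
              ≤ D * ((A.card : ℝ) + 1) ^ k := by
            rw [Finset.sum_range, hD, Finset.sum_mul]
            refine Finset.sum_le_sum fun m _ => ?_
            rw [mul_assoc]
            apply mul_le_mul_of_nonneg_left _ (Nat.cast_nonneg _)
            refine (hCb m κ A).trans ?_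
            apply mul_le_mul_of_nonneg_left _ (hC m).le
            calc (A.card : ℝ) ^ (m : ℕ) ≤ ((A.card : ℝ) + 1) ^ (m : ℕ) :=
                  pow_le_pow_left₀ (Nat.cast_nonneg _) (by linarith) _
              _ ≤ ((A.card : ℝ) + 1) ^ k :=
                  pow_le_pow_right₀ (by have : (0:ℝ) ≤ A.card := Nat.cast_nonneg _; linarith)
                    (by have := m.2; omega)
          rw [Finset.card_insert_of_notMem ha]
          push_cast
          have h5 : (A.card : ℝ) ^ (k + 1) + ((A.card : ℝ) + 1) ^ k ≤ ((A.card : ℝ) + 1) ^ (k + 1) := by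
            have h6 : (A.card : ℝ) ^ k ≤ ((A.card : ℝ) + 1) ^ k :=
              pow_le_pow_left₀ (Nat.cast_nonneg _) (by linarith) _
            have h7 : (0:ℝ) ≤ A.card := Nat.cast_nonneg _
            rw [pow_succ, pow_succ]
            nlinarith
          have h8 := mul_le_mul_of_nonneg_left h5 hDpos.le
          linarith
  obtain ⟨C, hC, H⟩ := main k
  refine ⟨C, hC, fun κ _ _ _ => ?_⟩
  have h1 := H κ Finset.univ
  have hM := cardT_pos_hF (κ := κ)
  have h2 : (fun v : κ → ℤˣ => rhoT_hF v ^ (2 * k))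
      = fun v => (1 / (Fintype.card κ : ℝ) ^ (2 * k)) * (∑ j, sv (v j)) ^ (2 * k) := by
    funext v
    rw [rhoT_eq_hF, div_pow]; ring
  rw [h2, Ex_const_mul]
  rw [Finset.card_univ] at h1
  calc (1 / (Fintype.card κ : ℝ) ^ (2 * k)) * Ex (fun v : κ → ℤˣ => (∑ j, sv (v j)) ^ (2 * k))
      ≤ (1 / (Fintype.card κ : ℝ) ^ (2 * k)) * (C * (Fintype.card κ : ℝ) ^ k) :=
        mul_le_mul_of_nonneg_left h1 (by positivity)
    _ = C / (Fintype.card κ : ℝ) ^ k := by
        rw [two_mul, pow_add]; field_simp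

lemma card_low (κ : Type) [Fintype κ] [DecidableEq κ] (d : ℕ) :
    (Finset.univ.filter (fun T : Finset κ => T.card ≤ d)).card ≤ (Fintype.card κ + 1) ^ d := by
  classical
  induction d with
  | zero =>
    have : (Finset.univ.filter (fun T : Finset κ => T.card ≤ 0)) = {∅} := by
      ext T; simp
    rw [this]; simp
  | succ d ih =>
    set A := Finset.univ.filter (fun T : Finset κ => T.card ≤ d) with hA
    have hsub : (Finset.univ.filter (fun T : Finset κ => T.card ≤ d + 1))
        ⊆ (A ×ˢ (Finset.univ : Finset (Option κ))).image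
          (fun p => match p.2 with | none => p.1 | some a => insert a p.1) := by
      intro T hT
      have hT' := (Finset.mem_filter.mp hT).2
      rcases Nat.lt_or_ge T.card (d + 1) with h | h
      · refine Finset.mem_image.mpr ⟨(T, none), ?_, rfl⟩
        refine Finset.mem_product.mpr ⟨Finset.mem_filter.mpr ⟨Finset.mem_univ _, ?_⟩,
          Finset.mem_univ _⟩
        show T.card ≤ d
        omega
      · have hne : T.Nonempty := Finset.card_pos.mp (by omega)
        obtain ⟨a, ha⟩ := hne
        refine Finset.mem_image.mpr ⟨(T.erase a, some a), ?_, Finset.insert_erase ha⟩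
        refine Finset.mem_product.mpr ⟨Finset.mem_filter.mpr ⟨Finset.mem_univ _, ?_⟩,
          Finset.mem_univ _⟩
        show (T.erase a).card ≤ d
        rw [Finset.card_erase_of_mem ha]; omega
    refine (Finset.card_le_card hsub).trans (Finset.card_image_le.trans ?_)
    rw [Finset.card_product, Finset.card_univ, Fintype.card_option, pow_succ]
    exact Nat.mul_le_mul_right _ ih

/-- the kernel of the projection on low degrees -/
noncomputable def kerd (κ : Type) [Fintype κ] [DecidableEq κ] (d : ℕ) (v : κ → ℤˣ) : ℝ :=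
  ∑ T ∈ Finset.univ.filter (fun T : Finset κ => T.card ≤ d), chi T v

lemma kerd_sq (κ : Type) [Fintype κ] [DecidableEq κ] (d : ℕ) :
    Ex (fun v => kerd κ d v ^ 2) ≤ ((Fintype.card κ : ℝ) + 1) ^ d := by
  have h1 : ∀ v, kerd κ d v = ∑ T : Finset κ, (if T.card ≤ d then 1 else 0) * chi T v := by
    intro v
    unfold kerd
    rw [Finset.sum_filter]
    refine Finset.sum_congr rfl fun T _ => ?_
    split_ifs <;> simp
  have h2 : Ex (fun v => kerd κ d v ^ 2)
      = nsq (fun v => ∑ T : Finset κ, (if T.card ≤ d then 1 else 0) * chi T v) := by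
    unfold nsq
    simp only [h1]
  rw [h2, nsq_eq]
  simp only [fc_sum_chi]
  have h3 : ∑ x : Finset κ, (if x.card ≤ d then (1:ℝ) else 0) ^ 2
      = ((Finset.univ.filter (fun T : Finset κ => T.card ≤ d)).card : ℝ) := by
    rw [Finset.card_filter]
    push_cast
    refine Finset.sum_congr rfl fun T _ => ?_
    split_ifs <;> simp
  rw [h3]
  exact_mod_cast card_low κ d

theorem transfer_low (d : ℕ) (η : ℝ) (hη : 0 < η) : ∃ M0 : ℕ, ∀ (κ : Type) [Fintype κ]
    [DecidableEq κ] [Nonempty κ], M0 ≤ Fintype.card κ →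
    ∀ (ι : Type) [Fintype ι] [DecidableEq ι] (g : (ι → ℤˣ) → ℝ),
      (∀ S : Finset ι, S.card ≤ d → fc g S = 0) →
      Ex (fun zc : (ι → ℤˣ) × (ι → κ) => lowsq d (fun u => g (samp zc.1 zc.2 u)))
        ≤ η * Ex (fun x => g x ^ 2) := by
  classical
  obtain ⟨C, hC, hmom⟩ := moment_bound (d + 1)
  obtain ⟨M0, hM0⟩ := exists_nat_gt (2 ^ d * C / η ^ 2)
  refine ⟨M0, fun κ _ _ _ hκ ι _ _ g hg => ?_⟩
  have hM := cardT_pos_hF (κ := κ)
  have hM1 : (1:ℝ) ≤ Fintype.card κ := by exact_mod_cast Fintype.card_pos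
  set M : ℝ := (Fintype.card κ : ℝ) with hMdef
  -- kernel bound
  have hker : ∀ n, d + 1 ≤ n → Ex (fun v : κ → ℤˣ => kerd κ d v * rhoT_hF v ^ n) ≤ η := by
    intro n hn
    have h1 : Ex (fun v : κ → ℤˣ => kerd κ d v * rhoT_hF v ^ n)
        ≤ Ex (fun v : κ → ℤˣ => |kerd κ d v| * |rhoT_hF v| ^ (d + 1)) := by
      refine Ex_mono fun v => ?_
      calc kerd κ d v * rhoT_hF v ^ n ≤ |kerd κ d v * rhoT_hF v ^ n| := le_abs_self _
        _ = |kerd κ d v| * |rhoT_hF v| ^ n := by rw [abs_mul, abs_pow]
        _ ≤ |kerd κ d v| * |rhoT_hF v| ^ (d + 1) := by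
            apply mul_le_mul_of_nonneg_left _ (abs_nonneg _)
            exact pow_le_pow_of_le_one (abs_nonneg _) (abs_rhoT_le_hF v) hn
    refine h1.trans ?_
    have h2 := cs_le (fun v : κ → ℤˣ => |kerd κ d v|) (fun v => |rhoT_hF v| ^ (d + 1))
      (a := (M + 1) ^ d) (b := C / M ^ (d + 1)) (c := η) (by
        simp only [sq_abs]
        exact kerd_sq κ d) (by
        refine le_trans (le_of_eq ?_) (hmom κ)
        refine Ex_congr fun v => ?_
        rw [← pow_mul, mul_comm (d + 1) 2, pow_mul, sq_abs, ← pow_mul]) (by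
        have h3 : (M + 1) ^ d ≤ 2 ^ d * M ^ d := by
          rw [← mul_pow]
          exact pow_le_pow_left₀ (by positivity) (by linarith) d
        have h4 : 2 ^ d * C / η ^ 2 < M := lt_of_lt_of_le hM0 (by
          rw [hMdef]; exact_mod_cast hκ)
        rw [div_lt_iff₀ (by positivity)] at h4
        calc (M + 1) ^ d * (C / M ^ (d + 1)) ≤ (2 ^ d * M ^ d) * (C / M ^ (d + 1)) :=
              mul_le_mul_of_nonneg_right h3 (by positivity)
          _ = 2 ^ d * C / M := by rw [pow_succ]; field_simp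
          _ ≤ η ^ 2 := by
              rw [div_le_iff₀ hM]
              linarith) hη.le
    exact (abs_le.mp h2).2
  -- second moments
  have hT : ∀ T : Finset κ, Ex (fun zc : (ι → ℤˣ) × (ι → κ) =>
      fc (fun u => g (samp zc.1 zc.2 u)) T ^ 2)
      = Ex (fun v : κ → ℤˣ => chi T v * ∑ S, fc g S ^ 2 * rhoT_hF v ^ S.card) := by
    intro T
    have h1 := second_moment_hF (κ := κ) g (fun u => chi T u)
    have h2 : Ex (fun zc : (ι → ℤˣ) × (ι → κ) =>
        fc (fun u => g (samp zc.1 zc.2 u)) T ^ 2)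
        = Ex (fun zc : (ι → ℤˣ) × (ι → κ) => (Ex (fun u => g (samp zc.1 zc.2 u) * chi T u)) ^ 2) :=
      rfl
    rw [h2, h1, ← Ex_conv_hF (fun v : κ → ℤˣ => chi T v * ∑ S, fc g S ^ 2 * rhoT_hF v ^ S.card)]
    refine Ex_congr fun u => Ex_congr fun u' => ?_
    have : chi T (u * u') = chi T u * chi T u' := chi_mul_hs T u u'
    rw [this]
  have hsum : Ex (fun zc : (ι → ℤˣ) × (ι → κ) => lowsq d (fun u => g (samp zc.1 zc.2 u)))
      = ∑ S, fc g S ^ 2 * Ex (fun v : κ → ℤˣ => kerd κ d v * rhoT_hF v ^ S.card) := by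
    have h1 : ∀ zc : (ι → ℤˣ) × (ι → κ), lowsq d (fun u => g (samp zc.1 zc.2 u))
        = ∑ T ∈ Finset.univ.filter (fun T : Finset κ => T.card ≤ d),
          fc (fun u => g (samp zc.1 zc.2 u)) T ^ 2 := by
      intro zc
      unfold lowsq
      rw [Finset.sum_filter]
    simp only [h1]
    rw [Ex_sum]
    simp only [hT]
    rw [← Ex_sum]
    have h2 : (fun v : κ → ℤˣ => ∑ T ∈ Finset.univ.filter (fun T : Finset κ => T.card ≤ d),
        chi T v * ∑ S, fc g S ^ 2 * rhoT_hF v ^ S.card)
        = fun v => ∑ S, fc g S ^ 2 * (kerd κ d v * rhoT_hF v ^ S.card) := by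
      funext v
      rw [← Finset.sum_mul, Finset.mul_sum]
      refine Finset.sum_congr rfl fun S _ => ?_
      unfold kerd
      ring
    rw [h2, Ex_sum]
    refine Finset.sum_congr rfl fun S _ => ?_
    rw [Ex_const_mul]
  rw [hsum]
  have h5 : Ex (fun x => g x ^ 2) = ∑ S, fc g S ^ 2 := parseval g
  rw [h5, Finset.mul_sum]
  refine Finset.sum_le_sum fun S _ => ?_
  rcases le_or_gt S.card d with h | h
  · rw [hg S h]; simp
  · rw [mul_comm]
    exact mul_le_mul_of_nonneg_right (hker S.card h) (sq_nonneg _)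

/-- Soundness of the random restriction test. -/
theorem ptf_soundness (d : ℕ) (ε : ℝ) (hε : 0 < ε) : ∃ M : ℕ, 0 < M ∧
    ∀ (ι : Type) [Fintype ι] [DecidableEq ι] (F : (ι → ℤˣ) → ℝ), (∀ x, |F x| = 1) →
      (∀ P : (ι → ℤˣ) → ℝ, LD d P → ε ≤ Pr (fun x => F x * P x ≤ 0)) →
      Pr (fun zc : (ι → ℤˣ) × (ι → Fin M) => ∃ P : (Fin M → ℤˣ) → ℝ, LD d P ∧
        ∀ u, 0 < F (samp zc.1 zc.2 u) * P u) ≤ 1 / 3 := by
  classical
  obtain ⟨η, hη, hchow⟩ := chow d (ε / 2) (by positivity)
  obtain ⟨M0, hM0⟩ := transfer_low d (η / 6) (by positivity)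
  obtain ⟨M1, hM1⟩ := exists_nat_gt (6 / (ε / 2) ^ 2)
  set M : ℕ := max (max M0 M1) 1 with hM
  have hMpos : 0 < M := lt_of_lt_of_le one_pos (le_max_right _ _)
  refine ⟨M, hMpos, fun ι _ _ F hF hfar => ?_⟩
  haveI : NeZero M := ⟨hMpos.ne'⟩
  have hε1 : ε ≤ 1 := (hfar (fun _ => 0) (by
    intro S _; simp [fc, Ex])).trans (Pr_le_one _)
  obtain ⟨w, hw0, hw1, hwε, hwl⟩ := duality d ε hε1 F hfar
  set g : (ι → ℤˣ) → ℝ := fun x => w x * F x with hg
  have hgl : ∀ S : Finset ι, S.card ≤ d → fc g S = 0 := by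
    intro S hS
    have h1 : ∀ S ∈ (Finset.univ : Finset (Finset ι)), 0 ≤ if S.card ≤ d then fc g S ^ 2 else 0 :=
      fun S _ => by split_ifs <;> positivity
    have h2 := (Finset.sum_eq_zero_iff_of_nonneg h1).mp hwl S (Finset.mem_univ _)
    rw [if_pos hS] at h2
    exact pow_eq_zero_iff (two_ne_zero) |>.mp h2
  have hg1 : Ex (fun x => g x ^ 2) ≤ 1 := by
    rw [← Ex_const (Ω := ι → ℤˣ) (1:ℝ)]
    refine Ex_mono fun x => ?_
    simp only [hg]
    rw [mul_pow, ← sq_abs (F x), hF x]
    have := hw0 x; have := hw1 x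
    nlinarith
  have hlow := hM0 (Fin M) (by
    rw [Fintype.card_fin]; exact (le_max_left _ _).trans (le_max_left _ _)) ι g hgl
  have hlow' : Ex (fun zc : (ι → ℤˣ) × (ι → Fin M) => lowsq d (fun u => g (samp zc.1 zc.2 u)))
      ≤ η / 6 := by
    refine hlow.trans ?_
    nlinarith
  have hzero := transfer_zero (κ := Fin M) w
  have hw2 : Ex (fun x => w x ^ 2) ≤ 1 := by
    rw [← Ex_const (Ω := ι → ℤˣ) (1:ℝ)]
    refine Ex_mono fun x => ?_
    have := hw0 x; have := hw1 x
    nlinarith
  -- the two bad events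
  have hbad : ∀ zc : (ι → ℤˣ) × (ι → Fin M), (∃ P : (Fin M → ℤˣ) → ℝ, LD d P ∧
        ∀ u, 0 < F (samp zc.1 zc.2 u) * P u) →
      (η ≤ lowsq d (fun u => g (samp zc.1 zc.2 u)) ∨
        (ε / 2) ^ 2 ≤ (Ex (fun u => w (samp zc.1 zc.2 u)) - Ex w) ^ 2) := by
    rintro zc ⟨P, hP, hpos⟩
    by_cases hh : ε / 2 ≤ Ex (fun u => w (samp zc.1 zc.2 u))
    · left
      refine hchow (Fin M) P (fun u => w (samp zc.1 zc.2 u)) (fun u => F (samp zc.1 zc.2 u)) hP
        (fun u => ?_) (fun u => ?_) (fun u => hF _) (fun u => hw0 _) (fun u => hw1 _) hh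
      · have h1 := hpos u
        rw [← abs_of_pos h1, abs_mul, hF, one_mul]
      · intro h0
        have h1 := hpos u
        rw [h0, mul_zero] at h1
        exact lt_irrefl _ h1
    · right
      push Not at hh
      have h1 : ε / 2 ≤ Ex w - Ex (fun u => w (samp zc.1 zc.2 u)) := by linarith
      have h2 := pow_le_pow_left₀ (by positivity) h1 2
      nlinarith
  refine (Pr_mono hbad).trans ((Pr_or_le _ _).trans ?_)
  have b1 := markov (fun zc : (ι → ℤˣ) × (ι → Fin M) => lowsq d (fun u => g (samp zc.1 zc.2 u)))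
    (fun _ => lowsq_nonneg _ _) η hη
  have b2 := markov (fun zc : (ι → ℤˣ) × (ι → Fin M) =>
    (Ex (fun u => w (samp zc.1 zc.2 u)) - Ex w) ^ 2) (fun _ => sq_nonneg _) ((ε / 2) ^ 2)
    (by positivity)
  have c1 : Ex (fun zc : (ι → ℤˣ) × (ι → Fin M) => lowsq d (fun u => g (samp zc.1 zc.2 u))) / η
      ≤ 1 / 6 := by
    rw [div_le_iff₀ hη]; linarith
  have c2 : Ex (fun zc : (ι → ℤˣ) × (ι → Fin M) =>
    (Ex (fun u => w (samp zc.1 zc.2 u)) - Ex w) ^ 2) / ((ε / 2) ^ 2) ≤ 1 / 6 := by
    rw [div_le_iff₀ (by positivity)]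
    refine hzero.trans ?_
    rw [Fintype.card_fin]
    have hMM : 6 / (ε / 2) ^ 2 < M := lt_of_lt_of_le hM1 (by
      exact_mod_cast (le_max_right _ _).trans (le_max_left _ _))
    rw [div_lt_iff₀ (by positivity)] at hMM
    rw [div_le_iff₀ (by exact_mod_cast hMpos)]
    linarith
  linarith

end restriction

end Pool.Agent.H595R2.PTF
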